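import Pool.Agent.H437R2.A1
set_option autoImplicit false

open MeasureTheory Filter Topology Set Metric

namespace Pool.Agent.H437R2

noncomputable section

theorem factor_one (F : ℂ → ℂ) (hF : Differentiable ℂ F) (hne : ∃ v, F v ≠ 0) (a : ℂ) :
    ∃ (n : ℕ) (G : ℂ → ℂ), Differentiable ℂ G ∧ G a ≠ 0 ∧ ∀ v, F v = (v - a) ^ n * G v := by
  have hFa : AnalyticAt ℂ F a := hF.analyticAt a
  have hnz : ¬ ∀ᶠ z in 𝓝 a, F z = 0 := by
    intro h
    obtain ⟨v, hv⟩ := hne
    have hFan : AnalyticOnNhd ℂ F univ := fun z _ => hF.analyticAt z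
    have := hFan.eqOn_zero_of_preconnected_of_eventuallyEq_zero isPreconnected_univ (mem_univ a) h
    exact hv (this (mem_univ v))
  obtain ⟨n, g, hg, hga, hgF⟩ := (hFa.exists_eventuallyEq_pow_smul_nonzero_iff).2 hnz
  refine ⟨n, fun v => if v = a then g a else F v / (v - a) ^ n, ?_, ?_, ?_⟩
  · intro v
    by_cases hv : v = a
    · subst hv
      have h1 : (fun w => if w = v then g v else F w / (w - v) ^ n) =ᶠ[𝓝 v] g := by
        filter_upwards [hgF] with w hw
        by_cases hwv : w = v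
        · rw [if_pos hwv, hwv]
        · rw [if_neg hwv, hw, smul_eq_mul, mul_div_cancel_left₀]
          exact pow_ne_zero _ (sub_ne_zero.2 hwv)
      exact hg.differentiableAt.congr_of_eventuallyEq h1
    · have h1 : (fun w => if w = a then g a else F w / (w - a) ^ n) =ᶠ[𝓝 v]
          fun w => F w / (w - a) ^ n := by
        filter_upwards [isOpen_ne.mem_nhds hv] with w hw
        exact if_neg hw
      have h2 : DifferentiableAt ℂ (fun w => F w / (w - a) ^ n) v :=
        (hF v).div ((differentiableAt_id.sub_const a).pow n) (pow_ne_zero _ (sub_ne_zero.2 hv))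
      exact h2.congr_of_eventuallyEq h1
  · show (if a = a then g a else F a / (a - a) ^ n) ≠ 0
    rw [if_pos rfl]
    exact hga
  · intro v
    by_cases hv : v = a
    · subst hv
      simp only [if_true]
      have := hgF.self_of_nhds
      rw [this, smul_eq_mul]
    · simp only [if_neg hv]
      rw [mul_div_cancel₀]
      exact pow_ne_zero _ (sub_ne_zero.2 hv)

theorem factor_many (F : ℂ → ℂ) (hF : Differentiable ℂ F) (hne : ∃ v, F v ≠ 0) (Z : Finset ℂ) :
    ∃ (s : List ℂ) (G : ℂ → ℂ), (∀ r ∈ s, r ∈ Z) ∧ Differentiable ℂ G ∧ (∀ z ∈ Z, G z ≠ 0) ∧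
      ∀ v, F v = (s.map (fun r => v - r)).prod * G v := by
  classical
  induction Z using Finset.induction_on with
  | empty =>
    refine ⟨[], F, by simp, hF, by simp, ?_⟩
    intro v
    simp
  | @insert a Z _ ih =>
    obtain ⟨s, G, hs, hG, hGZ, hFG⟩ := ih
    have hGne : ∃ v, G v ≠ 0 := by
      obtain ⟨v, hv⟩ := hne
      refine ⟨v, fun h => hv ?_⟩
      rw [hFG, h, mul_zero]
    obtain ⟨n, G', hG', hG'a, hGG'⟩ := factor_one G hG hGne a
    refine ⟨s ++ List.replicate n a, G', ?_, hG', ?_, ?_⟩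
    · intro r hr
      rcases List.mem_append.1 hr with h | h
      · exact Finset.mem_insert_of_mem (hs r h)
      · rw [List.eq_of_mem_replicate h]
        exact Finset.mem_insert_self _ _
    · intro z hz
      rcases Finset.mem_insert.1 hz with h | h
      · rw [h]; exact hG'a
      · intro h0
        apply hGZ z h
        rw [hGG', h0, mul_zero]
    · intro v
      rw [hFG, hGG', List.map_append, List.prod_append, List.map_replicate, List.prod_replicate,
        mul_assoc]

theorem zeros_finite (F : ℂ → ℂ) (hF : Differentiable ℂ F) (hne : ∃ v, F v ≠ 0) (K : Set ℂ)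
    (hK : IsCompact K) : {v : ℂ | F v = 0 ∧ v ∈ K}.Finite := by
  by_contra hinf
  have hinf' : {v : ℂ | F v = 0 ∧ v ∈ K}.Infinite := hinf
  obtain ⟨x, _, hx⟩ := hinf'.exists_accPt_of_subset_isCompact hK (fun v hv => hv.2)
  rw [accPt_iff_frequently_nhdsNE] at hx
  have hFan : AnalyticOnNhd ℂ F univ := fun z _ => hF.analyticAt z
  have := hFan.eqOn_zero_of_preconnected_of_frequently_eq_zero isPreconnected_univ (mem_univ x)
    (hx.mono (fun y hy => hy.1))
  obtain ⟨v, hv⟩ := hne
  exact hv (this (mem_univ v))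

theorem entire_factor (F : ℂ → ℂ) (hF : Differentiable ℂ F) (hne : ∃ v, F v ≠ 0) (K : Set ℂ)
    (hK : IsCompact K) : ∃ (L : List ℂ) (G : ℂ → ℂ), (∀ r ∈ L, F r = 0 ∧ r ∈ K) ∧
      (∀ r ∈ K, F r = 0 → r ∈ L) ∧ Differentiable ℂ G ∧ (∀ z ∈ K, G z ≠ 0) ∧
      ∀ v, F v = (L.map (fun r => v - r)).prod * G v := by
  have hfin := zeros_finite F hF hne K hK
  obtain ⟨s, G, hs, hG, hGZ, hFG⟩ := factor_many F hF hne hfin.toFinset
  have hGK : ∀ z ∈ K, G z ≠ 0 := by
    intro z hz h0
    have hF0 : F z = 0 := by rw [hFG, h0, mul_zero]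
    exact hGZ z (hfin.mem_toFinset.2 ⟨hF0, hz⟩) h0
  refine ⟨s, G, fun r hr => hfin.mem_toFinset.1 (hs r hr), ?_, hG, hGK, hFG⟩
  intro r hr hFr
  rw [hFG] at hFr
  rcases mul_eq_zero.1 hFr with h | h
  · rw [List.prod_eq_zero_iff] at h
    obtain ⟨a, ha, hab⟩ := List.mem_map.1 h
    rw [sub_eq_zero] at hab
    rw [hab]
    exact ha
  · exact absurd h (hGK r hr)

/-- derivative of a finite product of linear factors times `G` -/
theorem logDeriv_factor (L : List ℂ) (F G : ℂ → ℂ) (hG : Differentiable ℂ G)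
    (hFG : ∀ v, F v = (L.map (fun r => v - r)).prod * G v) {z : ℂ} (hz : F z ≠ 0) :
    deriv F z / F z = (L.map (fun r => (z - r)⁻¹)).sum + deriv G z / G z := by
  have hF : F = fun v => (L.map (fun r => v - r)).prod * G v := funext hFG
  clear hFG
  subst hF
  induction L generalizing G with
  | nil =>
    simp at hz ⊢
  | cons a L ih =>
    have e : (fun v => ((a :: L).map (fun r => v - r)).prod * G v) =
        fun v => (L.map (fun r => v - r)).prod * ((v - a) * G v) := by
      funext v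
      simp only [List.map_cons, List.prod_cons]
      ring
    rw [e] at hz ⊢
    have hG' : Differentiable ℂ (fun v => (v - a) * G v) := by fun_prop
    rw [ih (fun v => (v - a) * G v) hG' hz]
    have h2 : (z - a) * G z ≠ 0 := fun h => hz (by simp only [h, mul_zero])
    have hza : z - a ≠ 0 := left_ne_zero_of_mul h2
    have hGz : G z ≠ 0 := right_ne_zero_of_mul h2
    have h3 : deriv (fun v => (v - a) * G v) z = G z + (z - a) * deriv G z := by
      have h4 : HasDerivAt (fun v => v - a) 1 z := (hasDerivAt_id z).sub_const a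
      have h5 := h4.mul (hG z).hasDerivAt
      rw [one_mul] at h5
      exact h5.deriv
    simp only [List.map_cons, List.sum_cons]
    rw [h3]
    field_simp
    ring

theorem norm_list_prod (L : List ℂ) : ‖L.prod‖ = (L.map (fun x => ‖x‖)).prod := by
  induction L with
  | nil => simp
  | cons a L ih => simp [ih]

theorem list_prod_le_pow {α : Type*} (L : List α) (f : α → ℝ) (b : ℝ) (h0 : ∀ a ∈ L, 0 ≤ f a)
    (hb : ∀ a ∈ L, f a ≤ b) : (L.map f).prod ≤ b ^ L.length ∧ 0 ≤ (L.map f).prod := by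
  induction L with
  | nil => simp
  | cons a L ih =>
    have ih' := ih (fun x hx => h0 x (List.mem_cons_of_mem _ hx))
      (fun x hx => hb x (List.mem_cons_of_mem _ hx))
    have ha0 := h0 a (List.mem_cons_self)
    have hab := hb a (List.mem_cons_self)
    simp only [List.map_cons, List.prod_cons, List.length_cons, pow_succ]
    constructor
    · rw [mul_comm (b ^ L.length) b]
      exact mul_le_mul hab ih'.1 ih'.2 (ha0.trans hab)
    · exact mul_nonneg ha0 ih'.2

theorem pow_le_list_prod {α : Type*} (L : List α) (f : α → ℝ) (b : ℝ) (h0 : 0 ≤ b)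
    (hb : ∀ a ∈ L, b ≤ f a) : b ^ L.length ≤ (L.map f).prod := by
  induction L with
  | nil => simp
  | cons a L ih =>
    have ih' := ih (fun x hx => hb x (List.mem_cons_of_mem _ hx))
    have hab := hb a (List.mem_cons_self)
    simp only [List.map_cons, List.prod_cons, List.length_cons, pow_succ]
    rw [mul_comm (b ^ L.length) b]
    exact mul_le_mul hab ih' (pow_nonneg h0 _) (h0.trans hab)

theorem landau (F : ℂ → ℂ) (hF : Differentiable ℂ F) (c : ℂ) {r R1 R2 M : ℝ} (hr : 0 < r)
    (hr1 : r < R1) (hR : R1 < R2) (hFc : F c ≠ 0) (hM : ∀ z ∈ closedBall c R2, ‖F z‖ ≤ M) :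
    ∃ L : List ℂ, (∀ ρ ∈ L, F ρ = 0 ∧ ρ ∈ closedBall c R1) ∧
      (∀ ρ ∈ closedBall c R1, F ρ = 0 → ρ ∈ L) ∧
      (L.length : ℝ) * Real.log (R2 / R1) ≤ Real.log (M / ‖F c‖) ∧
      ∀ z ∈ closedBall c r, F z ≠ 0 →
        ‖deriv F z / F z - (L.map (fun ρ => (z - ρ)⁻¹)).sum‖ ≤
          8 * R1 / (R1 - r) ^ 2 *
            (Real.log (M / ‖F c‖) + L.length * |Real.log (R1 / (R2 - R1))| + 1) := by
  have hR1 : 0 < R1 := hr.trans hr1
  have hR2 : 0 < R2 := hR1.trans hR
  have hR21 : 0 < R2 - R1 := sub_pos.2 hR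
  have hFc0 : 0 < ‖F c‖ := norm_pos_iff.2 hFc
  have hMc : ‖F c‖ ≤ M := hM c (mem_closedBall_self hR2.le)
  have hM0 : 0 < M := hFc0.trans_le hMc
  obtain ⟨L, G, hL1, hL2, hG, hGK, hFG⟩ :=
    entire_factor F hF ⟨c, hFc⟩ (closedBall c R1) (isCompact_closedBall c R1)
  set n := L.length with hn
  have hGc : G c ≠ 0 := hGK c (mem_closedBall_self hR1.le)
  have hGc0 : 0 < ‖G c‖ := norm_pos_iff.2 hGc
  have hprodnorm : ∀ v : ℂ, ‖F v‖ = (L.map (fun ρ => ‖v - ρ‖)).prod * ‖G v‖ := by
    intro v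
    rw [hFG v, norm_mul, norm_list_prod, List.map_map]
    rfl
  have hFcle : ‖F c‖ ≤ R1 ^ n * ‖G c‖ := by
    rw [hprodnorm c]
    refine mul_le_mul_of_nonneg_right (list_prod_le_pow L _ R1 (fun _ _ => norm_nonneg _) ?_).1
      (norm_nonneg _)
    intro ρ hρ
    have := (hL1 ρ hρ).2
    rw [mem_closedBall, dist_eq_norm] at this
    rwa [norm_sub_rev]
  -- Step 1: counting
  have hcount : R2 ^ n * ‖G c‖ ≤ M := by
    set B : ℂ → ℂ := fun v =>
      (L.map (fun ρ => ((R2:ℂ) ^ 2 - (starRingEnd ℂ) (ρ - c) * (v - c)) / R2)).prod * G v with hB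
    have hBd : Differentiable ℂ B := by
      have : ∀ L' : List ℂ, Differentiable ℂ (fun v : ℂ =>
          (L'.map (fun ρ => ((R2:ℂ) ^ 2 - (starRingEnd ℂ) (ρ - c) * (v - c)) / R2)).prod) := by
        intro L'
        induction L' with
        | nil => simp
        | cons a L' ih =>
          simp only [List.map_cons, List.prod_cons]
          refine Differentiable.mul ?_ ih
          fun_prop
      exact (this L).mul hG
    have hBc : ‖B c‖ = R2 ^ n * ‖G c‖ := by
      simp only [hB, sub_self, mul_zero, sub_zero, norm_mul]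
      congr 1
      have hR2c : (R2:ℂ) ≠ 0 := by exact_mod_cast hR2.ne'
      have h2 : (R2:ℂ) ^ 2 / R2 = R2 := by field_simp
      rw [h2, List.map_const', List.prod_replicate, norm_pow, Complex.norm_real,
        Real.norm_of_nonneg hR2.le]
    have hBs : ∀ z ∈ frontier (ball c R2), ‖B z‖ ≤ M := by
      intro z hz
      rw [frontier_ball c hR2.ne', mem_sphere, dist_eq_norm] at hz
      have h1 : ‖B z‖ = ‖F z‖ := by
        rw [hprodnorm z]
        simp only [hB, norm_mul]
        rw [norm_list_prod, List.map_map]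
        congr 2
        refine List.map_congr_left fun ρ _ => ?_
        show ‖((R2:ℂ) ^ 2 - (starRingEnd ℂ) (ρ - c) * (z - c)) / R2‖ = ‖z - ρ‖
        have h3 : (R2:ℂ) ^ 2 = (starRingEnd ℂ) (z - c) * (z - c) := by
          rw [mul_comm, Complex.mul_conj, Complex.normSq_eq_norm_sq, hz]
          push_cast
          ring
        rw [h3, ← sub_mul, ← map_sub, norm_div, norm_mul, hz, Complex.norm_real,
          Real.norm_of_nonneg hR2.le, mul_div_cancel_right₀ _ hR2.ne', RCLike.norm_conj]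
        congr 1
        ring
      rw [h1]
      refine hM z ?_
      rw [mem_closedBall, dist_eq_norm]
      exact hz.le
    have := Complex.norm_le_of_forall_mem_frontier_norm_le isBounded_ball
      (hBd.diffContOnCl (s := ball c R2)) hBs (subset_closure (mem_ball_self hR2))
    rwa [hBc] at this
  -- Step 2: sup of G
  have hGsup : ∀ z ∈ closedBall c R2, ‖G z‖ ≤ M / (R2 - R1) ^ n := by
    intro z hz
    have hs : ∀ z ∈ frontier (ball c R2), ‖G z‖ ≤ M / (R2 - R1) ^ n := by
      intro z hz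
      rw [frontier_ball c hR2.ne', mem_sphere, dist_eq_norm] at hz
      rw [le_div_iff₀ (pow_pos hR21 n)]
      have h1 : (R2 - R1) ^ n ≤ (L.map (fun ρ => ‖z - ρ‖)).prod := by
        refine pow_le_list_prod L _ _ hR21.le ?_
        intro ρ hρ
        have h2 := (hL1 ρ hρ).2
        rw [mem_closedBall, dist_eq_norm] at h2
        have h3 : ‖z - c‖ ≤ ‖z - ρ‖ + ‖ρ - c‖ := by
          have := norm_add_le (z - ρ) (ρ - c)
          rwa [sub_add_sub_cancel] at this
        linarith
      calc ‖G z‖ * (R2 - R1) ^ n ≤ ‖G z‖ * (L.map (fun ρ => ‖z - ρ‖)).prod := by gcongr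
        _ = ‖F z‖ := by rw [hprodnorm z, mul_comm]
        _ ≤ M := hM z (by rw [mem_closedBall, dist_eq_norm]; exact hz.le)
    refine Complex.norm_le_of_forall_mem_frontier_norm_le isBounded_ball
      (hG.diffContOnCl (s := ball c R2)) hs ?_
    rwa [closure_ball c hR2.ne']
  -- Step 3: logarithm of G
  have hqd : DifferentiableOn ℂ (fun z => deriv G z / G z) (ball c R1) := by
    intro z hz
    have hGz := hGK z (ball_subset_closedBall hz)
    have h1 : DifferentiableAt ℂ (deriv G) z := (hG.analyticAt z).deriv.differentiableAt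
    exact (h1.div (hG z) hGz).differentiableWithinAt
  obtain ⟨h, hc0, hh⟩ := hqd.isExactOn_ball.with_val_at c 0
  have hexp : ∀ z ∈ ball c R1, G z = G c * Complex.exp (h z) := by
    have hconst : ∀ z ∈ ball c R1, G z * Complex.exp (-h z) = G c * Complex.exp (-h c) := by
      intro z hz
      have hd : ∀ w ∈ ball c R1, HasDerivAt (fun w => G w * Complex.exp (-h w)) 0 w := by
        intro w hw
        have h1 : HasDerivAt (fun w => G w * Complex.exp (-h w))
            (deriv G w * Complex.exp (-h w) + G w * (Complex.exp (-h w) * -(deriv G w / G w))) w :=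
          (hG w).hasDerivAt.mul (hh w hw).neg.cexp
        have hGw := hGK w (ball_subset_closedBall hw)
        have h2 : deriv G w * Complex.exp (-h w) + G w * (Complex.exp (-h w) * -(deriv G w / G w)) = 0 := by
          field_simp
          ring
        rw [h2] at h1
        exact h1
      exact isOpen_ball.is_const_of_deriv_eq_zero (isConnected_ball hR1).isPreconnected
        (fun w hw => (hd w hw).differentiableAt.differentiableWithinAt)
        (fun w hw => (hd w hw).deriv) hz (mem_ball_self hR1)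
    intro z hz
    have h1 := hconst z hz
    rw [hc0, neg_zero, Complex.exp_zero, mul_one] at h1
    rw [← h1, mul_assoc, ← Complex.exp_add]
    simp
  set Λ : ℝ := Real.log (M / ‖F c‖) + n * |Real.log (R1 / (R2 - R1))| + 1 with hΛ
  have hlog0 : 0 ≤ Real.log (M / ‖F c‖) := Real.log_nonneg ((one_le_div hFc0).2 hMc)
  have hΛ0 : 0 < Λ := by positivity
  have hre : ∀ z ∈ ball c R1, (h z).re ≤ Λ := by
    intro z hz
    have h1 : Real.exp ((h z).re) = ‖G z‖ / ‖G c‖ := by
      rw [hexp z hz, norm_mul, Complex.norm_exp, mul_div_cancel_left₀ _ hGc0.ne']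
    have h2 : ‖G z‖ ≤ M / (R2 - R1) ^ n :=
      hGsup z (closedBall_subset_closedBall hR.le (ball_subset_closedBall hz))
    have h3 : ‖G z‖ / ‖G c‖ ≤ M / ‖F c‖ * (R1 / (R2 - R1)) ^ n := by
      rw [div_le_iff₀ hGc0, div_pow]
      calc ‖G z‖ ≤ M / (R2 - R1) ^ n := h2
        _ = M / ‖F c‖ * (1 / (R2 - R1) ^ n) * ‖F c‖ := by field_simp
        _ ≤ M / ‖F c‖ * (1 / (R2 - R1) ^ n) * (R1 ^ n * ‖G c‖) := by gcongr
        _ = M / ‖F c‖ * (R1 ^ n / (R2 - R1) ^ n) * ‖G c‖ := by ring
    have h4 : Real.exp ((h z).re) ≤ Real.exp (Real.log (M / ‖F c‖) + n * Real.log (R1 / (R2 - R1))) := by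
      rw [h1, Real.exp_add, Real.exp_log (by positivity), Real.exp_nat_mul,
        Real.exp_log (by positivity)]
      exact h3
    have h5 := Real.exp_le_exp.1 h4
    have h6 : (n:ℝ) * Real.log (R1 / (R2 - R1)) ≤ n * |Real.log (R1 / (R2 - R1))| := by
      gcongr
      exact le_abs_self _
    linarith
  -- Step 4: Borel-Caratheodory
  set r' : ℝ := (r + R1) / 2 with hr'
  have hr'1 : r < r' := by rw [hr']; linarith
  have hr'2 : r' < R1 := by rw [hr']; linarith
  have hbc : ∀ z ∈ closedBall c r', ‖h z‖ ≤ 2 * Λ * r' / (R1 - r') := by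
    intro z hz
    rw [mem_closedBall, dist_eq_norm] at hz
    have h1 : DifferentiableOn ℂ (fun w => h (c + w)) (ball 0 R1) := by
      intro w hw
      have hcw : c + w ∈ ball c R1 := by
        rw [mem_ball, dist_eq_norm, add_sub_cancel_left]
        simpa using hw
      have := (hh (c + w) hcw).differentiableAt
      exact (this.comp w (by fun_prop : DifferentiableAt ℂ (fun w => c + w) w)).differentiableWithinAt
    have h2 : MapsTo (fun w => h (c + w)) (ball 0 R1) {z | z.re ≤ Λ} := by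
      intro w hw
      have hcw : c + w ∈ ball c R1 := by
        rw [mem_ball, dist_eq_norm, add_sub_cancel_left]
        simpa using hw
      exact hre _ hcw
    have h3 : z - c ∈ ball (0:ℂ) R1 := by
      rw [mem_ball, dist_zero_right]
      linarith
    have h4 := Complex.borelCaratheodory_zero hΛ0 h1 h2 hR1 h3 (by simp [hc0])
    simp only [add_sub_cancel] at h4
    refine h4.trans ?_
    have h5 : 0 < R1 - ‖z - c‖ := by linarith
    have h6 : 0 < R1 - r' := by linarith
    gcongr
  refine ⟨L, hL1, hL2, ?_, ?_⟩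
  · have h1 : (R2 / R1) ^ n ≤ M / ‖F c‖ := by
      rw [le_div_iff₀ hFc0, div_pow]
      calc R2 ^ n / R1 ^ n * ‖F c‖ ≤ R2 ^ n / R1 ^ n * (R1 ^ n * ‖G c‖) := by gcongr
        _ = R2 ^ n * ‖G c‖ := by field_simp
        _ ≤ M := hcount
    have h2 := Real.log_le_log (by positivity) h1
    rwa [Real.log_pow] at h2
  · intro z hz hFz
    rw [logDeriv_factor L F G hG hFG hFz, add_sub_cancel_left]
    rw [mem_closedBall, dist_eq_norm] at hz
    have hzb : z ∈ ball c R1 := by
      rw [mem_ball, dist_eq_norm]; linarith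
    rw [← (hh z hzb).deriv]
    have hδ : 0 < (R1 - r) / 2 := by linarith
    have h1 : DiffContOnCl ℂ h (ball z ((R1 - r) / 2)) := by
      refine DifferentiableOn.diffContOnCl ?_
      rw [closure_ball _ hδ.ne']
      intro w hw
      rw [mem_closedBall, dist_eq_norm] at hw
      have : w ∈ ball c R1 := by
        rw [mem_ball, dist_eq_norm]
        have := norm_add_le (w - z) (z - c)
        rw [sub_add_sub_cancel] at this
        linarith
      exact (hh w this).differentiableAt.differentiableWithinAt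
    have h2 : ∀ w ∈ sphere z ((R1 - r) / 2), ‖h w‖ ≤ 2 * Λ * r' / (R1 - r') := by
      intro w hw
      rw [mem_sphere, dist_eq_norm] at hw
      refine hbc w ?_
      rw [mem_closedBall, dist_eq_norm]
      have := norm_add_le (w - z) (z - c)
      rw [sub_add_sub_cancel] at this
      rw [hr']
      linarith
    refine (Complex.norm_deriv_le_of_forall_mem_sphere_norm_le hδ h1 h2).trans ?_
    have e : R1 - r' = (R1 - r) / 2 := by rw [hr']; ring
    rw [e]
    have hpos : 0 < R1 - r := by linarith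
    have e2 : 2 * Λ * r' / ((R1 - r) / 2) / ((R1 - r) / 2) = 8 * r' / (R1 - r) ^ 2 * Λ := by
      field_simp
      ring
    rw [e2]
    gcongr

/-- `log(|t|+3)` -/
def ell (t : ℝ) : ℝ := Real.log (|t| + 3)

lemma one_le_ell (t : ℝ) : 1 ≤ ell t := by
  unfold ell
  rw [Real.le_log_iff_exp_le (by positivity)]
  have := Real.exp_one_lt_d9
  have := abs_nonneg t
  linarith

theorem zeta_local : ∃ C : ℝ, 0 < C ∧ ∀ t : ℝ, ∃ L : List ℂ,
    (∀ ρ ∈ L, riemannZeta₁ ρ = 0 ∧ ‖ρ - (2 + t * Complex.I)‖ ≤ 11 / 8) ∧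
    (∀ ρ, ‖ρ - (2 + t * Complex.I)‖ ≤ 11 / 8 → riemannZeta₁ ρ = 0 → ρ ∈ L) ∧
    (L.length : ℝ) ≤ C * ell t ∧
    ∀ z, ‖z - (2 + t * Complex.I)‖ ≤ 5 / 4 → riemannZeta₁ z ≠ 0 →
      ‖deriv riemannZeta₁ z / riemannZeta₁ z - (L.map (fun ρ => (z - ρ)⁻¹)).sum‖ ≤ C * ell t := by
  have hk : 0 < Real.log ((3 / 2) / (11 / 8)) := Real.log_pos (by norm_num)
  set k := Real.log ((3 / 2) / (11 / 8)) with hkdef
  set k2 := |Real.log ((11 / 8) / (3 / 2 - 11 / 8))| with hk2def
  set C1 : ℝ := 7 / k with hC1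
  set C2 : ℝ := 8 * (11 / 8) / (11 / 8 - 5 / 4) ^ 2 * (7 + C1 * k2 + 1) with hC2
  have hC1p : 0 < C1 := by positivity
  have hk20 : 0 ≤ k2 := abs_nonneg _
  have hC2p : 0 < C2 := by positivity
  refine ⟨C1 + C2, by positivity, fun t => ?_⟩
  set c : ℂ := 2 + t * Complex.I with hc
  have hℓ := one_le_ell t
  have hFlow := z1_lower t
  have hFc : riemannZeta₁ c ≠ 0 := by
    intro h
    rw [← hc, h, norm_zero] at hFlow
    norm_num at hFlow
  have hcn : ‖c‖ ≤ 2 + |t| := by
    rw [hc]
    refine (norm_add_le _ _).trans ?_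
    rw [norm_mul, Complex.norm_I, mul_one, Complex.norm_real]
    simp
  have hM : ∀ z ∈ closedBall c (3 / 2), ‖riemannZeta₁ z‖ ≤ 3 * (|t| + 9 / 2) ^ 2 := by
    intro z hz
    rw [mem_closedBall, dist_eq_norm] at hz
    have hre : 1 / 2 ≤ z.re := by
      have h1 := (Complex.abs_re_le_norm (z - c)).trans hz
      have h2 : (z - c).re = z.re - 2 := by simp [hc]
      rw [h2] at h1
      have := (abs_le.1 h1).1
      linarith
    refine (z1_norm_le hre).trans ?_
    have h3 : ‖z‖ ≤ 3 / 2 + (2 + |t|) := by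
      have := norm_add_le (z - c) c
      rw [sub_add_cancel] at this
      linarith
    have h4 : ‖z‖ + 1 ≤ |t| + 9 / 2 := by linarith
    gcongr
  obtain ⟨L, h1, h2, h3, h4⟩ := landau riemannZeta₁ differentiable_riemannZeta₁ c
    (r := 5 / 4) (R1 := 11 / 8) (R2 := 3 / 2) (by norm_num) (by norm_num) (by norm_num) hFc hM
  have hlog : Real.log (3 * (|t| + 9 / 2) ^ 2 / ‖riemannZeta₁ c‖) ≤ 7 * ell t := by
    have ht := abs_nonneg t
    have h5 : 3 * (|t| + 9 / 2) ^ 2 / ‖riemannZeta₁ c‖ ≤ (|t| + 3) ^ 7 := by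
      rw [div_le_iff₀ (norm_pos_iff.2 hFc)]
      calc 3 * (|t| + 9 / 2) ^ 2 ≤ (|t| + 3) ^ 7 * (1 / 4) := by
            have e1 : (|t| + 9 / 2) ≤ (|t| + 3) ^ 2 := by nlinarith
            have e2 : (|t| + 9 / 2) ^ 2 ≤ ((|t| + 3) ^ 2) ^ 2 := by gcongr
            have e3 : (12:ℝ) ≤ (|t| + 3) ^ 3 := by
              have : (3:ℝ) ^ 3 ≤ (|t| + 3) ^ 3 := by gcongr; linarith
              linarith
            have e4 : (|t| + 3) ^ 7 = (|t| + 3) ^ 3 * ((|t| + 3) ^ 2) ^ 2 := by ring
            rw [e4]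
            nlinarith [pow_nonneg (show 0 ≤ |t| + 3 by positivity) 4]
        _ ≤ (|t| + 3) ^ 7 * ‖riemannZeta₁ c‖ := by gcongr
    have h6 := Real.log_le_log (by
      have := norm_pos_iff.2 hFc
      positivity) h5
    rw [Real.log_pow] at h6
    exact_mod_cast h6
  have hn : (L.length : ℝ) ≤ C1 * ell t := by
    have h5 := h3.trans hlog
    rw [hC1, div_mul_eq_mul_div, le_div_iff₀ hk]
    exact h5
  refine ⟨L, ?_, ?_, ?_, ?_⟩
  · intro ρ hρ
    have := h1 ρ hρ
    rw [mem_closedBall, dist_eq_norm] at this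
    exact this
  · intro ρ hρ hz
    exact h2 ρ (by rw [mem_closedBall, dist_eq_norm]; exact hρ) hz
  · nlinarith
  · intro z hz hz0
    refine (h4 z (by rw [mem_closedBall, dist_eq_norm]; exact hz) hz0).trans ?_
    have h7 : Real.log (3 * (|t| + 9 / 2) ^ 2 / ‖riemannZeta₁ c‖) + L.length * k2 + 1 ≤
        (7 + C1 * k2 + 1) * ell t := by
      have := mul_le_mul_of_nonneg_right hn hk20
      nlinarith
    calc 8 * (11 / 8) / (11 / 8 - 5 / 4) ^ 2 *
          (Real.log (3 * (|t| + 9 / 2) ^ 2 / ‖riemannZeta₁ c‖) + L.length * k2 + 1)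
        ≤ 8 * (11 / 8) / (11 / 8 - 5 / 4) ^ 2 * ((7 + C1 * k2 + 1) * ell t) := by gcongr
      _ = C2 * ell t := by rw [hC2]; ring
      _ ≤ (C1 + C2) * ell t := by nlinarith

end

end Pool.Agent.H437R2
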