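import Pool.Agent.H437R2.A3d
import Pool.Agent.H437R2.A2
set_option autoImplicit false

open MeasureTheory Filter Topology Set

namespace Pool.Agent.H437R2

noncomputable section

open scoped ComplexConjugate

/-- zeros of zeta with real part at least 11/16 -/
def IsZ (ρ : ℂ) : Prop := riemannZeta₁ ρ = 0 ∧ 11/16 ≤ ρ.re

def cell (ρ : ℂ) : ℤ := ⌊2 * ρ.im⌋

lemma ell_mono {s t : ℝ} (h : |s| ≤ |t|) : ell s ≤ ell t := by
  unfold ell
  exact Real.log_le_log (by positivity) (by linarith)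

lemma cell_card : ∃ C : ℝ, 0 < C ∧ ∀ (m : ℤ) (Z : Finset ℂ), (∀ ρ ∈ Z, IsZ ρ ∧ cell ρ = m) →
    (Z.card : ℝ) ≤ C * ell (|(m:ℝ)| + 1) := by
  classical
  obtain ⟨C, hC, h⟩ := zeta_local
  refine ⟨C, hC, fun m Z hZ => ?_⟩
  set t : ℝ := m / 2 + 1 / 4 with ht
  obtain ⟨L, h1, h2, h3, h4⟩ := h t
  have hsub : Z ⊆ L.toFinset := by
    intro ρ hρ
    rw [List.mem_toFinset]
    obtain ⟨⟨hz, hre⟩, hcell⟩ := hZ ρ hρ
    refine h2 ρ ?_ hz
    have hre1 := z1_zero_re hz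
    unfold cell at hcell
    rw [Int.floor_eq_iff] at hcell
    have him : |ρ.im - t| ≤ 1 / 4 := by
      rw [abs_le, ht]
      constructor <;> linarith [hcell.1, hcell.2]
    have e : ‖ρ - (2 + t * Complex.I)‖ ^ 2 = (ρ.re - 2) ^ 2 + (ρ.im - t) ^ 2 := by
      rw [← Complex.normSq_eq_norm_sq, Complex.normSq_apply]
      simp
      ring
    have h5 : (ρ.im - t) ^ 2 ≤ 1 / 16 := by
      rw [← sq_abs]
      calc |ρ.im - t| ^ 2 ≤ (1/4) ^ 2 := by gcongr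
        _ = _ := by norm_num
    have h6 : (ρ.re - 2) ^ 2 ≤ (21/16) ^ 2 := by nlinarith
    have h7 : ‖ρ - (2 + t * Complex.I)‖ ^ 2 ≤ (11/8) ^ 2 := by
      rw [e]; norm_num at h5 h6 ⊢; linarith
    exact le_of_sq_le_sq h7 (by norm_num)
  have hcard : (Z.card : ℝ) ≤ L.length := by
    exact_mod_cast (Finset.card_le_card hsub).trans (List.toFinset_card_le L)
  refine hcard.trans (h3.trans ?_)
  have h8 : ell t ≤ ell (|(m:ℝ)| + 1) := by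
    refine ell_mono ?_
    rw [ht, abs_of_nonneg (show 0 ≤ |(m:ℝ)| + 1 by positivity)]
    have h9 := abs_add_le ((m:ℝ) / 2) (1 / 4)
    have h10 : |(m:ℝ) / 2| = |(m:ℝ)| / 2 := by rw [abs_div]; norm_num
    have h11 : |(1:ℝ) / 4| = 1 / 4 := by norm_num
    have := abs_nonneg (m:ℝ)
    linarith
  gcongr
where
  le_of_sq_le_sq {a b : ℝ} (h : a ^ 2 ≤ b ^ 2) (hb : 0 ≤ b) : a ≤ b := by
    by_contra hc
    push Not at hc
    nlinarith

lemma int_summable : Summable (fun m : ℤ => 1 / (1 + (m:ℝ) ^ 2)) := by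
  have h1 : Summable (fun m : ℤ => 1 / (m:ℝ) ^ 2) := Real.summable_one_div_int_pow.2 (by norm_num)
  have h2 : Summable (fun m : ℤ => if m = 0 then (1:ℝ) else 0) := (hasSum_ite_eq 0 1).summable
  refine Summable.of_nonneg_of_le (fun m => by positivity) (fun m => ?_) (h1.add h2)
  by_cases hm : m = 0
  · subst hm
    simp
  · rw [if_neg hm, add_zero]
    have : (0:ℝ) < (m:ℝ) ^ 2 := by
      have : (m:ℝ) ≠ 0 := by exact_mod_cast hm
      positivity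
    gcongr
    linarith

/-- `∑ 1/(1+m^2)` -/
def KK0 : ℝ := ∑' m : ℤ, 1 / (1 + (m:ℝ) ^ 2)

lemma KK0_pos : 0 < KK0 := int_summable.tsum_pos (fun m => by positivity) 0 (by norm_num)

lemma shift_sum_le (k : ℤ) (s : Finset ℤ) : ∑ m ∈ s, 1 / (1 + ((k:ℝ) - m) ^ 2) ≤ KK0 := by
  have h1 : Summable (fun m : ℤ => 1 / (1 + ((k:ℝ) - m) ^ 2)) := by
    have := (Equiv.subLeft k).summable_iff.2 int_summable
    refine this.congr fun m => ?_
    simp [Equiv.subLeft]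
  have h2 : ∑' m : ℤ, 1 / (1 + ((k:ℝ) - m) ^ 2) = KK0 := by
    have := (Equiv.subLeft k).tsum_eq (fun m : ℤ => 1 / (1 + (m:ℝ) ^ 2))
    rw [KK0, ← this]
    refine tsum_congr fun m => ?_
    simp [Equiv.subLeft]
  rw [← h2]
  exact h1.sum_le_tsum s (fun m _ => by positivity)

lemma row_bound : ∃ C : ℝ, 0 < C ∧ ∀ (T : ℝ) (Z : Finset ℂ), 1 ≤ T → (∀ ρ ∈ Z, IsZ ρ ∧ |ρ.im| ≤ T) →
    ∀ ρ ∈ Z, ∑ ρ' ∈ Z, 4 / ‖ρ + conj ρ' - 5/4‖ ^ 2 ≤ C * Real.log (T + 5) := by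
  classical
  obtain ⟨C0, hC0, hcell⟩ := cell_card
  have hK := KK0_pos
  refine ⟨768 * (2 * C0) * KK0, by positivity, fun T Z hT hZ ρ hρ => ?_⟩
  have hterm : ∀ ρ' ∈ Z, 4 / ‖ρ + conj ρ' - 5/4‖ ^ 2 ≤ 768 / (1 + ((cell ρ : ℝ) - (cell ρ' : ℝ)) ^ 2) := by
    intro ρ' hρ'
    have e : ‖ρ + conj ρ' - 5/4‖ ^ 2 = (ρ.re + ρ'.re - 5/4) ^ 2 + (ρ.im - ρ'.im) ^ 2 := by
      rw [← Complex.normSq_eq_norm_sq, Complex.normSq_apply]
      simp
      ring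
    have hre : (1:ℝ)/8 ≤ ρ.re + ρ'.re - 5/4 := by
      linarith [(hZ ρ hρ).1.2, (hZ ρ' hρ').1.2]
    have h1 : 1 / 64 + (ρ.im - ρ'.im) ^ 2 ≤ ‖ρ + conj ρ' - 5/4‖ ^ 2 := by
      rw [e]; nlinarith
    have a1 := Int.floor_le (2 * ρ.im)
    have a2 := Int.lt_floor_add_one (2 * ρ.im)
    have a3 := Int.floor_le (2 * ρ'.im)
    have a4 := Int.lt_floor_add_one (2 * ρ'.im)
    have h2 : |(cell ρ : ℝ) - (cell ρ' : ℝ)| ≤ 2 * |ρ.im - ρ'.im| + 1 := by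
      unfold cell
      have b1 := le_abs_self (ρ.im - ρ'.im)
      have b2 := neg_abs_le (ρ.im - ρ'.im)
      rw [abs_le]
      constructor <;> linarith
    have h3 : ((cell ρ : ℝ) - (cell ρ' : ℝ)) ^ 2 ≤ 8 * (ρ.im - ρ'.im) ^ 2 + 2 := by
      rw [← sq_abs, ← sq_abs (ρ.im - ρ'.im)]
      have b3 := abs_nonneg ((cell ρ : ℝ) - (cell ρ' : ℝ))
      have b4 : |(cell ρ : ℝ) - (cell ρ' : ℝ)| ^ 2 ≤ (2 * |ρ.im - ρ'.im| + 1) ^ 2 := by gcongr
      nlinarith [sq_nonneg (2 * |ρ.im - ρ'.im| - 1)]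
    have h4 : (0:ℝ) < 1 / 64 + (ρ.im - ρ'.im) ^ 2 := by positivity
    rw [div_le_div_iff₀ (h4.trans_le h1) (by positivity)]
    nlinarith
  refine (Finset.sum_le_sum hterm).trans ?_
  rw [Finset.sum_comp (fun m : ℤ => 768 / (1 + ((cell ρ : ℝ) - (m : ℝ)) ^ 2)) cell]
  have hm : ∀ m ∈ Finset.image cell Z, (Z.filter (fun a => cell a = m)).card •
      (768 / (1 + ((cell ρ : ℝ) - (m : ℝ)) ^ 2)) ≤
      768 * (2 * C0) * Real.log (T + 5) * (1 / (1 + ((cell ρ : ℝ) - (m : ℝ)) ^ 2)) := by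
    intro m hm
    obtain ⟨ρ', hρ', hcm⟩ := Finset.mem_image.1 hm
    have h1 := hcell m (Z.filter (fun a => cell a = m)) (fun a ha => by
      rw [Finset.mem_filter] at ha
      exact ⟨(hZ a ha.1).1, ha.2⟩)
    have h2 : ell (|(m:ℝ)| + 1) ≤ 2 * Real.log (T + 5) := by
      have hT' := (hZ ρ' hρ').2
      unfold cell at hcm
      rw [Int.floor_eq_iff] at hcm
      have hmT : |(m:ℝ)| ≤ 2 * T + 1 := by
        have b1 := abs_le.1 hT'
        rw [abs_le]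
        constructor <;> linarith [hcm.1, hcm.2, b1.1, b1.2]
      unfold ell
      rw [abs_of_nonneg (by positivity)]
      have h5 : |(m:ℝ)| + 1 + 3 ≤ (T + 5) ^ 2 := by nlinarith
      calc Real.log (|(m:ℝ)| + 1 + 3) ≤ Real.log ((T + 5) ^ 2) := Real.log_le_log (by positivity) h5
        _ = 2 * Real.log (T + 5) := by rw [Real.log_pow]; norm_num
    rw [nsmul_eq_mul]
    have hpos : (0:ℝ) < 1 + ((cell ρ : ℝ) - (m : ℝ)) ^ 2 := by positivity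
    calc ((Z.filter (fun a => cell a = m)).card : ℝ) * (768 / (1 + ((cell ρ : ℝ) - (m : ℝ)) ^ 2))
        ≤ (C0 * (2 * Real.log (T + 5))) * (768 / (1 + ((cell ρ : ℝ) - (m : ℝ)) ^ 2)) := by
          gcongr
          exact h1.trans (by gcongr)
      _ = _ := by ring
  refine (Finset.sum_le_sum hm).trans ?_
  rw [← Finset.mul_sum]
  have hlog : 0 ≤ Real.log (T + 5) := Real.log_nonneg (by linarith)
  have := mul_le_mul_of_nonneg_left (shift_sum_le (cell ρ) (Finset.image cell Z))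
    (show 0 ≤ 768 * (2 * C0) * Real.log (T + 5) by positivity)
  calc _ ≤ _ := this
    _ = _ := by ring

lemma block_count : ∃ C : ℝ, 0 < C ∧ ∀ (X : ℕ) (Z : Finset ℂ), 2 ≤ X →
    (∀ ρ ∈ Z, IsZ ρ ∧ 1 ≤ |ρ.im| ∧ |ρ.im| ≤ (X:ℝ) ^ 16) →
    (Z.card : ℝ) ≤ C * (X:ℝ) ^ (16 - 1/8 : ℝ) * Real.log ((X:ℝ) ^ 16 + 5) := by
  obtain ⟨C0, hC0, hrow⟩ := row_bound
  have hDD := DD_nonneg
  refine ⟨256 * C0 * (2 * DD + 128), by positivity, fun X Z hX hZ => ?_⟩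
  have hXr : (2:ℝ) ≤ X := by exact_mod_cast hX
  have hX0 : (0:ℝ) < X := by linarith
  set T : ℝ := (X:ℝ) ^ 16 with hT
  have hT1 : 1 ≤ T := by rw [hT]; exact one_le_pow₀ (by linarith)
  have hT0 : 0 < T := by linarith
  set h : ℝ := 1 / (4 * T) with hh
  have hhT : h * (4 * T) = 1 := by rw [hh]; field_simp
  have hh0 : 0 < h := by rw [hh]; positivity
  have hh1 : h ≤ 1 / 4 := by nlinarith
  obtain ⟨hi, hL2⟩ := cR_L2 hX hT hhT
  set z : ℂ → ℂ := fun ρ => -((Complex.exp ((ρ - 1) * h) - 1) / ρ) with hz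
  have hZre : ∀ ρ ∈ Z, 0 < ρ.re := fun ρ hρ => by linarith [(hZ ρ hρ).1.2]
  have hlog : 0 < Real.log (T + 5) := Real.log_pos (by linarith)
  have hb := bessel Z (fun ρ hρ => (hZ ρ hρ).1.2) (fun ρ hρ => z1_zero_re (hZ ρ hρ).1.1) (cR X h) hi z
    (fun ρ hρ => (cR_integral (hZ ρ hρ).1.1 (hZre ρ hρ) hh0.le hh1 hX).2)
    (fun ρ hρ => (cR_integral (hZ ρ hρ).1.1 (hZre ρ hρ) hh0.le hh1 hX).1)
    (C0 * Real.log (T + 5)) (by positivity)
    (hrow T Z hT1 (fun ρ hρ => ⟨(hZ ρ hρ).1, (hZ ρ hρ).2.2⟩))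
  have hlow : ∀ ρ ∈ Z, h ^ 2 / 16 ≤ ‖z ρ‖ ^ 2 := by
    intro ρ hρ
    obtain ⟨⟨hz0, hre⟩, him1, himT⟩ := hZ ρ hρ
    have hre1 := z1_zero_re hz0
    have h1 : 1 ≤ ‖ρ - 1‖ := by
      have := Complex.abs_im_le_norm (ρ - 1)
      rw [Complex.sub_im, Complex.one_im, sub_zero] at this
      linarith
    have h2 : ‖ρ - 1‖ ≤ 2 * T := by
      have := Complex.norm_le_abs_re_add_abs_im (ρ - 1)
      rw [Complex.sub_im, Complex.one_im, sub_zero, Complex.sub_re, Complex.one_re] at this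
      have h3 : |ρ.re - 1| ≤ 1 := by rw [abs_le]; constructor <;> linarith
      linarith
    have h3 : ‖ρ‖ ≤ 2 * ‖ρ - 1‖ := by
      have := norm_add_le (ρ - 1) 1
      rw [sub_add_cancel, norm_one] at this
      linarith
    have hρ0 : 0 < ‖ρ‖ := by
      rw [norm_pos_iff]
      rintro rfl
      simp at him1
      linarith
    set w : ℂ := (ρ - 1) * h with hw
    have hwn : ‖w‖ = ‖ρ - 1‖ * h := by
      rw [hw, norm_mul, Complex.norm_real, Real.norm_of_nonneg hh0.le]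
    have hw1 : ‖w‖ ≤ 1 / 2 := by
      rw [hwn]; nlinarith
    have h4 := Complex.norm_exp_sub_one_sub_id_le (show ‖w‖ ≤ 1 by linarith)
    have h5 : ‖w‖ / 2 ≤ ‖Complex.exp w - 1‖ := by
      have := norm_sub_norm_le w (-(Complex.exp w - 1 - w))
      have e : w - -(Complex.exp w - 1 - w) = Complex.exp w - 1 := by ring
      rw [e, norm_neg] at this
      nlinarith [norm_nonneg w]
    have h6 : h / 4 ≤ ‖z ρ‖ := by
      rw [hz]
      simp only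
      rw [norm_neg, norm_div, le_div_iff₀ hρ0]
      have : h / 4 * ‖ρ‖ ≤ ‖w‖ / 2 := by rw [hwn]; nlinarith
      linarith
    calc h ^ 2 / 16 = (h / 4) ^ 2 := by ring
      _ ≤ ‖z ρ‖ ^ 2 := by gcongr
  have hcard : (Z.card : ℝ) * (h ^ 2 / 16) ≤ ∑ ρ ∈ Z, ‖z ρ‖ ^ 2 := by
    rw [← nsmul_eq_mul]
    exact Finset.card_nsmul_le_sum Z _ _ hlow
  have h7 : (Z.card : ℝ) * (h ^ 2 / 16) ≤
      C0 * Real.log (T + 5) * ((2 * DD + 128) * (X:ℝ) ^ (-(16 + 1/8) : ℝ)) := by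
    refine hcard.trans (hb.trans ?_)
    gcongr
  have h8 : (Z.card : ℝ) ≤ 256 * T ^ 2 * (C0 * Real.log (T + 5) * ((2 * DD + 128) * (X:ℝ) ^ (-(16 + 1/8) : ℝ))) := by
    have e : (Z.card : ℝ) = 256 * T ^ 2 * ((Z.card : ℝ) * (h ^ 2 / 16)) := by
      rw [hh]; field_simp; ring
    rw [e]
    gcongr
  refine h8.trans (le_of_eq ?_)
  have e1 : T ^ 2 * (X:ℝ) ^ (-(16 + 1/8) : ℝ) = (X:ℝ) ^ (16 - 1/8 : ℝ) := by
    rw [hT, ← pow_mul, ← Real.rpow_natCast, ← Real.rpow_add hX0]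
    norm_num
  calc 256 * T ^ 2 * (C0 * Real.log (T + 5) * ((2 * DD + 128) * (X:ℝ) ^ (-(16 + 1/8) : ℝ)))
      = 256 * C0 * (2 * DD + 128) * (T ^ 2 * (X:ℝ) ^ (-(16 + 1/8) : ℝ)) * Real.log (T + 5) := by ring
    _ = _ := by rw [e1]

end

end Pool.Agent.H437R2
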