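import Pool.Agent.H437R2.A1
set_option autoImplicit false

open MeasureTheory Filter Topology Set

namespace Pool.Agent.H437R2

noncomputable section

/-- indicator of `[1,∞)` -/
def ind1 (t : ℝ) : ℂ := (Ici (1:ℝ)).indicator (fun _ => (1:ℂ)) t

/-- floor -/
def flr (t : ℝ) : ℂ := ((⌊t⌋₊ : ℕ) : ℂ)

def Gc (h : ℝ) (t : ℝ) : ℂ := (Real.exp (-h) : ℂ) * flr (Real.exp h * t) - flr t

def Ec (h : ℝ) (t : ℝ) : ℂ := (Real.exp (-h) : ℂ) * ind1 (Real.exp h * t) - ind1 t

lemma flr_eq {t : ℝ} (ht : 0 < t) : flr t = (t : ℂ) * ind1 t - fr t := by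
  unfold flr ind1 fr
  rcases lt_trichotomy t 1 with h | h | h
  · rw [Nat.floor_eq_zero.2 h, indicator_of_notMem (by simp only [mem_Ici, not_le]; exact h),
      indicator_of_notMem (by simp only [mem_Ioi, not_lt]; exact h.le)]
    simp
  · subst h
    simp
  · rw [indicator_of_mem (show t ∈ Ici (1:ℝ) from h.le), indicator_of_mem (show t ∈ Ioi (1:ℝ) from h)]
    have : ((⌊t⌋₊ : ℕ) : ℝ) = t - Int.fract t := by
      rw [natCast_floor_eq_intCast_floor ht.le]
      rw [Int.fract]
      ring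
    rw [← Complex.ofReal_natCast, this]
    push_cast
    ring

lemma fr_mellinConvergent {s : ℂ} (hs : 0 < s.re) : MellinConvergent fr (-s) := by
  refine mellinConvergent_of_isBigO_rpow (a := 0) (b := -s.re - 1) ?_ ?_ ?_ ?_ ?_
  · refine LocallyIntegrable.locallyIntegrableOn ?_ _
    refine LocallyIntegrable.mono (locallyIntegrable_const (1:ℝ)) fr_measurable.aestronglyMeasurable ?_
    refine Eventually.of_forall fun t => ?_
    rw [norm_one]
    exact fr_norm_le t
  · refine Asymptotics.IsBigO.of_bound 1 (Eventually.of_forall fun t => ?_)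
    simp only [neg_zero, Real.rpow_zero, norm_one, mul_one]
    exact fr_norm_le t
  · simpa using hs
  · refine Asymptotics.IsBigO.of_bound 1 ?_
    have h2 : ∀ᶠ t : ℝ in 𝓝[>] 0, t < 1 := nhdsWithin_le_nhds (Iio_mem_nhds one_pos)
    filter_upwards [h2] with t ht
    have : fr t = 0 := by
      unfold fr
      rw [indicator_of_notMem]
      simp only [mem_Ioi, not_lt]
      exact ht.le
    rw [this, norm_zero]
    positivity
  · simp

lemma hasMellin_ind1 {s : ℂ} (hs : 0 < s.re) : HasMellin ind1 (-s) (1 / s) := by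
  have e : ∀ t : ℝ, (t : ℂ) ^ (-s - 1) • ind1 t =
      (Ici (1:ℝ)).indicator (fun t : ℝ => (t : ℂ) ^ (-s - 1)) t := by
    intro t
    unfold ind1
    by_cases ht : t ∈ Ici (1:ℝ)
    · rw [indicator_of_mem ht, indicator_of_mem ht, smul_eq_mul, mul_one]
    · rw [indicator_of_notMem ht, indicator_of_notMem ht, smul_zero]
  have hre : (-s - 1).re < -1 := by simp; linarith
  have hsub : Ioi (0:ℝ) ∩ Ici 1 = Ici 1 := by
    apply inter_eq_self_of_subset_right
    intro t ht
    have : (1:ℝ) ≤ t := ht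
    show (0:ℝ) < t
    linarith
  constructor
  · unfold MellinConvergent
    simp_rw [e]
    rw [integrableOn_indicator_iff measurableSet_Ici, inter_comm, hsub, integrableOn_Ici_iff_integrableOn_Ioi]
    exact integrableOn_Ioi_cpow_of_lt hre one_pos
  · unfold mellin
    simp_rw [e]
    rw [setIntegral_indicator measurableSet_Ici, hsub, integral_Ici_eq_integral_Ioi,
      integral_Ioi_cpow_of_lt hre one_pos]
    have hs0 : s ≠ 0 := by
      rintro rfl
      simp at hs
    rw [Complex.ofReal_one, Complex.one_cpow]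
    have : -s - 1 + 1 = -s := by ring
    rw [this, neg_div_neg_eq]

lemma hasMellin_scale {f : ℝ → ℂ} {s m : ℂ} {a : ℝ} (ha : 0 < a) (h : HasMellin f (-s) m) :
    HasMellin (fun t => f (a * t)) (-s) ((a : ℂ) ^ s * m) := by
  refine ⟨(MellinConvergent.comp_mul_left ha).2 h.1, ?_⟩
  rw [mellin_comp_mul_left _ _ ha, h.2, neg_neg, smul_eq_mul]

lemma hasMellin_smul {f : ℝ → ℂ} {s m : ℂ} (c : ℂ) (h : HasMellin f s m) :
    HasMellin (fun t => c * f t) s (c * m) := by
  refine ⟨?_, ?_⟩
  · have := h.1.const_smul c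
    simpa only [smul_eq_mul] using this
  · have := mellin_const_smul f s c
    simp only [smul_eq_mul] at this
    rw [this, h.2]

lemma hasMellin_sub' {f g : ℝ → ℂ} {s m n : ℂ} (hf : HasMellin f s m) (hg : HasMellin g s n) :
    HasMellin (fun t => f t - g t) s (m - n) := by
  have := hasMellin_sub hf.1 hg.1
  rwa [hf.2, hg.2] at this

lemma hasMellin_add' {f g : ℝ → ℂ} {s m n : ℂ} (hf : HasMellin f s m) (hg : HasMellin g s n) :
    HasMellin (fun t => f t + g t) s (m + n) := by
  have := hasMellin_add hf.1 hg.1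
  rwa [hf.2, hg.2] at this

lemma hasMellin_congr {f g : ℝ → ℂ} {s m : ℂ} (hf : HasMellin f s m) (hg : ∀ t, 0 < t → g t = f t) :
    HasMellin g s m := by
  constructor
  · refine (integrableOn_congr_fun (fun t ht => ?_) measurableSet_Ioi).1 hf.1
    simp only [hg t ht]
  · rw [← hf.2]
    refine setIntegral_congr_fun measurableSet_Ioi fun t ht => ?_
    simp only [hg t ht]

lemma exp_cpow (h : ℝ) (s : ℂ) : ((Real.exp h : ℝ) : ℂ) ^ s = Complex.exp (h * s) := by
  rw [Complex.cpow_def_of_ne_zero (by exact_mod_cast (Real.exp_pos h).ne'), ← Complex.ofReal_log (Real.exp_pos h).le,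
    Real.log_exp]

lemma hasMellin_Ec {s : ℂ} (hs : 0 < s.re) (h : ℝ) :
    HasMellin (Ec h) (-s) ((Complex.exp ((s - 1) * h) - 1) / s) := by
  have h1 := hasMellin_ind1 hs
  have h2 := hasMellin_scale (Real.exp_pos h) h1
  have h3 := hasMellin_sub' (hasMellin_smul (Real.exp (-h) : ℂ) h2) h1
  have e : (Real.exp (-h) : ℂ) * (((Real.exp h : ℝ) : ℂ) ^ s * (1 / s)) - 1 / s =
      (Complex.exp ((s - 1) * h) - 1) / s := by
    rw [exp_cpow, sub_mul, one_mul, Complex.exp_sub, Real.exp_neg]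
    push_cast
    have := Complex.exp_ne_zero (h : ℂ)
    rw [mul_comm s h]
    field_simp
  rw [e] at h3
  exact h3

lemma hasMellin_box {s : ℂ} (hs1 : s ≠ 1) {a : ℝ} (ha : 0 < a) (ha1 : a ≤ 1) :
    HasMellin (fun t : ℝ => (Ico a 1).indicator (fun t : ℝ => (t : ℂ)) t) (-s)
      ((1 - (a : ℂ) ^ (1 - s)) / (1 - s)) := by
  have e : ∀ t ∈ Ioi (0:ℝ), (t : ℂ) ^ (-s - 1) • (Ico a 1).indicator (fun t : ℝ => (t : ℂ)) t =
      (Ico a 1).indicator (fun t : ℝ => (t : ℂ) ^ (-s)) t := by
    intro t ht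
    by_cases hta : t ∈ Ico a 1
    · rw [indicator_of_mem hta, indicator_of_mem hta, smul_eq_mul]
      have htc : (t : ℂ) ≠ 0 := by
        have : (0:ℝ) < t := ht
        exact_mod_cast this.ne'
      rw [Complex.cpow_sub _ _ htc, Complex.cpow_one, div_mul_cancel₀ _ htc]
    · rw [indicator_of_notMem hta, indicator_of_notMem hta, smul_zero]
  have hsub : Ioi (0:ℝ) ∩ Ico a 1 = Ico a 1 := by
    apply inter_eq_self_of_subset_right
    intro t ht
    show (0:ℝ) < t
    linarith [ht.1]
  have hcont : ContinuousOn (fun t : ℝ => (t : ℂ) ^ (-s)) (Icc a 1) := by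
    intro t ht
    refine ContinuousAt.continuousWithinAt ?_
    exact Complex.continuousAt_ofReal_cpow_const _ _ (Or.inr (by linarith [ht.1]))
  constructor
  · unfold MellinConvergent
    rw [integrableOn_congr_fun e measurableSet_Ioi, integrableOn_indicator_iff measurableSet_Ico, inter_comm, hsub]
    exact (hcont.integrableOn_Icc).mono_set Ico_subset_Icc_self
  · unfold mellin
    rw [setIntegral_congr_fun measurableSet_Ioi e, setIntegral_indicator measurableSet_Ico, hsub,
      integral_Ico_eq_integral_Ioc, ← intervalIntegral.integral_of_le ha1, integral_cpow]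
    · rw [Complex.ofReal_one, Complex.one_cpow]
      have : -s + 1 = 1 - s := by ring
      rw [this]
    · right
      refine ⟨fun h => hs1 (neg_injective h), ?_⟩
      rw [uIcc_of_le ha1]
      intro h0
      linarith [h0.1]

lemma Gc_eq {h t : ℝ} (hh : 0 ≤ h) (ht : 0 < t) : Gc h t =
    (fr t - (Real.exp (-h) : ℂ) * fr (Real.exp h * t)) +
      (Ico (Real.exp (-h)) 1).indicator (fun t : ℝ => (t : ℂ)) t := by
  have he : 0 < Real.exp h := Real.exp_pos h
  unfold Gc
  rw [flr_eq ht, flr_eq (by positivity)]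
  have e0 : (Real.exp (-h) : ℂ) * ((Real.exp h * t : ℝ) : ℂ) = t := by
    rw [Real.exp_neg]
    push_cast
    have := Complex.exp_ne_zero (h : ℂ)
    field_simp
  have e1 : (t : ℂ) * (ind1 (Real.exp h * t) - ind1 t) =
      (Ico (Real.exp (-h)) 1).indicator (fun t : ℝ => (t : ℂ)) t := by
    have key : Real.exp h * t < 1 ↔ t < Real.exp (-h) := by
      rw [Real.exp_neg, ← one_div, lt_div_iff₀ he, mul_comm]
    have hle : Real.exp (-h) ≤ 1 := by
      rw [Real.exp_le_one_iff]; linarith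
    unfold ind1
    rcases lt_or_ge t (Real.exp (-h)) with h1 | h1
    · rw [indicator_of_notMem (show Real.exp h * t ∉ Ici (1:ℝ) by
          simp only [mem_Ici, not_le]; exact key.2 h1),
        indicator_of_notMem (show t ∉ Ici (1:ℝ) by simp only [mem_Ici, not_le]; linarith),
        indicator_of_notMem (fun h2 => absurd h2.1 (not_le.2 h1))]
      simp
    · have h2 : Real.exp h * t ∈ Ici (1:ℝ) := by
        simp only [mem_Ici]
        by_contra hc
        push Not at hc
        exact absurd (key.1 hc) (not_lt.2 h1)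
      rw [indicator_of_mem h2]
      rcases lt_or_ge t 1 with h3 | h3
      · rw [indicator_of_notMem (show t ∉ Ici (1:ℝ) by simp only [mem_Ici, not_le]; exact h3),
          indicator_of_mem (show t ∈ Ico (Real.exp (-h)) 1 from ⟨h1, h3⟩)]
        simp
      · rw [indicator_of_mem (show t ∈ Ici (1:ℝ) from h3),
          indicator_of_notMem (fun h4 => absurd h4.2 (not_lt.2 h3))]
        simp
  rw [← e1, mul_sub, ← mul_assoc, e0]
  ring

/-- at a zero the Mellin transform of `Gc` vanishes -/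
lemma hasMellin_Gc_zero {ρ : ℂ} (hρ : riemannZeta₁ ρ = 0) (h0 : 0 < ρ.re) {h : ℝ} (hh : 0 ≤ h) :
    HasMellin (Gc h) (-ρ) 0 := by
  have hρ1 : ρ ≠ 1 := by
    rintro rfl
    simp at hρ
  have hρ0 : ρ ≠ 0 := by
    rintro rfl
    simp at h0
  have hm1 : HasMellin fr (-ρ) (Hf ρ) := ⟨fr_mellinConvergent h0, rfl⟩
  have hm2 := hasMellin_scale (Real.exp_pos h) hm1
  have hm3 := hasMellin_sub' hm1 (hasMellin_smul (Real.exp (-h) : ℂ) hm2)
  have hm4 := hasMellin_add' hm3 (hasMellin_box hρ1 (Real.exp_pos (-h)) (by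
    rw [Real.exp_le_one_iff]; linarith))
  have hm5 := hasMellin_congr hm4 (fun t ht => Gc_eq hh ht)
  have hH : Hf ρ = 1 / (ρ - 1) := by
    rw [z1_eq h0] at hρ
    unfold Zt at hρ
    have h1 : ρ * (1 - (ρ - 1) * Hf ρ) = 0 := by rw [← hρ]; ring
    rcases mul_eq_zero.1 h1 with h2 | h2
    · exact absurd h2 hρ0
    · have h3 : ρ - 1 ≠ 0 := sub_ne_zero.2 hρ1
      rw [eq_div_iff h3]
      linear_combination -h2
  have e : Hf ρ - (Real.exp (-h) : ℂ) * (((Real.exp h : ℝ) : ℂ) ^ ρ * Hf ρ) +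
      (1 - ((Real.exp (-h) : ℝ) : ℂ) ^ (1 - ρ)) / (1 - ρ) = 0 := by
    rw [exp_cpow, exp_cpow, hH]
    have h3 : ρ - 1 ≠ 0 := sub_ne_zero.2 hρ1
    have h4 : 1 - ρ ≠ 0 := sub_ne_zero.2 hρ1.symm
    have e1 : (Real.exp (-h) : ℂ) = Complex.exp (-(h:ℂ)) := by push_cast; rfl
    have e2 : Complex.exp (-(h:ℂ)) * Complex.exp (h * ρ) = Complex.exp (((-h : ℝ) : ℂ) * (1 - ρ)) := by
      rw [← Complex.exp_add]
      congr 1
      push_cast
      ring
    rw [e1, ← e2]
    field_simp
    ring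
  rw [e] at hm5
  exact hm5

end

end Pool.Agent.H437R2
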