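import Pool.Agent.H437R2.A3a
set_option autoImplicit false

open MeasureTheory Filter Topology Set

namespace Pool.Agent.H437R2

noncomputable section

/-- truncated Moebius convolution -/
def aa (X n : ℕ) : ℝ := ∑ d ∈ (Finset.Ioc 0 X).filter (fun d => d ∣ n), ((ArithmeticFunction.moebius d : ℤ) : ℝ)

def A1 (X N : ℕ) : ℝ := ∑ n ∈ Finset.Ioc 1 N, aa X n

lemma AA_eq (X N : ℕ) : ∑ n ∈ Finset.Ioc 0 N, aa X n =
    ∑ d ∈ Finset.Ioc 0 X, ((ArithmeticFunction.moebius d : ℤ) : ℝ) * ((N / d : ℕ) : ℝ) := by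
  unfold aa
  simp_rw [Finset.sum_filter]
  rw [Finset.sum_comm]
  refine Finset.sum_congr rfl fun d _ => ?_
  rw [← Finset.sum_filter, Finset.sum_const, Nat.Ioc_filter_dvd_card_eq_div, nsmul_eq_mul, mul_comm]

lemma aa_le (X n : ℕ) (hn : n ≠ 0) : |aa X n| ≤ (n.divisors.card : ℝ) := by
  unfold aa
  refine (Finset.abs_sum_le_sum_abs _ _).trans ?_
  have h1 : ∀ d ∈ (Finset.Ioc 0 X).filter (fun d => d ∣ n),
      |((ArithmeticFunction.moebius d : ℤ) : ℝ)| ≤ 1 := by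
    intro d _
    have := ArithmeticFunction.abs_moebius_le_one (n := d)
    exact_mod_cast this
  refine (Finset.sum_le_sum h1).trans ?_
  rw [Finset.sum_const, nsmul_eq_mul, mul_one]
  have h2 : (Finset.Ioc 0 X).filter (fun d => d ∣ n) ⊆ n.divisors := by
    intro d hd
    rw [Finset.mem_filter] at hd
    exact Nat.mem_divisors.2 ⟨hd.2, hn⟩
  exact_mod_cast Finset.card_le_card h2

lemma aa_full {X n : ℕ} (hn : n ≠ 0) (hnX : n ≤ X) : aa X n = if n = 1 then 1 else 0 := by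
  unfold aa
  have h2 : (Finset.Ioc 0 X).filter (fun d => d ∣ n) = n.divisors := by
    ext d
    rw [Finset.mem_filter, Nat.mem_divisors, Finset.mem_Ioc]
    constructor
    · rintro ⟨_, h⟩
      exact ⟨h, hn⟩
    · rintro ⟨h, _⟩
      exact ⟨⟨Nat.pos_of_dvd_of_pos h (Nat.pos_of_ne_zero hn), (Nat.le_of_dvd (Nat.pos_of_ne_zero hn) h).trans hnX⟩, h⟩
  rw [h2]
  have h3 : (ArithmeticFunction.moebius * (ArithmeticFunction.zeta : ArithmeticFunction ℤ)) n = if n = 1 then 1 else 0 := by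
    rw [ArithmeticFunction.moebius_mul_coe_zeta, ArithmeticFunction.one_apply]
  rw [ArithmeticFunction.coe_mul_zeta_apply] at h3
  have h4 : ((∑ i ∈ n.divisors, ArithmeticFunction.moebius i : ℤ) : ℝ) = ((if n = 1 then 1 else 0 : ℤ) : ℝ) := by
    rw [h3]
  push_cast at h4
  exact h4

lemma A1_eq {X : ℕ} (hX : 1 ≤ X) (N : ℕ) : A1 X N =
    ∑ d ∈ Finset.Ioc 0 X, ((ArithmeticFunction.moebius d : ℤ) : ℝ) * ((N / d : ℕ) : ℝ) -
      (if 1 ≤ N then 1 else 0) := by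
  rw [← AA_eq]
  unfold A1
  by_cases hN : 1 ≤ N
  · rw [if_pos hN]
    have : Finset.Ioc 0 N = insert 1 (Finset.Ioc 1 N) := by
      ext k
      simp only [Finset.mem_insert, Finset.mem_Ioc]
      omega
    rw [this, Finset.sum_insert (by simp), aa_full one_ne_zero hX, if_pos rfl]
    ring
  · rw [if_neg hN]
    have : N = 0 := by omega
    subst this
    simp

lemma A1_zero {X N : ℕ} (hN : N ≤ X) : A1 X N = 0 := by
  unfold A1
  refine Finset.sum_eq_zero fun n hn => ?_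
  rw [Finset.mem_Ioc] at hn
  rw [aa_full (by omega) (by omega), if_neg (by omega)]

lemma A1_abs_le {X : ℕ} (hX : 1 ≤ X) (N : ℕ) : |A1 X N| ≤ X * N + 1 := by
  rw [A1_eq hX]
  refine (abs_sub _ _).trans ?_
  have h1 : |∑ d ∈ Finset.Ioc 0 X, ((ArithmeticFunction.moebius d : ℤ) : ℝ) * ((N / d : ℕ) : ℝ)| ≤ X * N := by
    refine (Finset.abs_sum_le_sum_abs _ _).trans ?_
    have h2 : ∀ d ∈ Finset.Ioc 0 X, |((ArithmeticFunction.moebius d : ℤ) : ℝ) * ((N / d : ℕ) : ℝ)| ≤ N := by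
      intro d _
      rw [abs_mul]
      have h3 : |((ArithmeticFunction.moebius d : ℤ) : ℝ)| ≤ 1 := by
        have := ArithmeticFunction.abs_moebius_le_one (n := d)
        exact_mod_cast this
      have h4 : |((N / d : ℕ) : ℝ)| ≤ N := by
        rw [abs_of_nonneg (by positivity)]
        exact_mod_cast Nat.div_le_self N d
      calc |((ArithmeticFunction.moebius d : ℤ) : ℝ)| * |((N / d : ℕ) : ℝ)| ≤ 1 * N := by gcongr
        _ = N := one_mul _
    refine (Finset.sum_le_sum h2).trans ?_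
    rw [Finset.sum_const, Nat.card_Ioc, nsmul_eq_mul]
    simp
  have h5 : |(if 1 ≤ N then (1:ℝ) else 0)| ≤ 1 := by
    split_ifs <;> simp
  linarith

/-- the test function -/
def cR (X : ℕ) (h y : ℝ) : ℝ := Real.exp (-h) * A1 X ⌊Real.exp h * y⌋₊ - A1 X ⌊y⌋₊

lemma hasMellin_sum {ι : Type*} (s : Finset ι) (f : ι → ℝ → ℂ) (z : ℂ) (m : ι → ℂ)
    (h : ∀ i ∈ s, HasMellin (f i) z (m i)) : HasMellin (fun t => ∑ i ∈ s, f i t) z (∑ i ∈ s, m i) := by
  classical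
  induction s using Finset.induction_on with
  | empty =>
    simp only [Finset.sum_empty]
    constructor
    · unfold MellinConvergent
      simp only [smul_zero]
      exact integrableOn_zero
    · unfold mellin
      simp
  | @insert a s ha ih =>
    simp only [Finset.sum_insert ha]
    exact hasMellin_add' (h a (Finset.mem_insert_self _ _))
      (ih (fun i hi => h i (Finset.mem_insert_of_mem hi)))

lemma cR_eq {X : ℕ} (hX : 1 ≤ X) {h y : ℝ} (hy : 0 < y) : ((cR X h y : ℝ) : ℂ) =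
    (∑ d ∈ Finset.Ioc 0 X, (((ArithmeticFunction.moebius d : ℤ) : ℝ) : ℂ) * Gc h (((d:ℝ))⁻¹ * y)) - Ec h y := by
  have hind : ∀ t : ℝ, ind1 t = (((if 1 ≤ ⌊t⌋₊ then (1:ℝ) else 0) : ℝ) : ℂ) := by
    intro t
    unfold ind1
    by_cases ht : 1 ≤ t
    · rw [indicator_of_mem (show t ∈ Ici (1:ℝ) from ht), if_pos ((Nat.one_le_floor_iff t).2 ht)]
      simp
    · rw [indicator_of_notMem (show t ∉ Ici (1:ℝ) from ht), if_neg (fun h => ht ((Nat.one_le_floor_iff t).1 h))]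
      simp
  have hfl : ∀ (d : ℕ) (t : ℝ), flr (((d:ℝ))⁻¹ * t) = (((⌊t⌋₊ / d : ℕ) : ℝ) : ℂ) := by
    intro d t
    unfold flr
    rw [inv_mul_eq_div, Nat.floor_div_natCast]
    push_cast
    rfl
  have hG : ∀ d : ℕ, Gc h (((d:ℝ))⁻¹ * y) = (Real.exp (-h) : ℂ) * (((⌊Real.exp h * y⌋₊ / d : ℕ) : ℝ) : ℂ) -
      (((⌊y⌋₊ / d : ℕ) : ℝ) : ℂ) := by
    intro d
    unfold Gc
    rw [hfl, ← hfl d (Real.exp h * y)]
    congr 3
    ring
  simp_rw [hG]
  unfold Ec cR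
  rw [hind, hind, A1_eq hX, A1_eq hX]
  push_cast
  simp only [mul_sub, Finset.sum_sub_distrib, Finset.mul_sum]
  have e : ∀ d : ℕ, (((ArithmeticFunction.moebius d : ℤ)) : ℂ) * (Complex.exp (-(h:ℂ)) * (((⌊Real.exp h * y⌋₊ / d : ℕ)) : ℂ)) =
      Complex.exp (-(h:ℂ)) * ((((ArithmeticFunction.moebius d : ℤ)) : ℂ) * (((⌊Real.exp h * y⌋₊ / d : ℕ)) : ℂ)) := by
    intro d; ring
  simp_rw [e]
  ring

lemma hasMellin_cR {ρ : ℂ} (hρ : riemannZeta₁ ρ = 0) (h0 : 0 < ρ.re) {h : ℝ} (hh : 0 ≤ h) {X : ℕ}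
    (hX : 1 ≤ X) :
    HasMellin (fun y => ((cR X h y : ℝ) : ℂ)) (-ρ) (-((Complex.exp ((ρ - 1) * h) - 1) / ρ)) := by
  have h1 := hasMellin_Gc_zero hρ h0 hh
  have h2 : HasMellin (fun y => ∑ d ∈ Finset.Ioc 0 X,
      (((ArithmeticFunction.moebius d : ℤ) : ℝ) : ℂ) * Gc h (((d:ℝ))⁻¹ * y)) (-ρ) (∑ d ∈ Finset.Ioc 0 X, 0) := by
    refine hasMellin_sum _ _ _ _ fun d hd => ?_
    rw [Finset.mem_Ioc] at hd
    have hd0 : (0:ℝ) < (d:ℝ)⁻¹ := by
      have : (0:ℝ) < d := by exact_mod_cast hd.1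
      positivity
    have := hasMellin_smul ((((ArithmeticFunction.moebius d : ℤ) : ℝ) : ℂ)) (hasMellin_scale hd0 h1)
    rwa [mul_zero, mul_zero] at this
  have h3 := hasMellin_sub' h2 (hasMellin_Ec h0 h)
  rw [Finset.sum_const_zero, zero_sub] at h3
  exact hasMellin_congr h3 (fun t ht => cR_eq hX ht)

lemma cR_zero {X : ℕ} (hX : 2 ≤ X) {h y : ℝ} (hh : 0 ≤ h) (hh1 : h ≤ 1 / 4) (hy : y ≤ 1) : cR X h y = 0 := by
  have he : Real.exp h ≤ 2 := by
    have h1 := Real.exp_bound_div_one_sub_of_interval hh (by linarith : h < 1)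
    have h2 : 1 / (1 - h) ≤ 2 := by
      rw [div_le_iff₀ (by linarith)]
      linarith
    linarith
  have h0 := Real.exp_pos h
  unfold cR
  rw [A1_zero, A1_zero]
  · simp
  · refine (Nat.floor_le_floor hy).trans ?_
    simp
    omega
  · have h1 : Real.exp h * y ≤ 2 := by nlinarith
    refine (Nat.floor_le_floor h1).trans ?_
    simp
    omega

/-- the integral of `cR` over `(1,∞)` against `y^(-ρ-1)` -/
lemma cR_integral {ρ : ℂ} (hρ : riemannZeta₁ ρ = 0) (h0 : 0 < ρ.re) {h : ℝ} (hh : 0 ≤ h)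
    (hh1 : h ≤ 1 / 4) {X : ℕ} (hX : 2 ≤ X) :
    IntegrableOn (fun y : ℝ => (y : ℂ) ^ (-ρ - 1) * ((cR X h y : ℝ) : ℂ)) (Ioi 1) ∧
    ∫ y in Ioi (1:ℝ), (y : ℂ) ^ (-ρ - 1) * ((cR X h y : ℝ) : ℂ) =
      -((Complex.exp ((ρ - 1) * h) - 1) / ρ) := by
  obtain ⟨h1, h2⟩ := hasMellin_cR hρ h0 hh (show 1 ≤ X by omega)
  refine ⟨IntegrableOn.mono_set h1 (Ioi_subset_Ioi zero_le_one), ?_⟩
  rw [← h2]
  unfold mellin
  have hz : ∀ y : ℝ, (y : ℂ) ^ (-ρ - 1) • ((cR X h y : ℝ) : ℂ) =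
      (Ioi (1:ℝ)).indicator (fun y : ℝ => (y : ℂ) ^ (-ρ - 1) * ((cR X h y : ℝ) : ℂ)) y := by
    intro y
    by_cases hy : y ∈ Ioi (1:ℝ)
    · rw [indicator_of_mem hy]; rfl
    · rw [indicator_of_notMem hy, cR_zero hX hh hh1 (not_lt.1 hy)]
      simp
  simp_rw [hz]
  rw [setIntegral_indicator measurableSet_Ioi, inter_eq_self_of_subset_right (Ioi_subset_Ioi zero_le_one)]

end

end Pool.Agent.H437R2
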