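import Pool.Agent.H437R2.A3b
set_option autoImplicit false

open MeasureTheory Filter Topology Set

namespace Pool.Agent.H437R2

noncomputable section

lemma div_sq_le {n : ℕ} (_hn : n ≠ 0) : ((n.divisors.card : ℝ)) ^ 2 ≤
    ∑ p ∈ n.divisorsAntidiagonal, (p.1.divisors.card : ℝ) * (p.2.divisors.card : ℝ) := by
  have h : ∀ p ∈ n.divisorsAntidiagonal, (n.divisors.card : ℝ) ≤
      (p.1.divisors.card : ℝ) * (p.2.divisors.card : ℝ) := by
    intro p hp
    have := Nat.mem_divisorsAntidiagonal.1 hp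
    rw [← this.1, Nat.divisors_mul]
    exact_mod_cast Finset.card_mul_le
  have h2 := Finset.sum_le_sum h
  have h3 : ∑ p ∈ n.divisorsAntidiagonal, (n.divisors.card : ℝ) = (n.divisors.card : ℝ) ^ 2 := by
    rw [Nat.sum_divisorsAntidiagonal (f := fun _ _ => (n.divisors.card : ℝ)), Finset.sum_const, nsmul_eq_mul]
    ring
  rwa [h3] at h2

lemma div_summable : Summable (fun n : ℕ => ((n.divisors.card : ℝ)) ^ 2 * (n : ℝ) ^ (-(9/8) : ℝ)) := by
  set z : ArithmeticFunction ℂ := (ArithmeticFunction.zeta : ArithmeticFunction ℂ) with hz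
  have hs : (1:ℝ) < ((9/8 : ℝ) : ℂ).re := by
    rw [Complex.ofReal_re]; norm_num
  have h1 : LSeriesSummable (fun n => z n) ((9/8 : ℝ) : ℂ) :=
    ArithmeticFunction.LSeriesSummable_zeta_iff.2 hs
  have h2 := ArithmeticFunction.LSeriesSummable_mul h1 h1
  have h3 := ArithmeticFunction.LSeriesSummable_mul h2 h2
  have hd : ∀ n : ℕ, (z * z) n = (n.divisors.card : ℂ) := by
    intro n
    rw [hz, ArithmeticFunction.coe_mul_zeta_apply]
    have : ∀ i ∈ n.divisors, (ArithmeticFunction.zeta : ArithmeticFunction ℂ) i = 1 := by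
      intro i hi
      rw [ArithmeticFunction.natCoe_apply, ArithmeticFunction.zeta_apply_ne (Nat.pos_of_mem_divisors hi).ne']
      simp
    rw [Finset.sum_congr rfl this]
    simp
  have h4 := h3.norm
  refine Summable.of_nonneg_of_le (fun n => mul_nonneg (sq_nonneg _) (Real.rpow_nonneg (Nat.cast_nonneg _) _)) (fun n => ?_) h4
  rw [LSeries.norm_term_eq]
  by_cases hn : n = 0
  · subst hn
    simp
  · rw [if_neg hn, ArithmeticFunction.mul_apply, Complex.ofReal_re, Real.rpow_neg (by positivity), ← div_eq_mul_inv]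
    have h5 : ‖∑ p ∈ n.divisorsAntidiagonal, (z * z) p.1 * (z * z) p.2‖ =
        ∑ p ∈ n.divisorsAntidiagonal, (p.1.divisors.card : ℝ) * (p.2.divisors.card : ℝ) := by
      simp_rw [hd]
      have : (∑ p ∈ n.divisorsAntidiagonal, (p.1.divisors.card : ℂ) * (p.2.divisors.card : ℂ)) =
          ((∑ p ∈ n.divisorsAntidiagonal, (p.1.divisors.card : ℝ) * (p.2.divisors.card : ℝ) : ℝ) : ℂ) := by
        push_cast; rfl
      have hnn : 0 ≤ ∑ p ∈ n.divisorsAntidiagonal, (p.1.divisors.card : ℝ) * (p.2.divisors.card : ℝ) :=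
        Finset.sum_nonneg (fun p _ => mul_nonneg (Nat.cast_nonneg _) (Nat.cast_nonneg _))
      rw [this, Complex.norm_real, Real.norm_of_nonneg hnn]
    rw [h5]
    exact div_le_div_of_nonneg_right (div_sq_le hn) (Real.rpow_nonneg (Nat.cast_nonneg _) _)

/-- `∑ d(n)^2 n^(-9/8)` -/
def DD : ℝ := ∑' n : ℕ, ((n.divisors.card : ℝ)) ^ 2 * (n : ℝ) ^ (-(9/8) : ℝ)

lemma DD_nonneg : 0 ≤ DD := tsum_nonneg fun n => by positivity

lemma sum_aa_le (X N : ℕ) (hX : 1 ≤ X) :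
    ∑ n ∈ Finset.Ioc X N, (aa X n) ^ 2 * (n:ℝ) ^ (-(5/4) : ℝ) ≤ DD * (X:ℝ) ^ (-(1/8) : ℝ) := by
  have hX0 : (0:ℝ) < X := by exact_mod_cast hX
  have h1 : ∀ n ∈ Finset.Ioc X N, (aa X n) ^ 2 * (n:ℝ) ^ (-(5/4) : ℝ) ≤
      (((n.divisors.card : ℝ)) ^ 2 * (n : ℝ) ^ (-(9/8) : ℝ)) * (X:ℝ) ^ (-(1/8) : ℝ) := by
    intro n hn
    rw [Finset.mem_Ioc] at hn
    have hn0 : n ≠ 0 := by omega
    have hnp : (0:ℝ) < n := by exact_mod_cast Nat.pos_of_ne_zero hn0
    have e : (n:ℝ) ^ (-(5/4) : ℝ) = (n:ℝ) ^ (-(9/8) : ℝ) * (n:ℝ) ^ (-(1/8) : ℝ) := by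
      rw [← Real.rpow_add hnp]; norm_num
    have h2 : (aa X n) ^ 2 ≤ ((n.divisors.card : ℝ)) ^ 2 := by
      rw [← sq_abs]
      have := aa_le X n hn0
      gcongr
    have h3 : (n:ℝ) ^ (-(1/8) : ℝ) ≤ (X:ℝ) ^ (-(1/8) : ℝ) := by
      apply Real.rpow_le_rpow_of_nonpos hX0
      · exact_mod_cast hn.1.le
      · norm_num
    rw [e]
    calc (aa X n) ^ 2 * ((n:ℝ) ^ (-(9/8) : ℝ) * (n:ℝ) ^ (-(1/8) : ℝ))
        ≤ ((n.divisors.card : ℝ)) ^ 2 * ((n:ℝ) ^ (-(9/8) : ℝ) * (X:ℝ) ^ (-(1/8) : ℝ)) := by gcongr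
      _ = _ := by ring
  refine (Finset.sum_le_sum h1).trans ?_
  rw [← Finset.sum_mul]
  refine mul_le_mul_of_nonneg_right ?_ (by positivity)
  exact div_summable.sum_le_tsum _ (fun n _ => by positivity)

/-- uniform bound for `cR` -/
lemma cR_abs_le {X : ℕ} (hX : 1 ≤ X) {h y : ℝ} (hh : 0 ≤ h) (hy : 0 ≤ y) : |cR X h y| ≤ X + 1 := by
  unfold cR
  rw [A1_eq hX, A1_eq hX]
  have e : Real.exp (-h) * (∑ d ∈ Finset.Ioc 0 X, ((ArithmeticFunction.moebius d : ℤ) : ℝ) *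
        ((⌊Real.exp h * y⌋₊ / d : ℕ) : ℝ) - (if 1 ≤ ⌊Real.exp h * y⌋₊ then 1 else 0)) -
      (∑ d ∈ Finset.Ioc 0 X, ((ArithmeticFunction.moebius d : ℤ) : ℝ) * ((⌊y⌋₊ / d : ℕ) : ℝ) -
      (if 1 ≤ ⌊y⌋₊ then 1 else 0)) =
      ∑ d ∈ Finset.Ioc 0 X, ((ArithmeticFunction.moebius d : ℤ) : ℝ) *
        (Real.exp (-h) * ((⌊Real.exp h * y⌋₊ / d : ℕ) : ℝ) - ((⌊y⌋₊ / d : ℕ) : ℝ)) -
      (Real.exp (-h) * (if 1 ≤ ⌊Real.exp h * y⌋₊ then 1 else 0) - (if 1 ≤ ⌊y⌋₊ then 1 else 0)) := by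
    simp only [mul_sub, Finset.sum_sub_distrib, Finset.mul_sum]
    have e : ∀ d : ℕ, ((ArithmeticFunction.moebius d : ℤ) : ℝ) * (Real.exp (-h) * ((⌊Real.exp h * y⌋₊ / d : ℕ) : ℝ)) =
      Real.exp (-h) * (((ArithmeticFunction.moebius d : ℤ) : ℝ) * ((⌊Real.exp h * y⌋₊ / d : ℕ) : ℝ)) := by
      intro d; ring
    simp_rw [e]
    ring
  rw [e]
  have he1 : Real.exp (-h) ≤ 1 := by rw [Real.exp_le_one_iff]; linarith
  have he0 := Real.exp_pos (-h)
  have he2 := Real.exp_pos h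
  refine (abs_sub _ _).trans (add_le_add ?_ ?_)
  · refine (Finset.abs_sum_le_sum_abs _ _).trans ?_
    have h1 : ∀ d ∈ Finset.Ioc 0 X, |((ArithmeticFunction.moebius d : ℤ) : ℝ) *
        (Real.exp (-h) * ((⌊Real.exp h * y⌋₊ / d : ℕ) : ℝ) - ((⌊y⌋₊ / d : ℕ) : ℝ))| ≤ 1 := by
      intro d hd
      rw [Finset.mem_Ioc] at hd
      have hd0 : (0:ℝ) < d := by exact_mod_cast hd.1
      rw [abs_mul]
      have h3 : |((ArithmeticFunction.moebius d : ℤ) : ℝ)| ≤ 1 := by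
        have := ArithmeticFunction.abs_moebius_le_one (n := d)
        exact_mod_cast this
      have h4 : |Real.exp (-h) * ((⌊Real.exp h * y⌋₊ / d : ℕ) : ℝ) - ((⌊y⌋₊ / d : ℕ) : ℝ)| ≤ 1 := by
        rw [← Nat.floor_div_natCast, ← Nat.floor_div_natCast]
        have a1 := Nat.floor_le (show 0 ≤ Real.exp h * y / d by positivity)
        have a2 := Nat.lt_floor_add_one (Real.exp h * y / d)
        have a3 := Nat.floor_le (show 0 ≤ y / d by positivity)
        have a4 := Nat.lt_floor_add_one (y / d)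
        have a5 : Real.exp (-h) * (Real.exp h * y / d) = y / d := by
          rw [Real.exp_neg]; field_simp
        rw [abs_le]
        constructor
        · have : Real.exp (-h) * (Real.exp h * y / d - 1) ≤ Real.exp (-h) * (⌊Real.exp h * y / d⌋₊ : ℝ) := by
            gcongr; linarith
          rw [mul_sub, a5] at this
          linarith
        · have : Real.exp (-h) * (⌊Real.exp h * y / d⌋₊ : ℝ) ≤ Real.exp (-h) * (Real.exp h * y / d) := by
            gcongr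
          rw [a5] at this
          linarith
      calc _ ≤ (1:ℝ) * 1 := mul_le_mul h3 h4 (abs_nonneg _) zero_le_one
        _ = 1 := one_mul _
    refine (Finset.sum_le_sum h1).trans ?_
    rw [Finset.sum_const, Nat.card_Ioc, nsmul_eq_mul]
    simp
  · have : ∀ p q : ℝ, (p = 0 ∨ p = 1) → (q = 0 ∨ q = 1) → |Real.exp (-h) * p - q| ≤ 1 := by
      rintro p q (rfl | rfl) (rfl | rfl) <;> rw [abs_le] <;> constructor <;> linarith
    apply this <;> split_ifs <;> simp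

/-- near range -/
lemma cR_sq_near {X : ℕ} (hX : 2 ≤ X) {h y T : ℝ} (hT : h * (4 * T) = 1) (hT1 : 1 ≤ T) (hy : 1 < y) (hyT : y ≤ T)
    (N : ℕ) (hN : 2 * T ≤ N) :
    (cR X h y) ^ 2 ≤ 2 * (∑ n ∈ Finset.Ioc X N, (aa X n) ^ 2 *
      (Ico ((n:ℝ) * Real.exp (-h)) n).indicator (fun _ => (1:ℝ)) y) + 8 * (h * X * y) ^ 2 := by
  have hh : 0 < h := by
    by_contra hc
    push Not at hc
    nlinarith
  have hh1 : h ≤ 1 / 4 := by nlinarith
  have he1 : Real.exp (-h) ≤ 1 := by rw [Real.exp_le_one_iff]; linarith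
  have he0 := Real.exp_pos (-h)
  have he2 := Real.exp_pos h
  have hXr : (2:ℝ) ≤ X := by exact_mod_cast hX
  set K := ⌊y⌋₊ with hK
  set M := ⌊Real.exp h * y⌋₊ with hM
  have hexp : Real.exp h ≤ 1 + 2 * h := by
    have h1 := Real.exp_bound_div_one_sub_of_interval hh.le (by linarith : h < 1)
    have h2 : 1 / (1 - h) ≤ 1 + 2 * h := by
      rw [div_le_iff₀ (by linarith)]
      nlinarith
    linarith
  have hexp1 : 1 ≤ Real.exp h := Real.one_le_exp hh.le
  have hyy : y ≤ Real.exp h * y := by nlinarith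
  have hyy2 : Real.exp h * y < y + 1 := by nlinarith
  have hKM : K ≤ M := Nat.floor_le_floor hyy
  have hMK : M ≤ K + 1 := by
    have : M < K + 2 := by
      rw [hM, Nat.floor_lt (by positivity)]
      have := Nat.lt_floor_add_one y
      push_cast
      rw [← hK] at this
      linarith
    omega
  have hK1 : 1 ≤ K := by
    rw [hK, Nat.one_le_floor_iff]; exact hy.le
  have hdec : cR X h y = Real.exp (-h) * (A1 X M - A1 X K) - (1 - Real.exp (-h)) * A1 X K := by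
    unfold cR; ring
  have hS0 : 0 ≤ ∑ n ∈ Finset.Ioc X N, (aa X n) ^ 2 *
      (Ico ((n:ℝ) * Real.exp (-h)) n).indicator (fun _ => (1:ℝ)) y := by
    refine Finset.sum_nonneg fun n _ => mul_nonneg (sq_nonneg _) ?_
    exact indicator_nonneg (fun _ _ => zero_le_one) _
  have hu : (A1 X M - A1 X K) ^ 2 ≤ ∑ n ∈ Finset.Ioc X N, (aa X n) ^ 2 *
      (Ico ((n:ℝ) * Real.exp (-h)) n).indicator (fun _ => (1:ℝ)) y := by
    rcases Nat.lt_or_ge K M with h1 | h1
    · have hMK' : M = K + 1 := by omega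
      have h2 : A1 X M - A1 X K = aa X M := by
        unfold A1
        rw [hMK', Finset.sum_Ioc_succ_top (by omega)]
        ring
      rw [h2]
      by_cases hMX : M ≤ X
      · rw [aa_full (by omega) hMX, if_neg (by omega)]
        simpa using hS0
      · push Not at hMX
        have hMr : (M:ℝ) ≤ Real.exp h * y := Nat.floor_le (by positivity)
        have hyM : y < M := by
          have := Nat.lt_floor_add_one y
          rw [← hK] at this
          rw [hMK']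
          push_cast
          exact this
        have hMN : M ≤ N := by
          have : (M:ℝ) ≤ N := by nlinarith
          exact_mod_cast this
        have hmem : y ∈ Ico ((M:ℝ) * Real.exp (-h)) M := by
          refine ⟨?_, hyM⟩
          calc (M:ℝ) * Real.exp (-h) ≤ (Real.exp h * y) * Real.exp (-h) := by gcongr
            _ = y := by rw [Real.exp_neg]; field_simp
        have hterm := Finset.single_le_sum (f := fun n : ℕ => (aa X n) ^ 2 *
            (Ico ((n:ℝ) * Real.exp (-h)) n).indicator (fun _ => (1:ℝ)) y)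
          (fun n _ => mul_nonneg (sq_nonneg _) (indicator_nonneg (fun _ _ => zero_le_one) _))
          (Finset.mem_Ioc.2 ⟨hMX, hMN⟩)
        simp only [indicator_of_mem hmem, mul_one] at hterm
        exact hterm
    · have : M = K := le_antisymm h1 hKM
      rw [this, sub_self]
      simpa using hS0
  have hv : |(1 - Real.exp (-h)) * A1 X K| ≤ 2 * (h * X * y) := by
    rw [abs_mul]
    have h1 : |1 - Real.exp (-h)| ≤ h := by
      rw [abs_of_nonneg (by linarith)]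
      have := Real.one_sub_le_exp_neg h
      linarith
    have h2 := A1_abs_le (show 1 ≤ X by omega) K
    have h3 : (K:ℝ) ≤ y := Nat.floor_le (by linarith)
    have h4 : |A1 X K| ≤ 2 * (X * y) := by
      have : (X:ℝ) * K ≤ X * y := by gcongr
      nlinarith
    calc |1 - Real.exp (-h)| * |A1 X K| ≤ h * (2 * (X * y)) := mul_le_mul h1 h4 (abs_nonneg _) hh.le
      _ = _ := by ring
  have hv2 : ((1 - Real.exp (-h)) * A1 X K) ^ 2 ≤ 4 * (h * X * y) ^ 2 := by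
    rw [← sq_abs]
    calc _ ≤ (2 * (h * X * y)) ^ 2 := by gcongr
      _ = _ := by ring
  have hu2 : (Real.exp (-h) * (A1 X M - A1 X K)) ^ 2 ≤ (A1 X M - A1 X K) ^ 2 := by
    rw [mul_pow]
    have : Real.exp (-h) ^ 2 ≤ 1 := pow_le_one₀ he0.le he1
    nlinarith [sq_nonneg (A1 X M - A1 X K)]
  rw [hdec]
  nlinarith [sq_nonneg (Real.exp (-h) * (A1 X M - A1 X K) + (1 - Real.exp (-h)) * A1 X K)]

lemma cR_measurable (X : ℕ) (h : ℝ) : Measurable (cR X h) := by
  unfold cR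
  have h1 : Measurable (fun n : ℕ => A1 X n) := measurable_from_nat
  have h2 : Measurable (fun y : ℝ => A1 X ⌊y⌋₊) := h1.comp Nat.measurable_floor
  have h3 : Measurable (fun y : ℝ => A1 X ⌊Real.exp h * y⌋₊) := h2.comp (measurable_const.mul measurable_id)
  exact (measurable_const.mul h3).sub h2

lemma ind_int (n : ℕ) (hn : 1 ≤ n) {h : ℝ} (hh : 0 < h) (hh1 : h ≤ 1 / 4) :
    IntegrableOn (fun y : ℝ => (Ico ((n:ℝ) * Real.exp (-h)) n).indicator (fun _ => (1:ℝ)) y *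
      y ^ (-(9/4) : ℝ)) (Ioi 1) ∧
    ∫ y in Ioi (1:ℝ), (Ico ((n:ℝ) * Real.exp (-h)) n).indicator (fun _ => (1:ℝ)) y *
      y ^ (-(9/4) : ℝ) ≤ 3 * h * (n:ℝ) ^ (-(5/4) : ℝ) := by
  have hn0 : (0:ℝ) < n := by exact_mod_cast hn
  have he0 := Real.exp_pos (-h)
  set a := (n:ℝ) * Real.exp (-h) with ha
  have ha0 : 0 < a := by positivity
  have e : ∀ y : ℝ, (Ico a n).indicator (fun _ => (1:ℝ)) y * y ^ (-(9/4) : ℝ) =
      (Ico a n).indicator (fun y => y ^ (-(9/4) : ℝ)) y := by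
    intro y
    by_cases hy : y ∈ Ico a (n:ℝ)
    · rw [indicator_of_mem hy, indicator_of_mem hy, one_mul]
    · rw [indicator_of_notMem hy, indicator_of_notMem hy, zero_mul]
  simp_rw [e]
  have hint : IntegrableOn (fun y : ℝ => y ^ (-(9/4) : ℝ)) (Ioi 1) :=
    integrableOn_Ioi_rpow_of_lt (by norm_num) one_pos
  constructor
  · exact hint.indicator measurableSet_Ico
  · rw [setIntegral_indicator measurableSet_Ico]
    have h1 : ∀ y ∈ Ioi (1:ℝ) ∩ Ico a n, ‖y ^ (-(9/4) : ℝ)‖ ≤ a ^ (-(9/4) : ℝ) := by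
      intro y hy
      have hy1 : (1:ℝ) < y := hy.1
      rw [Real.norm_of_nonneg (Real.rpow_nonneg (by linarith) _)]
      exact Real.rpow_le_rpow_of_nonpos ha0 hy.2.1 (by norm_num)
    have hvol : volume (Ioi (1:ℝ) ∩ Ico a (n:ℝ)) < ⊤ :=
      (measure_mono inter_subset_right).trans_lt (by rw [Real.volume_Ico]; exact ENNReal.ofReal_lt_top)
    have h2 := norm_setIntegral_le_of_norm_le_const hvol h1
    have h3 : volume.real (Ioi (1:ℝ) ∩ Ico a (n:ℝ)) ≤ n - a := by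
      have hle : a ≤ n := by
        rw [ha]
        have : Real.exp (-h) ≤ 1 := by rw [Real.exp_le_one_iff]; linarith
        nlinarith
      have h4 : volume.real (Ioi (1:ℝ) ∩ Ico a (n:ℝ)) ≤ volume.real (Ico a (n:ℝ)) :=
        measureReal_mono inter_subset_right (by rw [Real.volume_Ico]; exact ENNReal.ofReal_ne_top)
      rw [Real.volume_real_Ico_of_le hle] at h4
      exact h4
    have h5 : (n:ℝ) - a ≤ n * h := by
      rw [ha]
      have := Real.one_sub_le_exp_neg h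
      nlinarith
    have h6 : a ^ (-(9/4) : ℝ) ≤ 3 * (n:ℝ) ^ (-(9/4) : ℝ) := by
      rw [ha, Real.mul_rpow hn0.le he0.le, ← Real.exp_mul]
      have : Real.exp (-h * -(9/4)) ≤ 3 := by
        have h7 : Real.exp (-h * -(9/4)) ≤ Real.exp 1 := by
          rw [Real.exp_le_exp]; linarith
        have := Real.exp_one_lt_d9
        linarith
      have hp : 0 ≤ (n:ℝ) ^ (-(9/4) : ℝ) := by positivity
      nlinarith
    refine (le_abs_self _).trans (h2.trans ?_)
    have e2 : (n:ℝ) ^ (-(5/4) : ℝ) = (n:ℝ) ^ (-(9/4) : ℝ) * n := by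
      conv_rhs => rw [← Real.rpow_one (n:ℝ), ← Real.rpow_mul hn0.le, ← Real.rpow_add hn0]
      norm_num
    rw [e2]
    have h8 : 0 ≤ volume.real (Ioi (1:ℝ) ∩ Ico a (n:ℝ)) := measureReal_nonneg
    calc a ^ (-(9/4) : ℝ) * volume.real (Ioi (1:ℝ) ∩ Ico a (n:ℝ))
        ≤ (3 * (n:ℝ) ^ (-(9/4) : ℝ)) * (n * h) := by
          apply mul_le_mul h6 (h3.trans h5) h8 (by positivity)
      _ = _ := by ring

lemma cR_L2 {X : ℕ} (hX : 2 ≤ X) {h T : ℝ} (hTdef : T = (X:ℝ) ^ 16) (hT : h * (4 * T) = 1) :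
    IntegrableOn (fun y : ℝ => (cR X h y) ^ 2 * y ^ (-(9/4) : ℝ)) (Ioi 1) ∧
    ∫ y in Ioi (1:ℝ), (cR X h y) ^ 2 * y ^ (-(9/4) : ℝ) ≤
      (2 * DD + 128) * (X:ℝ) ^ (-(16 + 1/8) : ℝ) := by
  have hXr : (2:ℝ) ≤ X := by exact_mod_cast hX
  have hX0 : (0:ℝ) < X := by linarith
  have hT1 : 1 ≤ T := by rw [hTdef]; exact one_le_pow₀ (by linarith)
  have hT0 : 0 < T := by linarith
  have hh : 0 < h := by
    by_contra hc
    push Not at hc
    nlinarith
  have hh1 : h ≤ 1 / 4 := by nlinarith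
  set N : ℕ := 2 * X ^ 16 with hN
  have hNT : 2 * T ≤ N := by rw [hTdef, hN]; push_cast; exact le_refl _
  set P : ℝ → ℝ := fun y => 2 * (∑ n ∈ Finset.Ioc X N, (aa X n) ^ 2 *
      ((Ico ((n:ℝ) * Real.exp (-h)) n).indicator (fun _ => (1:ℝ)) y * y ^ (-(9/4) : ℝ))) +
      4 * X ^ 2 * T ^ (-(39/32) : ℝ) * y ^ (-(33/32) : ℝ) with hP
  have hpt : ∀ y ∈ Ioi (1:ℝ), (cR X h y) ^ 2 * y ^ (-(9/4) : ℝ) ≤ P y := by
    intro y hy
    have hy1 : (1:ℝ) < y := hy
    have hy0 : 0 < y := by linarith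
    have hS0 : 0 ≤ ∑ n ∈ Finset.Ioc X N, (aa X n) ^ 2 *
        (Ico ((n:ℝ) * Real.exp (-h)) n).indicator (fun _ => (1:ℝ)) y := by
      refine Finset.sum_nonneg fun n _ => mul_nonneg (sq_nonneg _) ?_
      exact indicator_nonneg (fun _ _ => zero_le_one) _
    have hkey : (cR X h y) ^ 2 ≤ 2 * (∑ n ∈ Finset.Ioc X N, (aa X n) ^ 2 *
        (Ico ((n:ℝ) * Real.exp (-h)) n).indicator (fun _ => (1:ℝ)) y) + 4 * X ^ 2 * (y / T) ^ (39/32 : ℝ) := by
      rcases le_or_gt y T with hyT | hyT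
      · refine (cR_sq_near hX hT hT1 hy1 hyT N hNT).trans ?_
        have h1 : 8 * (h * X * y) ^ 2 = 1 / 2 * X ^ 2 * (y / T) ^ 2 := by
          have : h = 1 / (4 * T) := by field_simp; linarith
          rw [this]
          field_simp
          ring
        have h2 : (y / T) ^ 2 ≤ (y / T) ^ (39/32 : ℝ) := by
          rw [← Real.rpow_natCast]
          refine Real.rpow_le_rpow_of_exponent_ge (by positivity) ((div_le_one hT0).2 hyT) (by norm_num)
        rw [h1]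
        have h3 : 0 ≤ (y / T) ^ (39/32 : ℝ) := by positivity
        nlinarith [sq_nonneg (X:ℝ), mul_le_mul_of_nonneg_left h2 (sq_nonneg (X:ℝ)), mul_nonneg (sq_nonneg (X:ℝ)) h3]
      · have h1 := cR_abs_le (show 1 ≤ X by omega) hh.le hy0.le
        have h2 : (cR X h y) ^ 2 ≤ 4 * X ^ 2 := by
          rw [← sq_abs]
          calc _ ≤ ((X:ℝ) + 1) ^ 2 := by gcongr
            _ ≤ (2 * X) ^ 2 := by gcongr; linarith
            _ = _ := by ring
        have h3 : 1 ≤ (y / T) ^ (39/32 : ℝ) :=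
          Real.one_le_rpow ((one_le_div hT0).2 hyT.le) (by norm_num)
        nlinarith [sq_nonneg (X:ℝ), mul_le_mul_of_nonneg_left h3 (sq_nonneg (X:ℝ))]
    have hyp : 0 ≤ y ^ (-(9/4) : ℝ) := by positivity
    refine (mul_le_mul_of_nonneg_right hkey hyp).trans (le_of_eq ?_)
    rw [hP]
    simp only
    rw [add_mul, mul_assoc 2, Finset.sum_mul]
    congr 1
    · congr 1
      refine Finset.sum_congr rfl fun n _ => ?_
      ring
    · rw [Real.div_rpow hy0.le hT0.le, Real.rpow_neg hT0.le]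
      have : y ^ (-(33/32) : ℝ) = y ^ (39/32 : ℝ) * y ^ (-(9/4) : ℝ) := by
        rw [← Real.rpow_add hy0]; norm_num
      rw [this]
      field_simp
  have hi1 : ∀ n ∈ Finset.Ioc X N, IntegrableOn (fun y : ℝ => (aa X n) ^ 2 *
      ((Ico ((n:ℝ) * Real.exp (-h)) n).indicator (fun _ => (1:ℝ)) y * y ^ (-(9/4) : ℝ))) (Ioi 1) := by
    intro n hn
    rw [Finset.mem_Ioc] at hn
    exact (ind_int n (by omega) hh hh1).1.const_mul _
  have hi2 : IntegrableOn (fun y : ℝ => 4 * X ^ 2 * T ^ (-(39/32) : ℝ) * y ^ (-(33/32) : ℝ)) (Ioi 1) :=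
    (integrableOn_Ioi_rpow_of_lt (by norm_num) one_pos).const_mul _
  have hi3 : IntegrableOn (fun y : ℝ => 2 * (∑ n ∈ Finset.Ioc X N, (aa X n) ^ 2 *
      ((Ico ((n:ℝ) * Real.exp (-h)) n).indicator (fun _ => (1:ℝ)) y * y ^ (-(9/4) : ℝ)))) (Ioi 1) :=
    (integrable_finsetSum _ hi1).const_mul 2
  have hiP : IntegrableOn P (Ioi 1) := hi3.add hi2
  have hnn : ∀ y ∈ Ioi (1:ℝ), 0 ≤ (cR X h y) ^ 2 * y ^ (-(9/4) : ℝ) := by
    intro y hy
    have hy1 : (1:ℝ) < y := hy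
    exact mul_nonneg (sq_nonneg _) (Real.rpow_nonneg (by linarith) _)
  have hmeas : AEStronglyMeasurable (fun y : ℝ => (cR X h y) ^ 2 * y ^ (-(9/4) : ℝ)) (volume.restrict (Ioi 1)) := by
    refine Measurable.aestronglyMeasurable ?_
    exact ((cR_measurable X h).pow_const 2).mul (measurable_id.pow_const _)
  have hi : IntegrableOn (fun y : ℝ => (cR X h y) ^ 2 * y ^ (-(9/4) : ℝ)) (Ioi 1) := by
    refine Integrable.mono' hiP hmeas ?_
    refine (ae_restrict_mem measurableSet_Ioi).mono fun y hy => ?_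
    rw [Real.norm_of_nonneg (hnn y hy)]
    exact hpt y hy
  refine ⟨hi, ?_⟩
  refine (setIntegral_mono_on hi hiP measurableSet_Ioi hpt).trans ?_
  rw [hP]
  rw [integral_add hi3 hi2, integral_const_mul, integral_const_mul, integral_finsetSum _ hi1,
    integral_Ioi_rpow_of_lt (by norm_num) one_pos]
  have hs : ∑ n ∈ Finset.Ioc X N, ∫ y in Ioi (1:ℝ), (aa X n) ^ 2 *
      ((Ico ((n:ℝ) * Real.exp (-h)) n).indicator (fun _ => (1:ℝ)) y * y ^ (-(9/4) : ℝ)) ≤
      3 * h * (DD * (X:ℝ) ^ (-(1/8) : ℝ)) := by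
    have h1 : ∀ n ∈ Finset.Ioc X N, ∫ y in Ioi (1:ℝ), (aa X n) ^ 2 *
      ((Ico ((n:ℝ) * Real.exp (-h)) n).indicator (fun _ => (1:ℝ)) y * y ^ (-(9/4) : ℝ)) ≤
        3 * h * ((aa X n) ^ 2 * (n:ℝ) ^ (-(5/4) : ℝ)) := by
      intro n hn
      rw [Finset.mem_Ioc] at hn
      rw [integral_const_mul]
      have := mul_le_mul_of_nonneg_left (ind_int n (by omega) hh hh1).2 (sq_nonneg (aa X n))
      refine this.trans (le_of_eq ?_)
      ring
    refine (Finset.sum_le_sum h1).trans ?_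
    rw [← Finset.mul_sum]
    exact mul_le_mul_of_nonneg_left (sum_aa_le X N (by omega)) (by positivity)
  have e1 : h = (X:ℝ) ^ (-16 : ℝ) / 4 := by
    have : h = 1 / (4 * T) := by field_simp; linarith
    rw [this, hTdef, Real.rpow_neg hX0.le]
    have : (X:ℝ) ^ (16:ℝ) = (X:ℝ) ^ (16:ℕ) := by
      rw [← Real.rpow_natCast]; norm_num
    rw [this]
    field_simp
  have e2 : T ^ (-(39/32) : ℝ) = (X:ℝ) ^ (-(39/2) : ℝ) := by
    rw [hTdef, ← Real.rpow_natCast, ← Real.rpow_mul hX0.le]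
    norm_num
  have e3 : (X:ℝ) ^ (-(16 + 1/8) : ℝ) = (X:ℝ) ^ (-16 : ℝ) * (X:ℝ) ^ (-(1/8) : ℝ) := by
    rw [← Real.rpow_add hX0]; norm_num
  have e4 : (X:ℝ) ^ 2 * (X:ℝ) ^ (-(39/2) : ℝ) ≤ (X:ℝ) ^ (-(16 + 1/8) : ℝ) := by
    rw [← Real.rpow_natCast, ← Real.rpow_add hX0]
    exact Real.rpow_le_rpow_of_exponent_le (by linarith) (by norm_num)
  have hX16 : 0 ≤ (X:ℝ) ^ (-(16 + 1/8) : ℝ) := by positivity
  have hDD := DD_nonneg
  have f1 : 2 * (3 * h * (DD * (X:ℝ) ^ (-(1/8) : ℝ))) ≤ 2 * DD * (X:ℝ) ^ (-(16 + 1/8) : ℝ) := by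
    rw [e1, e3]
    have : 0 ≤ DD * ((X:ℝ) ^ (-16 : ℝ) * (X:ℝ) ^ (-(1/8) : ℝ)) := by positivity
    linarith
  have f2 : 4 * (X:ℝ) ^ 2 * T ^ (-(39/32) : ℝ) * (-(1:ℝ) ^ (-(33/32) + 1 : ℝ) / (-(33/32) + 1)) ≤
      128 * (X:ℝ) ^ (-(16 + 1/8) : ℝ) := by
    rw [Real.one_rpow, e2]
    linarith
  have := mul_le_mul_of_nonneg_left hs (show (0:ℝ) ≤ 2 by norm_num)
  linarith

end

end Pool.Agent.H437R2
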