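import Pool.Agent.H437R2.A3c
set_option autoImplicit false

open MeasureTheory Filter Topology Set

namespace Pool.Agent.H437R2

noncomputable section

open scoped ComplexConjugate

lemma conj_cpow_real {y : ℝ} (hy : 0 < y) (a : ℂ) : conj ((y : ℂ) ^ a) = (y : ℂ) ^ (conj a) := by
  have h1 : (y : ℂ).arg ≠ Real.pi := by
    rw [Complex.arg_ofReal_of_nonneg hy.le]
    exact Real.pi_pos.ne
  have := Complex.cpow_conj (y : ℂ) a h1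
  rw [Complex.conj_ofReal] at this
  exact this.symm

/-- the kernel integral -/
lemma kernel_int {w : ℂ} (hw : 0 < w.re) :
    IntegrableOn (fun y : ℝ => 2 * (y : ℂ) ^ (-w - 1) - (y : ℂ) ^ (-w - 2)) (Ioi (1/2)) ∧
    ∫ y in Ioi (1/2 : ℝ), (2 * (y : ℂ) ^ (-w - 1) - (y : ℂ) ^ (-w - 2)) =
      2 * (((1/2 : ℝ) : ℂ) ^ (-w)) / (w * (w + 1)) := by
  have hw0 : w ≠ 0 := by
    rintro rfl
    simp at hw
  have hw1 : w + 1 ≠ 0 := by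
    intro h
    have : (w + 1).re = 0 := by rw [h]; simp
    simp at this
    linarith
  have hp : (0:ℝ) < 1/2 := by norm_num
  have h1 : (-w - 1).re < -1 := by simp; linarith
  have h2 : (-w - 2).re < -1 := by simp; linarith
  have i1 := integrableOn_Ioi_cpow_of_lt h1 hp
  have i2 := integrableOn_Ioi_cpow_of_lt h2 hp
  refine ⟨(i1.const_mul 2).sub i2, ?_⟩
  rw [integral_sub (i1.const_mul 2) i2, integral_const_mul, integral_Ioi_cpow_of_lt h1 hp,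
    integral_Ioi_cpow_of_lt h2 hp]
  have e1 : -w - 1 + 1 = -w := by ring
  have e2 : -w - 2 + 1 = -w - 1 := by ring
  rw [e1, e2]
  have hc : ((1/2 : ℝ) : ℂ) ≠ 0 := by norm_num
  rw [Complex.cpow_sub _ _ hc, Complex.cpow_one]
  have hne : -w - 1 ≠ 0 := by
    intro h
    apply hw1
    linear_combination -h
  have hnw : -w ≠ 0 := neg_ne_zero.2 hw0
  push_cast
  field_simp
  ring

lemma kernel_norm {w : ℂ} (hw : 0 < w.re) (hw2 : w.re ≤ 1) :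
    ‖2 * (((1/2 : ℝ) : ℂ) ^ (-w)) / (w * (w + 1))‖ ≤ 4 / ‖w‖ ^ 2 := by
  have hw0 : w ≠ 0 := by
    rintro rfl
    simp at hw
  have hwn : 0 < ‖w‖ := norm_pos_iff.2 hw0
  have h1 : ‖w‖ ≤ ‖w + 1‖ := by
    rw [Complex.norm_def, Complex.norm_def]
    apply Real.sqrt_le_sqrt
    rw [Complex.normSq_apply, Complex.normSq_apply]
    simp
    nlinarith
  have h2 : ‖((1/2 : ℝ) : ℂ) ^ (-w)‖ ≤ 2 := by
    rw [Complex.norm_cpow_eq_rpow_re_of_pos (by norm_num), Complex.neg_re]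
    have e : ((1:ℝ)/2) ^ (-w.re) = 2 ^ (w.re) := by
      rw [one_div, Real.inv_rpow (by norm_num), Real.rpow_neg (by norm_num), inv_inv]
    rw [e]
    calc (2:ℝ) ^ w.re ≤ 2 ^ (1:ℝ) := Real.rpow_le_rpow_of_exponent_le (by norm_num) hw2
      _ = 2 := Real.rpow_one 2
  rw [norm_div, norm_mul, norm_mul]
  have h3 : ‖(2:ℂ)‖ = 2 := by simp
  rw [h3]
  have h4 : ‖w‖ ^ 2 ≤ ‖w‖ * ‖w + 1‖ := by nlinarith
  calc 2 * ‖((1/2 : ℝ) : ℂ) ^ (-w)‖ / (‖w‖ * ‖w + 1‖) ≤ 2 * 2 / (‖w‖ ^ 2) := by gcongr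
    _ = 4 / ‖w‖ ^ 2 := by norm_num

theorem bessel (Z : Finset ℂ) (hZ1 : ∀ ρ ∈ Z, 11/16 ≤ ρ.re) (hZ2 : ∀ ρ ∈ Z, ρ.re < 1) (c : ℝ → ℝ)
    (hci : IntegrableOn (fun y : ℝ => (c y) ^ 2 * y ^ (-(9/4) : ℝ)) (Ioi 1)) (z : ℂ → ℂ)
    (hz : ∀ ρ ∈ Z, ∫ y in Ioi (1:ℝ), (y : ℂ) ^ (-ρ - 1) * ((c y : ℝ) : ℂ) = z ρ)
    (hzi : ∀ ρ ∈ Z, IntegrableOn (fun y : ℝ => (y : ℂ) ^ (-ρ - 1) * ((c y : ℝ) : ℂ)) (Ioi 1))
    (B : ℝ) (hB : 0 < B) (hB' : ∀ ρ ∈ Z, ∑ ρ' ∈ Z, 4 / ‖ρ + conj ρ' - 5/4‖ ^ 2 ≤ B) :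
    ∑ ρ ∈ Z, ‖z ρ‖ ^ 2 ≤ B * ∫ y in Ioi (1:ℝ), (c y) ^ 2 * y ^ (-(9/4) : ℝ) := by
  set S := ∑ ρ ∈ Z, ‖z ρ‖ ^ 2 with hS
  set Q := ∫ y in Ioi (1:ℝ), (c y) ^ 2 * y ^ (-(9/4) : ℝ) with hQ
  set P : ℝ → ℂ := fun y => ∑ ρ ∈ Z, conj (z ρ) * (y : ℂ) ^ (-ρ - 1) with hP
  have hw : ∀ ρ ∈ Z, ∀ ρ' ∈ Z, 0 < (ρ + conj ρ' - 5/4).re ∧ (ρ + conj ρ' - 5/4).re ≤ 1 := by
    intro ρ hρ ρ' hρ'
    have e : (ρ + conj ρ' - 5/4).re = ρ.re + ρ'.re - 5/4 := by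
      simp
    rw [e]
    constructor
    · linarith [hZ1 ρ hρ, hZ1 ρ' hρ']
    · linarith [hZ2 ρ hρ, hZ2 ρ' hρ']
  -- the weighted square of P
  have hsq : ∀ y ∈ Ioi (1/2 : ℝ), (((2 - 1 / y) * (‖P y‖ ^ 2 * y ^ (9/4 : ℝ)) : ℝ) : ℂ) =
      ∑ ρ ∈ Z, ∑ ρ' ∈ Z, conj (z ρ) * z ρ' *
        (2 * (y : ℂ) ^ (-(ρ + conj ρ' - 5/4) - 1) - (y : ℂ) ^ (-(ρ + conj ρ' - 5/4) - 2)) := by
    intro y hy
    have hy2 : (1/2:ℝ) < y := hy
    have hy0 : 0 < y := by linarith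
    have hyc : (y : ℂ) ≠ 0 := by exact_mod_cast hy0.ne'
    have h1 : ((‖P y‖ ^ 2 : ℝ) : ℂ) = ∑ ρ ∈ Z, ∑ ρ' ∈ Z, conj (z ρ) * z ρ' *
        ((y : ℂ) ^ (-ρ - 1) * (y : ℂ) ^ (-conj ρ' - 1)) := by
      rw [← Complex.normSq_eq_norm_sq, ← Complex.mul_conj, hP]
      simp only [map_sum, map_mul, Complex.conj_conj]
      rw [Finset.sum_mul_sum]
      refine Finset.sum_congr rfl fun ρ _ => Finset.sum_congr rfl fun ρ' _ => ?_
      rw [conj_cpow_real hy0]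
      simp only [map_sub, map_neg, map_one]
      ring
    rw [Complex.ofReal_mul, Complex.ofReal_mul, h1]
    rw [Finset.sum_mul, Finset.mul_sum]
    refine Finset.sum_congr rfl fun ρ _ => ?_
    rw [Finset.sum_mul, Finset.mul_sum]
    refine Finset.sum_congr rfl fun ρ' _ => ?_
    rw [Complex.ofReal_cpow hy0.le]
    have e1 : (y : ℂ) ^ (-ρ - 1) * (y : ℂ) ^ (-conj ρ' - 1) * (y : ℂ) ^ (((9/4 : ℝ)) : ℂ) =
        (y : ℂ) ^ (-(ρ + conj ρ' - 5/4) - 1) := by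
      rw [← Complex.cpow_add _ _ hyc, ← Complex.cpow_add _ _ hyc]
      congr 1
      push_cast
      ring
    have e2 : (y : ℂ) ^ (-(ρ + conj ρ' - 5/4) - 2) = (y : ℂ) ^ (-(ρ + conj ρ' - 5/4) - 1) / y := by
      have : -(ρ + conj ρ' - 5/4) - 2 = (-(ρ + conj ρ' - 5/4) - 1) - 1 := by ring
      rw [this, Complex.cpow_sub _ _ hyc, Complex.cpow_one]
    rw [e2, ← e1]
    push_cast
    field_simp
  have hKi : ∀ ρ ∈ Z, ∀ ρ' ∈ Z, IntegrableOn (fun y : ℝ => conj (z ρ) * z ρ' *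
        (2 * (y : ℂ) ^ (-(ρ + conj ρ' - 5/4) - 1) - (y : ℂ) ^ (-(ρ + conj ρ' - 5/4) - 2))) (Ioi (1/2)) :=
    fun ρ hρ ρ' hρ' => (kernel_int (hw ρ hρ ρ' hρ').1).1.const_mul _
  have hKi2 : ∀ ρ ∈ Z, IntegrableOn (fun y : ℝ => ∑ ρ' ∈ Z, conj (z ρ) * z ρ' *
        (2 * (y : ℂ) ^ (-(ρ + conj ρ' - 5/4) - 1) - (y : ℂ) ^ (-(ρ + conj ρ' - 5/4) - 2))) (Ioi (1/2)) :=
    fun ρ hρ => integrable_finsetSum _ (fun ρ' hρ' => hKi ρ hρ ρ' hρ')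
  have hKi3 : IntegrableOn (fun y : ℝ => ∑ ρ ∈ Z, ∑ ρ' ∈ Z, conj (z ρ) * z ρ' *
        (2 * (y : ℂ) ^ (-(ρ + conj ρ' - 5/4) - 1) - (y : ℂ) ^ (-(ρ + conj ρ' - 5/4) - 2))) (Ioi (1/2)) :=
    integrable_finsetSum _ (fun ρ hρ => hKi2 ρ hρ)
  have hWi : IntegrableOn (fun y : ℝ => (2 - 1 / y) * (‖P y‖ ^ 2 * y ^ (9/4 : ℝ))) (Ioi (1/2)) := by
    have h1 := (integrableOn_congr_fun hsq measurableSet_Ioi).2 hKi3
    have h2 := h1.re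
    refine h2.congr ?_
    exact Eventually.of_forall fun y => by
      simp only [RCLike.re_to_complex, Complex.ofReal_re]
  have hWle : ∫ y in Ioi (1/2 : ℝ), (2 - 1 / y) * (‖P y‖ ^ 2 * y ^ (9/4 : ℝ)) ≤ B * S := by
    have h1 : ((∫ y in Ioi (1/2 : ℝ), (2 - 1 / y) * (‖P y‖ ^ 2 * y ^ (9/4 : ℝ)) : ℝ) : ℂ) =
        ∑ ρ ∈ Z, ∑ ρ' ∈ Z, conj (z ρ) * z ρ' *
          (2 * (((1/2 : ℝ) : ℂ) ^ (-(ρ + conj ρ' - 5/4))) /
            ((ρ + conj ρ' - 5/4) * ((ρ + conj ρ' - 5/4) + 1))) := by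
      rw [← integral_complex_ofReal, setIntegral_congr_fun measurableSet_Ioi hsq,
        integral_finsetSum _ (fun ρ hρ => hKi2 ρ hρ)]
      refine Finset.sum_congr rfl fun ρ hρ => ?_
      rw [integral_finsetSum _ (fun ρ' hρ' => hKi ρ hρ ρ' hρ')]
      refine Finset.sum_congr rfl fun ρ' hρ' => ?_
      rw [integral_const_mul, (kernel_int (hw ρ hρ ρ' hρ').1).2]
    have h2 : ∫ y in Ioi (1/2 : ℝ), (2 - 1 / y) * (‖P y‖ ^ 2 * y ^ (9/4 : ℝ)) ≤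
        ∑ ρ ∈ Z, ∑ ρ' ∈ Z, (‖z ρ‖ ^ 2 + ‖z ρ'‖ ^ 2) / 2 * (4 / ‖ρ + conj ρ' - 5/4‖ ^ 2) := by
      refine (le_abs_self _).trans ?_
      rw [← Real.norm_eq_abs, ← Complex.norm_real, h1]
      refine (norm_sum_le _ _).trans (Finset.sum_le_sum fun ρ hρ => ?_)
      refine (norm_sum_le _ _).trans (Finset.sum_le_sum fun ρ' hρ' => ?_)
      rw [norm_mul, norm_mul, RCLike.norm_conj]
      have h3 := kernel_norm (hw ρ hρ ρ' hρ').1 (hw ρ hρ ρ' hρ').2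
      have h4 : ‖z ρ‖ * ‖z ρ'‖ ≤ (‖z ρ‖ ^ 2 + ‖z ρ'‖ ^ 2) / 2 := by
        nlinarith [sq_nonneg (‖z ρ‖ - ‖z ρ'‖)]
      exact mul_le_mul h4 h3 (norm_nonneg _) (by positivity)
    refine h2.trans ?_
    have e : ∀ ρ ρ' : ℂ, (‖z ρ‖ ^ 2 + ‖z ρ'‖ ^ 2) / 2 * (4 / ‖ρ + conj ρ' - 5/4‖ ^ 2) =
        ‖z ρ‖ ^ 2 / 2 * (4 / ‖ρ + conj ρ' - 5/4‖ ^ 2) + ‖z ρ'‖ ^ 2 / 2 * (4 / ‖ρ' + conj ρ - 5/4‖ ^ 2) := by
      intro ρ ρ'
      have : ‖ρ' + conj ρ - 5/4‖ = ‖ρ + conj ρ' - 5/4‖ := by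
        rw [← RCLike.norm_conj]
        congr 1
        simp only [map_sub, map_add, Complex.conj_conj, map_div₀, map_ofNat]
        ring
      rw [this]
      ring
    simp_rw [e, Finset.sum_add_distrib]
    have h5 : ∑ ρ ∈ Z, ∑ ρ' ∈ Z, ‖z ρ‖ ^ 2 / 2 * (4 / ‖ρ + conj ρ' - 5/4‖ ^ 2) ≤ B * S / 2 := by
      rw [hS, Finset.mul_sum, Finset.sum_div]
      refine Finset.sum_le_sum fun ρ hρ => ?_
      rw [← Finset.mul_sum]
      have := mul_le_mul_of_nonneg_left (hB' ρ hρ) (show 0 ≤ ‖z ρ‖ ^ 2 / 2 by positivity)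
      linarith
    have h6 : ∑ ρ ∈ Z, ∑ ρ' ∈ Z, ‖z ρ'‖ ^ 2 / 2 * (4 / ‖ρ' + conj ρ - 5/4‖ ^ 2) ≤ B * S / 2 := by
      rw [Finset.sum_comm]
      exact h5
    linarith
  have hPi : IntegrableOn (fun y : ℝ => ‖P y‖ ^ 2 * y ^ (9/4 : ℝ)) (Ioi 1) := by
    have hsub : Ioi (1:ℝ) ⊆ Ioi (1/2) := Ioi_subset_Ioi (by norm_num)
    refine Integrable.mono' (hWi.mono_set hsub) ?_ ?_
    · refine ContinuousOn.aestronglyMeasurable ?_ measurableSet_Ioi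
      intro y hy
      have hy1 : (1:ℝ) < y := hy
      refine ContinuousAt.continuousWithinAt ?_
      refine ContinuousAt.mul ?_ (Real.continuousAt_rpow_const _ _ (Or.inl (by linarith)))
      refine ContinuousAt.pow (ContinuousAt.norm ?_) 2
      rw [hP]
      refine tendsto_finsetSum _ fun ρ _ => ?_
      exact continuousAt_const.mul (Complex.continuousAt_ofReal_cpow_const _ _ (Or.inr (by linarith)))
    · refine (ae_restrict_mem measurableSet_Ioi).mono fun y hy => ?_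
      have hy1 : (1:ℝ) < y := hy
      have h0 : 0 ≤ ‖P y‖ ^ 2 * y ^ (9/4 : ℝ) := by
        have := Real.rpow_nonneg (show (0:ℝ) ≤ y by linarith) (9/4)
        positivity
      rw [Real.norm_of_nonneg h0]
      have h1 : 1 ≤ 2 - 1 / y := by
        have : 1 / y ≤ 1 := by rw [div_le_one (by linarith)]; exact hy1.le
        linarith
      nlinarith
  have hPle : ∫ y in Ioi (1:ℝ), ‖P y‖ ^ 2 * y ^ (9/4 : ℝ) ≤ B * S := by
    have hsub : Ioi (1:ℝ) ⊆ Ioi (1/2) := Ioi_subset_Ioi (by norm_num)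
    have h1 : ∫ y in Ioi (1:ℝ), ‖P y‖ ^ 2 * y ^ (9/4 : ℝ) ≤
        ∫ y in Ioi (1:ℝ), (2 - 1 / y) * (‖P y‖ ^ 2 * y ^ (9/4 : ℝ)) := by
      refine setIntegral_mono_on hPi (hWi.mono_set hsub) measurableSet_Ioi fun y hy => ?_
      have hy1 : (1:ℝ) < y := hy
      have h0 : 0 ≤ ‖P y‖ ^ 2 * y ^ (9/4 : ℝ) := by
        have := Real.rpow_nonneg (show (0:ℝ) ≤ y by linarith) (9/4)
        positivity
      have h1 : 1 ≤ 2 - 1 / y := by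
        have : 1 / y ≤ 1 := by rw [div_le_one (by linarith)]; exact hy1.le
        linarith
      nlinarith
    have h2 : ∫ y in Ioi (1:ℝ), (2 - 1 / y) * (‖P y‖ ^ 2 * y ^ (9/4 : ℝ)) ≤
        ∫ y in Ioi (1/2:ℝ), (2 - 1 / y) * (‖P y‖ ^ 2 * y ^ (9/4 : ℝ)) := by
      refine setIntegral_mono_set hWi ?_ (LE.le.eventuallyLE hsub)
      refine (ae_restrict_mem measurableSet_Ioi).mono fun y hy => ?_
      have hy1 : (1/2:ℝ) < y := hy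
      have h0 : 0 ≤ ‖P y‖ ^ 2 * y ^ (9/4 : ℝ) := by
        have := Real.rpow_nonneg (show (0:ℝ) ≤ y by linarith) (9/4)
        positivity
      have h1 : 0 ≤ 2 - 1 / y := by
        have : 1 / y ≤ 2 := by rw [div_le_iff₀ (by linarith)]; linarith
        linarith
      exact mul_nonneg h1 h0
    exact h1.trans (h2.trans hWle)
  -- the main identity
  have hmain : ((S : ℝ) : ℂ) = ∫ y in Ioi (1:ℝ), P y * ((c y : ℝ) : ℂ) := by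
    have h1 : ∀ y : ℝ, P y * ((c y : ℝ) : ℂ) = ∑ ρ ∈ Z, conj (z ρ) * ((y : ℂ) ^ (-ρ - 1) * ((c y : ℝ) : ℂ)) := by
      intro y
      rw [hP]
      simp only [Finset.sum_mul]
      refine Finset.sum_congr rfl fun ρ _ => ?_
      ring
    simp_rw [h1]
    rw [integral_finsetSum _ (fun ρ hρ => (hzi ρ hρ).const_mul _)]
    rw [hS]
    push_cast
    refine Finset.sum_congr rfl fun ρ hρ => ?_
    rw [integral_const_mul, hz ρ hρ, ← Complex.normSq_eq_conj_mul_self, Complex.normSq_eq_norm_sq]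
    push_cast
    rfl
  have hSle : S ≤ ∫ y in Ioi (1:ℝ), (B / 2 * ((c y) ^ 2 * y ^ (-(9/4) : ℝ)) +
      1 / (2 * B) * (‖P y‖ ^ 2 * y ^ (9/4 : ℝ))) := by
    refine (le_abs_self _).trans ?_
    rw [← Real.norm_eq_abs, ← Complex.norm_real, hmain]
    refine norm_integral_le_of_norm_le ((hci.const_mul _).add (hPi.const_mul _)) ?_
    refine (ae_restrict_mem measurableSet_Ioi).mono fun y hy => ?_
    have hy1 : (1:ℝ) < y := hy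
    have hy0 : 0 < y := by linarith
    rw [norm_mul, Complex.norm_real, Real.norm_eq_abs]
    set u := y ^ (9/4 : ℝ) with hu
    have hu0 : 0 < u := Real.rpow_pos_of_pos hy0 _
    rw [Real.rpow_neg hy0.le, ← hu]
    have key : 0 ≤ (B * |c y| * u⁻¹ - ‖P y‖) ^ 2 := sq_nonneg _
    have e : B / 2 * ((c y) ^ 2 * u⁻¹) + 1 / (2 * B) * (‖P y‖ ^ 2 * u) - ‖P y‖ * |c y| =
        (B * |c y| * u⁻¹ - ‖P y‖) ^ 2 * u / (2 * B) := by
      rw [← sq_abs (c y)]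
      field_simp
      ring
    have : 0 ≤ (B * |c y| * u⁻¹ - ‖P y‖) ^ 2 * u / (2 * B) := by positivity
    linarith
  rw [integral_add (hci.const_mul _) (hPi.const_mul _), integral_const_mul, integral_const_mul, ← hQ] at hSle
  have h7 : 1 / (2 * B) * ∫ y in Ioi (1:ℝ), ‖P y‖ ^ 2 * y ^ (9/4 : ℝ) ≤ 1 / (2 * B) * (B * S) := by gcongr
  have h8 : 1 / (2 * B) * (B * S) = S / 2 := by field_simp
  linarith

end

end Pool.Agent.H437R2
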