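import Pool.Agent.H437R2.A3e
set_option autoImplicit false

open MeasureTheory Filter Topology Set

namespace Pool.Agent.H437R2

noncomputable section

lemma log_pow_le (j : ℕ) : Real.log (((2:ℝ) ^ (j + 1)) ^ 16 + 5) ≤ 20 * (j + 1) := by
  have h1 : ((2:ℝ) ^ (j + 1)) ^ 16 + 5 ≤ (2:ℝ) ^ (20 * (j + 1)) := by
    have h2 : (1:ℝ) ≤ (2:ℝ) ^ (j + 1) := one_le_pow₀ (by norm_num)
    have h3 : (2:ℝ) ≤ (2:ℝ) ^ (j + 1) := by
      calc (2:ℝ) = 2 ^ 1 := by norm_num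
        _ ≤ 2 ^ (j + 1) := pow_le_pow_right₀ (by norm_num) (by omega)
    have h4 : (2:ℝ) ^ (20 * (j + 1)) = ((2:ℝ) ^ (j + 1)) ^ 16 * ((2:ℝ) ^ (j + 1)) ^ 4 := by
      rw [← pow_add, ← pow_mul]; ring_nf
    rw [h4]
    have h5 : (16:ℝ) ≤ ((2:ℝ) ^ (j + 1)) ^ 4 := by
      calc (16:ℝ) = 2 ^ 4 := by norm_num
        _ ≤ _ := by gcongr
    have h6 : (1:ℝ) ≤ ((2:ℝ) ^ (j + 1)) ^ 16 := one_le_pow₀ h2
    nlinarith
  calc Real.log (((2:ℝ) ^ (j + 1)) ^ 16 + 5) ≤ Real.log ((2:ℝ) ^ (20 * (j + 1))) :=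
        Real.log_le_log (by positivity) h1
    _ = (20 * (j + 1) : ℕ) * Real.log 2 := by rw [Real.log_pow]
    _ ≤ (20 * (j + 1) : ℕ) * 1 := by
        gcongr
        have := Real.log_two_lt_d9
        linarith
    _ = 20 * (j + 1) := by push_cast; ring

/-- sum of the inverse ordinates of the zeros with real part `≥ 11/16` converges -/
theorem inv_sum_bounded : ∃ S : ℝ, 0 < S ∧ ∀ Z : Finset ℂ, (∀ ρ ∈ Z, IsZ ρ) →
    ∑ ρ ∈ Z, 1 / |ρ.im| ≤ S := by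
  classical
  obtain ⟨C, hC, hblock⟩ := block_count
  -- low zeros
  have hK : IsCompact (Icc (11/16 : ℝ) 1 ×ℂ Icc (-1 : ℝ) 1) := isCompact_Icc.reProdIm isCompact_Icc
  have hfin := zeros_finite riemannZeta₁ differentiable_riemannZeta₁ ⟨1, by simp⟩ _ hK
  set F0 := hfin.toFinset with hF0
  set S0 := ∑ ρ ∈ F0, 1 / |ρ.im| with hS0
  have hS0n : 0 ≤ S0 := Finset.sum_nonneg fun ρ _ => by positivity
  -- the series
  set r : ℝ := (2:ℝ) ^ (-(1/8) : ℝ) with hr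
  have hr0 : 0 < r := by positivity
  have hr1 : r < 1 := Real.rpow_lt_one_of_one_lt_of_neg (by norm_num) (by norm_num)
  have hser : Summable (fun n : ℕ => (n:ℝ) ^ 1 * r ^ n) :=
    summable_pow_mul_geometric_of_norm_lt_one 1 (by rw [Real.norm_of_nonneg hr0.le]; exact hr1)
  have hser2 : Summable (fun j : ℕ => 65536 * (20 * C) * (((j + 1 : ℕ):ℝ) ^ 1 * r ^ (j + 1))) :=
    ((summable_nat_add_iff 1).2 hser).mul_left _
  set S1 := ∑' j : ℕ, 65536 * (20 * C) * (((j + 1 : ℕ):ℝ) ^ 1 * r ^ (j + 1)) with hS1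
  have hS1n : 0 ≤ S1 := tsum_nonneg fun j => by positivity
  refine ⟨S0 + S1 + 1, by positivity, fun Z hZ => ?_⟩
  have hsplit := Finset.sum_filter_add_sum_filter_not Z (fun ρ => |ρ.im| < 1) (fun ρ => 1 / |ρ.im|)
  rw [← hsplit]
  have hlow : ∑ ρ ∈ Z.filter (fun ρ => |ρ.im| < 1), 1 / |ρ.im| ≤ S0 := by
    refine Finset.sum_le_sum_of_subset_of_nonneg ?_ (fun _ _ _ => by positivity)
    intro ρ hρ
    rw [Finset.mem_filter] at hρ
    rw [hF0, hfin.mem_toFinset]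
    obtain ⟨h1, h2⟩ := hρ
    have h3 := abs_lt.1 h2
    refine ⟨(hZ ρ h1).1, ?_⟩
    rw [Complex.mem_reProdIm]
    exact ⟨⟨(hZ ρ h1).2, (z1_zero_re (hZ ρ h1).1).le⟩, ⟨h3.1.le, h3.2.le⟩⟩
  set Zh := Z.filter (fun ρ => ¬ |ρ.im| < 1) with hZh
  set jj : ℂ → ℕ := fun ρ => Nat.log 65536 ⌊|ρ.im|⌋₊ with hjj
  have hZh1 : ∀ ρ ∈ Zh, IsZ ρ ∧ 1 ≤ |ρ.im| := by
    intro ρ hρ
    rw [hZh, Finset.mem_filter] at hρ
    exact ⟨hZ ρ hρ.1, not_lt.1 hρ.2⟩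
  have hbd : ∀ ρ ∈ Zh, (65536:ℝ) ^ (jj ρ) ≤ |ρ.im| ∧ |ρ.im| ≤ (65536:ℝ) ^ (jj ρ + 1) := by
    intro ρ hρ
    have h1 := (hZh1 ρ hρ).2
    have hfl : ⌊|ρ.im|⌋₊ ≠ 0 := by
      have : 1 ≤ ⌊|ρ.im|⌋₊ := (Nat.one_le_floor_iff _).2 h1
      omega
    constructor
    · have h2 := Nat.pow_log_le_self 65536 hfl
      have h3 : ((65536 ^ (jj ρ) : ℕ) : ℝ) ≤ (⌊|ρ.im|⌋₊ : ℝ) := by exact_mod_cast h2
      push_cast at h3
      exact h3.trans (Nat.floor_le (abs_nonneg _))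
    · have h2 := Nat.lt_pow_succ_log_self (b := 65536) (by norm_num) ⌊|ρ.im|⌋₊
      have h3 : (⌊|ρ.im|⌋₊ : ℝ) + 1 ≤ ((65536 ^ (jj ρ + 1) : ℕ) : ℝ) := by exact_mod_cast h2
      push_cast at h3
      exact (Nat.lt_floor_add_one _).le.trans h3
  have hhigh : ∑ ρ ∈ Zh, 1 / |ρ.im| ≤ S1 := by
    have h1 : ∀ ρ ∈ Zh, 1 / |ρ.im| ≤ (fun j : ℕ => 1 / (65536:ℝ) ^ j) (jj ρ) := by
      intro ρ hρ
      have := (hbd ρ hρ).1
      exact one_div_le_one_div_of_le (by positivity) this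
    refine (Finset.sum_le_sum h1).trans ?_
    rw [Finset.sum_comp (fun j : ℕ => 1 / (65536:ℝ) ^ j) jj]
    have h2 : ∀ j ∈ Finset.image jj Zh, (Zh.filter (fun a => jj a = j)).card • (1 / (65536:ℝ) ^ j) ≤
        65536 * (20 * C) * (((j + 1 : ℕ):ℝ) ^ 1 * r ^ (j + 1)) := by
      intro j _
      have h3 := hblock (2 ^ (j + 1)) (Zh.filter (fun a => jj a = j)) (by
        calc 2 = 2 ^ 1 := by norm_num
          _ ≤ 2 ^ (j + 1) := Nat.pow_le_pow_right (by norm_num) (by omega)) (fun ρ hρ => by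
        rw [Finset.mem_filter] at hρ
        obtain ⟨hρ1, hρ2⟩ := hρ
        refine ⟨(hZh1 ρ hρ1).1, (hZh1 ρ hρ1).2, ?_⟩
        have h4 := (hbd ρ hρ1).2
        rw [hρ2] at h4
        refine h4.trans (le_of_eq ?_)
        push_cast
        rw [← pow_mul, mul_comm, pow_mul]
        norm_num)
      push_cast at h3
      rw [nsmul_eq_mul]
      have hlog := log_pow_le j
      have e1 : ((2:ℝ) ^ (j + 1)) ^ (16 - 1/8 : ℝ) = ((65536:ℝ) ^ (j + 1)) * r ^ (j + 1) := by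
        rw [hr, ← Real.rpow_natCast (2:ℝ), ← Real.rpow_natCast ((2:ℝ) ^ (-(1/8) : ℝ)), ← Real.rpow_mul (by norm_num),
          ← Real.rpow_mul (by norm_num)]
        have : (65536:ℝ) = 2 ^ (16:ℝ) := by norm_num
        rw [this, ← Real.rpow_natCast ((2:ℝ) ^ (16:ℝ)), ← Real.rpow_mul (by norm_num), ← Real.rpow_add (by norm_num)]
        congr 1
        push_cast
        ring
      have e2 : (65536:ℝ) ^ (j + 1) = 65536 * 65536 ^ j := by rw [pow_succ]; ring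
      have hp : (0:ℝ) < 65536 ^ j := by positivity
      calc ((Zh.filter (fun a => jj a = j)).card : ℝ) * (1 / (65536:ℝ) ^ j)
          ≤ (C * ((2:ℝ) ^ (j + 1)) ^ (16 - 1/8 : ℝ) * Real.log (((2:ℝ) ^ (j + 1)) ^ 16 + 5)) * (1 / (65536:ℝ) ^ j) := by
            gcongr
        _ ≤ (C * ((2:ℝ) ^ (j + 1)) ^ (16 - 1/8 : ℝ) * (20 * (j + 1))) * (1 / (65536:ℝ) ^ j) := by gcongr
        _ = 65536 * (20 * C) * (((j + 1 : ℕ):ℝ) ^ 1 * r ^ (j + 1)) := by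
            rw [e1, e2]
            push_cast
            field_simp
    refine (Finset.sum_le_sum h2).trans ?_
    exact hser2.sum_le_tsum _ (fun j _ => by positivity)
  linarith

end

end Pool.Agent.H437R2
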