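import Pool.Agent.H437R2.A3f
set_option autoImplicit false

open MeasureTheory Filter Topology Set

namespace Pool.Agent.H437R2

noncomputable section

def hst (ρ : ℂ) : ℝ := Real.pi / |ρ.im|
def eep (ρ : ℂ) : ℝ := Real.exp ((1 - ρ.re) * hst ρ)

/-- transform of a two point probability measure killing the zero `ρ` -/
def pf (ρ w : ℂ) : ℂ := (1 + eep ρ * Complex.exp (w * hst ρ)) / (1 + eep ρ)

lemma hst_nonneg (ρ : ℂ) : 0 ≤ hst ρ := by unfold hst; positivity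

lemma eep_pos (ρ : ℂ) : 0 < eep ρ := Real.exp_pos _

lemma one_add_eep_ne (ρ : ℂ) : (1 + (eep ρ : ℂ)) ≠ 0 := by
  have := eep_pos ρ
  have h : (1 + eep ρ : ℝ) ≠ 0 := by linarith
  exact_mod_cast h

lemma pf_eq {ρ : ℂ} (hρ : ρ.im ≠ 0) (w : ℂ) :
    pf ρ w = (1 - Complex.exp ((w - (ρ - 1)) * hst ρ)) / (1 + eep ρ) := by
  unfold pf
  congr 1
  have h1 : (eep ρ : ℂ) * Complex.exp (w * hst ρ) = - Complex.exp ((w - (ρ - 1)) * hst ρ) := by
    have e : (w - (ρ - 1)) * hst ρ = ((1 - ρ.re) * hst ρ : ℝ) + w * hst ρ + (-(ρ.im * hst ρ : ℝ)) * Complex.I := by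
      push_cast
      linear_combination (hst ρ : ℂ) * Complex.re_add_im ρ
    rw [e, Complex.exp_add, Complex.exp_add, ← Complex.ofReal_exp]
    have h2 : Complex.exp ((-(ρ.im * hst ρ : ℝ)) * Complex.I) = -1 := by
      have h3 : ρ.im * hst ρ = Real.pi ∨ ρ.im * hst ρ = -Real.pi := by
        unfold hst
        rcases lt_or_gt_of_ne hρ with h | h
        · right
          rw [abs_of_neg h]
          field_simp
        · left
          rw [abs_of_pos h]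
          field_simp
      rcases h3 with h3 | h3
      · rw [h3]
        have : (-((Real.pi : ℝ) : ℂ)) * Complex.I = -(Real.pi * Complex.I) := by ring
        rw [this, Complex.exp_neg, Complex.exp_pi_mul_I]
        norm_num
      · rw [h3]
        have : (-(((-Real.pi : ℝ)) : ℂ)) * Complex.I = (Real.pi * Complex.I) := by push_cast; ring
        rw [this, Complex.exp_pi_mul_I]
    rw [h2]
    unfold eep
    ring
  rw [h1]
  ring

lemma pf_zero {ρ : ℂ} (hρ : ρ.im ≠ 0) : pf ρ (ρ - 1) = 0 := by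
  rw [pf_eq hρ]
  simp

lemma norm_one_add_eep (ρ : ℂ) : ‖(1 + (eep ρ : ℂ))‖ = 1 + eep ρ := by
  have h : (1 + (eep ρ : ℂ)) = ((1 + eep ρ : ℝ) : ℂ) := by push_cast; rfl
  rw [h, Complex.norm_real, Real.norm_of_nonneg (by linarith [eep_pos ρ])]

lemma pf_norm (ρ : ℂ) {w : ℂ} (hw : w.re ≤ 1) : ‖pf ρ w‖ ≤ Real.exp (hst ρ) := by
  unfold pf
  have he := eep_pos ρ
  have hh := hst_nonneg ρ
  rw [norm_div, norm_one_add_eep, div_le_iff₀ (by linarith)]
  have h1 : ‖1 + (eep ρ : ℂ) * Complex.exp (w * hst ρ)‖ ≤ 1 + eep ρ * Real.exp (hst ρ) := by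
    refine (norm_add_le _ _).trans ?_
    rw [norm_one, norm_mul, Complex.norm_real, Real.norm_of_nonneg he.le, Complex.norm_exp]
    have h2 : (w * hst ρ).re = w.re * hst ρ := by simp
    rw [h2]
    have h3 : w.re * hst ρ ≤ hst ρ := by nlinarith
    have := Real.exp_le_exp.2 h3
    gcongr
  have h4 : 1 ≤ Real.exp (hst ρ) := Real.one_le_exp hh
  nlinarith

lemma norm_exp_sub_one_le' (z : ℂ) : ‖Complex.exp z - 1‖ ≤ ‖z‖ * Real.exp ‖z‖ := by
  have h := Complex.norm_exp_sub_sum_le_norm_mul_exp z 1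
  simpa using h

lemma pf_near {ρ : ℂ} (hρ : ρ.im ≠ 0) (w : ℂ) :
    ‖pf ρ w‖ ≤ ‖w - (ρ - 1)‖ * hst ρ * Real.exp (‖w - (ρ - 1)‖ * hst ρ) := by
  rw [pf_eq hρ, norm_div, norm_one_add_eep]
  have he := eep_pos ρ
  have hh := hst_nonneg ρ
  have h1 := norm_exp_sub_one_le' ((w - (ρ - 1)) * hst ρ)
  have h2 : ‖(w - (ρ - 1)) * (hst ρ : ℂ)‖ = ‖w - (ρ - 1)‖ * hst ρ := by
    rw [norm_mul, Complex.norm_real, Real.norm_of_nonneg hh]
  rw [h2] at h1
  rw [norm_sub_rev]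
  refine (div_le_self (norm_nonneg _) (by linarith)).trans h1

def phi (Z : Finset ℂ) (w : ℂ) : ℂ := ∏ ρ ∈ Z, pf ρ w

lemma phi_differentiable (Z : Finset ℂ) : Differentiable ℂ (phi Z) := by
  unfold phi
  have : ∀ ρ ∈ Z, Differentiable ℂ (pf ρ) := by
    intro ρ _
    unfold pf
    have h := one_add_eep_ne ρ
    fun_prop
  intro w
  have h2 := DifferentiableAt.fun_finsetProd (u := Z) (f := fun ρ w => pf ρ w) (x := w)
    (fun ρ hρ => this ρ hρ w)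
  exact h2

lemma phi_zero {Z : Finset ℂ} {ρ : ℂ} (hρZ : ρ ∈ Z) (hρ : ρ.im ≠ 0) : phi Z (ρ - 1) = 0 :=
  Finset.prod_eq_zero hρZ (pf_zero hρ)

lemma sum_hst {S : ℝ} {Z : Finset ℂ} (hS : ∑ ρ ∈ Z, 1 / |ρ.im| ≤ S) : ∑ ρ ∈ Z, hst ρ ≤ Real.pi * S := by
  have : ∑ ρ ∈ Z, hst ρ = Real.pi * ∑ ρ ∈ Z, 1 / |ρ.im| := by
    rw [Finset.mul_sum]
    refine Finset.sum_congr rfl fun ρ _ => ?_
    unfold hst
    ring
  rw [this]
  exact mul_le_mul_of_nonneg_left hS Real.pi_pos.le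

lemma phi_norm {S : ℝ} {Z : Finset ℂ} (hS : ∑ ρ ∈ Z, 1 / |ρ.im| ≤ S) {w : ℂ} (hw : w.re ≤ 1) :
    ‖phi Z w‖ ≤ Real.exp (Real.pi * S) := by
  unfold phi
  rw [norm_prod]
  refine (Finset.prod_le_prod (fun _ _ => norm_nonneg _) (fun ρ _ => pf_norm ρ hw)).trans ?_
  rw [← Real.exp_sum, Real.exp_le_exp]
  exact sum_hst hS

lemma phi_near {S : ℝ} {Z : Finset ℂ} (hS : ∑ ρ ∈ Z, 1 / |ρ.im| ≤ S) {w : ℂ} (hw : w.re ≤ 1)
    {ρ : ℂ} (hρZ : ρ ∈ Z) (hρ : ρ.im ≠ 0) (hwρ : ‖w - (ρ - 1)‖ ≤ 3) :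
    ‖phi Z w‖ ≤ Real.pi * S * Real.exp (4 * (Real.pi * S)) * ‖w - (ρ - 1)‖ := by
  classical
  have hsum := sum_hst hS
  have hle : hst ρ ≤ Real.pi * S :=
    (Finset.single_le_sum (fun ρ _ => hst_nonneg ρ) hρZ).trans hsum
  have hS0 : 0 ≤ Real.pi * S := (hst_nonneg ρ).trans hle
  unfold phi
  rw [norm_prod, ← Finset.mul_prod_erase Z _ hρZ]
  have h1 : ∏ a ∈ Z.erase ρ, ‖pf a w‖ ≤ Real.exp (Real.pi * S) := by
    refine (Finset.prod_le_prod (fun _ _ => norm_nonneg _) (fun ρ _ => pf_norm ρ hw)).trans ?_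
    rw [← Real.exp_sum, Real.exp_le_exp]
    refine le_trans ?_ hsum
    exact Finset.sum_le_sum_of_subset_of_nonneg (Finset.erase_subset _ _) (fun _ _ _ => hst_nonneg _)
  have h2 := pf_near hρ w
  have hn := norm_nonneg (w - (ρ - 1))
  have h3 : Real.exp (‖w - (ρ - 1)‖ * hst ρ) ≤ Real.exp (3 * (Real.pi * S)) := by
    rw [Real.exp_le_exp]
    exact mul_le_mul hwρ hle (hst_nonneg _) (by norm_num)
  calc ‖pf ρ w‖ * ∏ a ∈ Z.erase ρ, ‖pf a w‖
      ≤ (‖w - (ρ - 1)‖ * (Real.pi * S) * Real.exp (3 * (Real.pi * S))) * Real.exp (Real.pi * S) := by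
        refine mul_le_mul (h2.trans ?_) h1 (Finset.prod_nonneg fun _ _ => norm_nonneg _) (by positivity)
        gcongr
    _ = Real.pi * S * (Real.exp (3 * (Real.pi * S)) * Real.exp (Real.pi * S)) * ‖w - (ρ - 1)‖ := by ring
    _ = Real.pi * S * Real.exp (4 * (Real.pi * S)) * ‖w - (ρ - 1)‖ := by
        rw [← Real.exp_add]
        congr 3
        ring

/-- weights of the convex combination -/
def cc (Z A : Finset ℂ) : ℝ := by
  classical
  exact (∏ ρ ∈ A, eep ρ / (1 + eep ρ)) * ∏ ρ ∈ Z \ A, 1 / (1 + eep ρ)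

lemma cc_nonneg (Z A : Finset ℂ) : 0 ≤ cc Z A := by
  classical
  unfold cc
  refine mul_nonneg (Finset.prod_nonneg fun ρ _ => ?_) (Finset.prod_nonneg fun ρ _ => ?_)
  · have := eep_pos ρ
    positivity
  · have := eep_pos ρ
    positivity

lemma cc_sum (Z : Finset ℂ) : ∑ A ∈ Z.powerset, cc Z A = 1 := by
  classical
  unfold cc
  rw [← Finset.prod_add]
  refine Finset.prod_eq_one fun ρ _ => ?_
  have := eep_pos ρ
  field_simp
  ring

lemma phi_eq_sum (Z : Finset ℂ) (w : ℂ) :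
    phi Z w = ∑ A ∈ Z.powerset, (cc Z A : ℂ) * Complex.exp (w * (∑ ρ ∈ A, hst ρ : ℝ)) := by
  classical
  have h1 : ∀ ρ : ℂ, pf ρ w = (eep ρ : ℂ) / (1 + eep ρ) * Complex.exp (w * hst ρ) + 1 / (1 + eep ρ) := by
    intro ρ
    unfold pf
    have := one_add_eep_ne ρ
    field_simp
    ring
  unfold phi
  simp_rw [h1]
  rw [Finset.prod_add]
  refine Finset.sum_congr rfl fun A _ => ?_
  rw [Finset.prod_mul_distrib]
  unfold cc
  push_cast
  rw [Finset.mul_sum, Complex.exp_sum]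
  ring

end

end Pool.Agent.H437R2
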