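import Pool.Agent.H437R2.A4
set_option autoImplicit false

open MeasureTheory Filter Topology Set

namespace Pool.Agent.H437R2

noncomputable section

def gg (w : ℂ) : ℂ := riemannZeta₁ (1 + w)

lemma gg_diff : Differentiable ℂ gg := by
  unfold gg
  exact differentiable_riemannZeta₁.comp (by fun_prop)

lemma gg_deriv (w : ℂ) : deriv gg w = deriv riemannZeta₁ (1 + w) := by
  unfold gg
  exact deriv_comp_const_add _ _ _

lemma gg_zero : gg 0 = 1 := by simp [gg]

lemma gg_deriv_zero : deriv gg 0 = (Real.eulerMascheroniConstant : ℂ) := by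
  rw [gg_deriv]
  simp

def qq (w : ℂ) : ℂ := (Real.eulerMascheroniConstant : ℂ) - deriv gg w / gg w

def JJ (u : ℝ) (Z : Finset ℂ) (w : ℂ) : ℂ :=
  qq w / w * ((Complex.exp w - 1) / w) ^ 2 * phi Z w * Complex.exp (w * u)

def ZT (T : ℝ) : Finset ℂ :=
  (zeros_finite riemannZeta₁ differentiable_riemannZeta₁ ⟨1, by simp⟩
    (Icc (11/16 : ℝ) 1 ×ℂ Icc (-(T + 2)) (T + 2)) (isCompact_Icc.reProdIm isCompact_Icc)).toFinset

lemma mem_ZT {T : ℝ} {ρ : ℂ} : ρ ∈ ZT T ↔ riemannZeta₁ ρ = 0 ∧ 11/16 ≤ ρ.re ∧ |ρ.im| ≤ T + 2 := by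
  unfold ZT
  rw [Set.Finite.mem_toFinset]
  show riemannZeta₁ ρ = 0 ∧ ρ ∈ (Icc (11/16 : ℝ) 1 ×ℂ Icc (-(T + 2)) (T + 2)) ↔ _
  rw [Complex.mem_reProdIm, mem_Icc, mem_Icc, abs_le]
  constructor
  · rintro ⟨h1, ⟨h2, _⟩, h3⟩
    exact ⟨h1, h2, h3⟩
  · rintro ⟨h1, h2, h3⟩
    exact ⟨h1, ⟨h2, (z1_zero_re h1).le⟩, h3⟩

lemma ZT_IsZ {T : ℝ} {ρ : ℂ} (h : ρ ∈ ZT T) : IsZ ρ := ⟨(mem_ZT.1 h).1, (mem_ZT.1 h).2.1⟩

lemma ZT_im {T : ℝ} {ρ : ℂ} (h : ρ ∈ ZT T) : ρ.im ≠ 0 :=
  z1_zero_im (by linarith [(mem_ZT.1 h).2.1]) (mem_ZT.1 h).1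

/-- chosen bound for the sum of the inverse ordinates -/
def SS : ℝ := inv_sum_bounded.choose

lemma SS_pos : 0 < SS := inv_sum_bounded.choose_spec.1

lemma SS_spec (Z : Finset ℂ) (hZ : ∀ ρ ∈ Z, IsZ ρ) : ∑ ρ ∈ Z, 1 / |ρ.im| ≤ SS :=
  inv_sum_bounded.choose_spec.2 Z hZ

lemma phi_ZT_norm (T : ℝ) {w : ℂ} (hw : w.re ≤ 1) : ‖phi (ZT T) w‖ ≤ Real.exp (Real.pi * SS) :=
  phi_norm (SS_spec _ fun _ h => ZT_IsZ h) hw

lemma norm_list_sum_le {α : Type*} (L : List α) (f : α → ℂ) (b : ℝ) (hb : ∀ a ∈ L, ‖f a‖ ≤ b) :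
    ‖(L.map f).sum‖ ≤ L.length * b := by
  induction L with
  | nil => simp
  | cons a L ih =>
    have ih' := ih (fun x hx => hb x (List.mem_cons_of_mem _ hx))
    have hab := hb a (List.mem_cons_self)
    simp only [List.map_cons, List.sum_cons, List.length_cons]
    refine (norm_add_le _ _).trans ?_
    push_cast
    linarith

lemma qq_bound : ∃ C : ℝ, 0 < C ∧ ∀ (T : ℝ) (w : ℂ), -(1/4) ≤ w.re → w.re ≤ 1 → |w.im| ≤ T →
    gg w ≠ 0 → ‖qq w * phi (ZT T) w‖ ≤ C * ell w.im := by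
  obtain ⟨C, hC, h⟩ := zeta_local
  set E1 := Real.exp (Real.pi * SS) with hE1
  set E2 := Real.pi * SS * Real.exp (4 * (Real.pi * SS)) with hE2
  have hSS := SS_pos
  have hpi := Real.pi_pos
  have hE1p : 0 < E1 := Real.exp_pos _
  have hE2p : 0 < E2 := by positivity
  have hγ : |Real.eulerMascheroniConstant| ≤ 1 := by
    rw [abs_le]
    constructor
    · linarith [Real.one_half_lt_eulerMascheroniConstant]
    · linarith [Real.eulerMascheroniConstant_lt_two_thirds]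
  refine ⟨(1 + C) * E1 + C * (16 * E1 + E2), by positivity, fun T w hw1 hw2 hwT hgw => ?_⟩
  have hℓ := one_le_ell w.im
  obtain ⟨L, h1, h2, h3, h4⟩ := h w.im
  set s : ℂ := 1 + w with hs
  set c : ℂ := 2 + w.im * Complex.I with hc
  have hsc : ‖s - c‖ ≤ 5 / 4 := by
    have e : s - c = ((w.re - 1 : ℝ) : ℂ) := by
      rw [hs, hc]
      apply Complex.ext
      · simp; ring
      · simp
    rw [e, Complex.norm_real, Real.norm_eq_abs, abs_le]
    constructor <;> linarith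
  have hF := h4 s hsc hgw
  have hphi := phi_ZT_norm T hw2
  have hdec : qq w * phi (ZT T) w = (Real.eulerMascheroniConstant : ℂ) * phi (ZT T) w -
      (deriv riemannZeta₁ s / riemannZeta₁ s - (L.map (fun ρ => (s - ρ)⁻¹)).sum) * phi (ZT T) w -
      (L.map (fun ρ => (s - ρ)⁻¹ * phi (ZT T) w)).sum := by
    unfold qq
    rw [gg_deriv, List.sum_map_mul_right]
    unfold gg
    ring
  have hterm : ∀ ρ ∈ L, ‖(s - ρ)⁻¹ * phi (ZT T) w‖ ≤ 16 * E1 + E2 := by
    intro ρ hρ
    obtain ⟨hz, hd⟩ := h1 ρ hρ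
    have hsρ : s ≠ ρ := by
      rintro rfl
      exact hgw hz
    have hn0 : 0 < ‖s - ρ‖ := norm_pos_iff.2 (sub_ne_zero.2 hsρ)
    rw [norm_mul, norm_inv]
    by_cases hre : 11/16 ≤ ρ.re
    · have him : |ρ.im| ≤ T + 2 := by
        have := Complex.abs_im_le_norm (ρ - c)
        have e : (ρ - c).im = ρ.im - w.im := by rw [hc]; simp
        rw [e] at this
        have h5 := abs_sub_abs_le_abs_sub ρ.im w.im
        linarith
      have hmem : ρ ∈ ZT T := mem_ZT.2 ⟨hz, hre, him⟩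
      have hwρ : w - (ρ - 1) = s - ρ := by rw [hs]; ring
      have h6 : ‖w - (ρ - 1)‖ ≤ 3 := by
        rw [hwρ]
        have := norm_add_le (s - c) (c - ρ)
        rw [sub_add_sub_cancel, norm_sub_rev c ρ] at this
        linarith
      have h7 := phi_near (SS_spec _ fun _ h => ZT_IsZ h) hw2 hmem (ZT_im hmem) h6
      rw [hwρ] at h7
      have h8 : ‖s - ρ‖⁻¹ * ‖phi (ZT T) w‖ ≤ ‖s - ρ‖⁻¹ * (E2 * ‖s - ρ‖) := by gcongr
      have h9 : ‖s - ρ‖⁻¹ * (E2 * ‖s - ρ‖) = E2 := by field_simp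
      rw [h9] at h8
      linarith
    · push Not at hre
      have h10 : 1 / 16 ≤ ‖s - ρ‖ := by
        have := Complex.abs_re_le_norm (s - ρ)
        have e : (s - ρ).re = 1 + w.re - ρ.re := by rw [hs]; simp
        rw [e] at this
        have := le_abs_self (1 + w.re - ρ.re)
        linarith
      have h11 : ‖s - ρ‖⁻¹ ≤ 16 := by
        rw [inv_le_comm₀ hn0 (by norm_num)]
        linarith
      have h12 : ‖s - ρ‖⁻¹ * ‖phi (ZT T) w‖ ≤ 16 * E1 := by gcongr
      linarith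
  have hsum := norm_list_sum_le L _ _ hterm
  rw [hdec]
  have e1 : ‖(Real.eulerMascheroniConstant : ℂ) * phi (ZT T) w‖ ≤ 1 * E1 := by
    rw [norm_mul, Complex.norm_real, Real.norm_eq_abs]
    gcongr
  have e2 : ‖(deriv riemannZeta₁ s / riemannZeta₁ s - (L.map (fun ρ => (s - ρ)⁻¹)).sum) * phi (ZT T) w‖ ≤
      C * ell w.im * E1 := by
    rw [norm_mul]
    gcongr
  have e3 : (L.length : ℝ) * (16 * E1 + E2) ≤ C * ell w.im * (16 * E1 + E2) := by gcongr
  refine (norm_sub_le _ _).trans ?_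
  refine (add_le_add (norm_sub_le _ _) (hsum.trans e3)).trans ?_
  have e4 : 1 * E1 ≤ E1 * ell w.im := by nlinarith
  nlinarith

/-- analytic continuation of the integrand to the closed rectangle -/
lemma analytic_JJ (u T : ℝ) (hT : 1 ≤ T) : ∃ (HA : ℂ → ℂ) (F : Finset ℂ),
    DifferentiableOn ℂ HA (Icc (-(1/4) : ℝ) 1 ×ℂ Icc (-T) T) ∧
    (∀ w ∈ (Icc (-(1/4) : ℝ) 1 ×ℂ Icc (-T) T), w ∉ F → HA w = JJ u (ZT T) w ∧ gg w ≠ 0 ∧ w ≠ 0) ∧
    (∀ w ∈ F, w.re < 1) := by
  classical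
  set K : Set ℂ := (Icc (-(1/4) : ℝ) 1 ×ℂ Icc (-T) T) with hK
  have hKc : IsCompact K := isCompact_Icc.reProdIm isCompact_Icc
  obtain ⟨L, G, hL1, hL2, hG, hGK, hFG⟩ := entire_factor gg gg_diff ⟨0, by rw [gg_zero]; exact one_ne_zero⟩ K hKc
  set U : Set ℂ := {w | G w ≠ 0} with hU
  have hUo : IsOpen U := isOpen_ne_fun hG.continuous continuous_const
  have hKU : K ⊆ U := fun w hw => hGK w hw
  have h0K : (0:ℂ) ∈ K := by
    rw [hK, Complex.mem_reProdIm]
    simp only [Complex.zero_re, Complex.zero_im, mem_Icc]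
    refine ⟨⟨by norm_num, by norm_num⟩, by linarith, by linarith⟩
  set φ := phi (ZT T) with hφ
  have hφd : Differentiable ℂ φ := phi_differentiable _
  set Q : ℂ → ℂ := fun w => (L.map (fun ρ => dslope φ ρ w)).sum + φ w * (deriv G w / G w) with hQ
  have hQd : DifferentiableOn ℂ Q U := by
    have h1 : ∀ L' : List ℂ, DifferentiableOn ℂ (fun w => (L'.map (fun ρ => dslope φ ρ w)).sum) U := by
      intro L'
      induction L' with
      | nil => simp
      | cons a L' ih =>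
        simp only [List.map_cons, List.sum_cons]
        refine DifferentiableOn.add ?_ ih
        have := (Complex.differentiableOn_dslope (c := a) univ_mem).2 (hφd.differentiableOn (s := univ))
        exact this.mono (subset_univ _)
    refine (h1 L).add ?_
    refine hφd.differentiableOn.mul ?_
    refine DifferentiableOn.div ?_ hG.differentiableOn (fun w hw => hw)
    intro w _
    exact ((hG.analyticAt w).deriv.differentiableAt).differentiableWithinAt
  have hφL : ∀ ρ ∈ L, φ ρ = 0 := by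
    intro ρ hρ
    obtain ⟨hz, hk⟩ := hL1 ρ hρ
    have hre : -(1/4) ≤ ρ.re ∧ ρ.re ≤ 1 := by
      rw [hK, Complex.mem_reProdIm] at hk; exact hk.1
    have him : -T ≤ ρ.im ∧ ρ.im ≤ T := by
      rw [hK, Complex.mem_reProdIm] at hk; exact hk.2
    have hmem : 1 + ρ ∈ ZT T := by
      rw [mem_ZT]
      refine ⟨hz, ?_, ?_⟩
      · simp; linarith
      · simp
        rw [abs_le]
        constructor <;> linarith
    have := phi_zero hmem (ZT_im hmem)
    rw [add_sub_cancel_left] at this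
    exact this
  have hQeq : ∀ w, w ∈ U → w ∉ L → Q w = φ w * (deriv gg w / gg w) ∧ gg w ≠ 0 := by
    intro w hwU hwL
    have hgw : gg w ≠ 0 := by
      rw [hFG]
      refine mul_ne_zero ?_ hwU
      intro h
      rw [List.prod_eq_zero_iff] at h
      obtain ⟨a, ha, hab⟩ := List.mem_map.1 h
      rw [sub_eq_zero] at hab
      rw [hab] at hwL
      exact hwL ha
    refine ⟨?_, hgw⟩
    rw [logDeriv_factor L gg G hG hFG hgw, hQ]
    simp only
    rw [mul_add, ← List.sum_map_mul_left]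
    congr 2
    refine List.map_congr_left fun ρ hρ => ?_
    have hne : w ≠ ρ := fun h => hwL (h ▸ hρ)
    rw [dslope_of_ne _ hne, slope_def_field, hφL ρ hρ, sub_zero, div_eq_mul_inv]
  have h0L : (0:ℂ) ∉ L := by
    intro h
    have := (hL1 0 h).1
    rw [gg_zero] at this
    exact one_ne_zero this
  set N : ℂ → ℂ := fun w => (Real.eulerMascheroniConstant : ℂ) * φ w - Q w with hN
  have hNd : DifferentiableOn ℂ N U := (hφd.differentiableOn.const_mul _).sub hQd
  have hN0 : N 0 = 0 := by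
    rw [hN]
    simp only
    rw [(hQeq 0 (hKU h0K) h0L).1, gg_deriv_zero, gg_zero]
    ring
  set HA : ℂ → ℂ := fun w => dslope N 0 w * (dslope Complex.exp 0 w) ^ 2 * Complex.exp (w * u) with hHA
  refine ⟨HA, insert 0 L.toFinset, ?_, ?_, ?_⟩
  · have hU0 : U ∈ 𝓝 (0:ℂ) := hUo.mem_nhds (hKU h0K)
    have h1 : DifferentiableOn ℂ (dslope N 0) U := (Complex.differentiableOn_dslope hU0).2 hNd
    have h2 : DifferentiableOn ℂ (dslope Complex.exp 0) univ :=
      (Complex.differentiableOn_dslope univ_mem).2 (Complex.differentiable_exp.differentiableOn)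
    have h3 : DifferentiableOn ℂ (fun w : ℂ => Complex.exp (w * u)) U := by
      have : Differentiable ℂ (fun w : ℂ => Complex.exp (w * u)) := by fun_prop
      exact this.differentiableOn
    exact ((h1.mul ((h2.mono (subset_univ _)).pow 2)).mul h3).mono hKU
  · intro w hwK hwF
    rw [Finset.mem_insert, not_or, List.mem_toFinset] at hwF
    obtain ⟨hw0, hwL⟩ := hwF
    obtain ⟨hq, hgw⟩ := hQeq w (hKU hwK) hwL
    refine ⟨?_, hgw, hw0⟩
    rw [hHA]
    simp only
    rw [dslope_of_ne _ hw0, dslope_of_ne _ hw0, slope_def_field, slope_def_field, hN0, hN]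
    simp only
    rw [hq, Complex.exp_zero]
    unfold JJ qq
    rw [← hφ]
    simp only [sub_zero]
    ring
  · intro w hw
    rw [Finset.mem_insert, List.mem_toFinset] at hw
    rcases hw with rfl | hw
    · simp
    · have := z1_zero_re (hL1 w hw).1
      simp at this
      linarith

end

end Pool.Agent.H437R2
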