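import Pool.Agent.H437R2.A5
set_option autoImplicit false

open MeasureTheory Filter Topology Set

namespace Pool.Agent.H437R2

noncomputable section

lemma JJ_bound : ∃ C : ℝ, 0 < C ∧ ∀ (T u : ℝ) (w : ℂ), -(1/4) ≤ w.re → w.re ≤ 1 → |w.im| ≤ T →
    gg w ≠ 0 → w ≠ 0 → ‖JJ u (ZT T) w‖ ≤ C * ell w.im / ‖w‖ ^ 3 * Real.exp (u * w.re) := by
  obtain ⟨C, hC, h⟩ := qq_bound
  refine ⟨16 * C, by positivity, fun T u w h1 h2 h3 h4 h5 => ?_⟩
  have hb := h T w h1 h2 h3 h4
  have hw0 : 0 < ‖w‖ := norm_pos_iff.2 h5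
  have he : ‖Complex.exp w - 1‖ ≤ 4 := by
    refine (norm_sub_le _ _).trans ?_
    rw [norm_one, Complex.norm_exp]
    have h6 : Real.exp w.re ≤ Real.exp 1 := Real.exp_le_exp.2 h2
    have := Real.exp_one_lt_d9
    linarith
  have hr : (w * (u : ℂ)).re = u * w.re := by simp; ring
  have e : JJ u (ZT T) w = (qq w * phi (ZT T) w) * (Complex.exp w - 1) ^ 2 / w ^ 3 * Complex.exp (w * u) := by
    unfold JJ
    field_simp
  rw [e, norm_mul, norm_div, norm_mul, norm_pow, norm_pow, Complex.norm_exp, hr]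
  have h7 : ‖Complex.exp w - 1‖ ^ 2 ≤ 4 ^ 2 := by gcongr
  have hℓ := one_le_ell w.im
  calc ‖qq w * phi (ZT T) w‖ * ‖Complex.exp w - 1‖ ^ 2 / ‖w‖ ^ 3 * Real.exp (u * w.re)
      ≤ (C * ell w.im) * 4 ^ 2 / ‖w‖ ^ 3 * Real.exp (u * w.re) := by gcongr
    _ = _ := by ring

lemma ell_le (t : ℝ) : ell t ≤ |t| + 2 := by
  unfold ell
  have := Real.log_le_sub_one_of_pos (show 0 < |t| + 3 by positivity)
  linarith

lemma left_bound {C u t : ℝ} (hC : 0 < C) :
    C * ell t / ‖((-(1/4) : ℝ) : ℂ) + t * Complex.I‖ ^ 3 * Real.exp (u * (-(1/4))) ≤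
      (1000 * C) * Real.exp (-(u/4)) * (1 + t ^ 2)⁻¹ := by
  set n := ‖((-(1/4) : ℝ) : ℂ) + t * Complex.I‖ with hn
  have hn2 : n ^ 2 = 1 / 16 + t ^ 2 := by
    rw [hn, ← Complex.normSq_eq_norm_sq, Complex.normSq_apply]
    simp
    ring
  have hn0 : 0 ≤ n := norm_nonneg _
  have hn1 : (1 + |t|) / 5 ≤ n := by
    by_contra hc
    push Not at hc
    have : n ^ 2 < ((1 + |t|) / 5) ^ 2 := by gcongr
    rw [hn2] at this
    nlinarith [sq_abs t, abs_nonneg t, sq_nonneg (|t| - 1/24)]
  have ht := abs_nonneg t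
  have hnp : 0 < n := lt_of_lt_of_le (by positivity) hn1
  have e1 : u * (-(1/4)) = -(u/4) := by ring
  rw [e1]
  have h1 : ell t / n ^ 3 ≤ 1000 * (1 + t ^ 2)⁻¹ := by
    rw [← div_eq_mul_inv, div_le_div_iff₀ (by positivity) (by positivity)]
    have h2 : ell t ≤ 2 * (1 + |t|) := by linarith [ell_le t]
    have h3 : (1 + |t|) * (1 + t ^ 2) ≤ (1 + |t|) ^ 3 := by
      rw [← sq_abs t]; nlinarith [pow_nonneg ht 3]
    have h4 : ((1 + |t|) / 5) ^ 3 ≤ n ^ 3 := by gcongr
    have h5 : ((1 + |t|) / 5) ^ 3 = (1 + |t|) ^ 3 / 125 := by ring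
    rw [h5] at h4
    have h6 : ell t * (1 + t ^ 2) ≤ 2 * (1 + |t|) * (1 + t ^ 2) := by gcongr
    have h7 : 0 ≤ (1 + |t|) ^ 3 := by positivity
    nlinarith
  calc C * ell t / n ^ 3 * Real.exp (-(u/4)) = C * Real.exp (-(u/4)) * (ell t / n ^ 3) := by ring
    _ ≤ C * Real.exp (-(u/4)) * (1000 * (1 + t ^ 2)⁻¹) := by gcongr
    _ = _ := by ring

lemma ae_vert (a : ℝ) (F : Finset ℂ) : ∀ᵐ t : ℝ, ((a : ℂ) + t * Complex.I) ∉ F := by
  have hinj : Function.Injective (fun t : ℝ => (a : ℂ) + t * Complex.I) := by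
    intro x y hxy
    have := congrArg Complex.im hxy
    simpa using this
  have hfin : {t : ℝ | ((a : ℂ) + t * Complex.I) ∈ F}.Finite :=
    F.finite_toSet.preimage hinj.injOn
  have h0 : volume {t : ℝ | ((a : ℂ) + t * Complex.I) ∈ F} = 0 := hfin.measure_zero volume
  rw [ae_iff]
  simpa using h0

lemma ae_horiz (b : ℝ) (F : Finset ℂ) : ∀ᵐ x : ℝ, ((x : ℂ) + b * Complex.I) ∉ F := by
  have hinj : Function.Injective (fun x : ℝ => (x : ℂ) + b * Complex.I) := by
    intro x y hxy
    have := congrArg Complex.re hxy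
    simpa using this
  have hfin : {x : ℝ | ((x : ℂ) + b * Complex.I) ∈ F}.Finite :=
    F.finite_toSet.preimage hinj.injOn
  have h0 : volume {x : ℝ | ((x : ℂ) + b * Complex.I) ∈ F} = 0 := hfin.measure_zero volume
  rw [ae_iff]
  simpa using h0

theorem contour_bound : ∃ C : ℝ, 0 < C ∧ ∀ (T u : ℝ), 1 ≤ T → 0 ≤ u →
    ‖∫ t in (-T)..T, JJ u (ZT T) (1 + t * Complex.I)‖ ≤ C * Real.exp (-(u/4)) + C * Real.exp u / T := by
  obtain ⟨C, hC, hJ⟩ := JJ_bound
  have hpi := Real.pi_pos
  refine ⟨1000 * C * Real.pi + 10 * C, by positivity, fun T u hT hu => ?_⟩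
  have hT0 : 0 < T := by linarith
  obtain ⟨HA, F, hd, hF, hF1⟩ := analytic_JJ u T hT
  set a : ℝ := -(1/4) with ha
  have hrect := Complex.integral_boundary_rect_eq_zero_of_differentiableOn HA ⟨a, -T⟩ ⟨1, T⟩ (by
    simp only
    rw [uIcc_of_le (by rw [ha]; norm_num), uIcc_of_le (by linarith)]
    exact hd)
  simp only [smul_eq_mul] at hrect
  -- right side
  have hright : ∫ t in (-T)..T, HA (((1:ℝ) : ℂ) + t * Complex.I) =
      ∫ t in (-T)..T, JJ u (ZT T) (1 + t * Complex.I) := by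
    refine intervalIntegral.integral_congr fun t ht => ?_
    rw [uIcc_of_le (by linarith)] at ht
    have hmem : ((1:ℝ) : ℂ) + t * Complex.I ∈ (Icc a 1 ×ℂ Icc (-T) T) := by
      rw [Complex.mem_reProdIm]
      simp only [Complex.add_re, Complex.ofReal_re, Complex.mul_re, Complex.I_re, mul_zero, Complex.ofReal_im,
        Complex.I_im, mul_one, sub_self, add_zero, Complex.add_im, Complex.mul_im, zero_add]
      exact ⟨⟨by rw [ha]; norm_num, le_refl _⟩, ht⟩
    have hnF : ((1:ℝ) : ℂ) + t * Complex.I ∉ F := by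
      intro h
      have := hF1 _ h
      simp at this
    have := (hF _ hmem hnF).1
    rw [Complex.ofReal_one] at this ⊢
    exact this
  have hleft : ‖∫ t in (-T)..T, HA ((a : ℂ) + t * Complex.I)‖ ≤ 1000 * C * Real.pi * Real.exp (-(u/4)) := by
    have h1 : ‖∫ t in (-T)..T, HA ((a : ℂ) + t * Complex.I)‖ ≤
        ∫ t in (-T)..T, (1000 * C) * Real.exp (-(u/4)) * (1 + t ^ 2)⁻¹ := by
      refine intervalIntegral.norm_integral_le_of_norm_le (by linarith) ?_ ?_
      · filter_upwards [ae_vert a F] with t htF ht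
        have hmem : (a : ℂ) + t * Complex.I ∈ (Icc a 1 ×ℂ Icc (-T) T) := by
          rw [Complex.mem_reProdIm]
          simp only [Complex.add_re, Complex.ofReal_re, Complex.mul_re, Complex.I_re, mul_zero, Complex.ofReal_im,
            Complex.I_im, mul_one, sub_self, add_zero, Complex.add_im, Complex.mul_im, zero_add]
          exact ⟨⟨le_refl _, by rw [ha]; norm_num⟩, ht.1.le, ht.2⟩
        obtain ⟨h2, h3, h4⟩ := hF _ hmem htF
        rw [h2]
        have him : ((a : ℂ) + t * Complex.I).im = t := by simp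
        have hre : ((a : ℂ) + t * Complex.I).re = a := by simp
        have h5 := hJ T u _ (by rw [hre]) (by rw [hre, ha]; norm_num) (by
          rw [him, abs_le]; exact ⟨ht.1.le, ht.2⟩) h3 h4
        rw [him, hre] at h5
        exact h5.trans (left_bound hC)
      · refine Continuous.intervalIntegrable ?_ _ _
        refine continuous_const.mul ?_
        refine Continuous.inv₀ (by fun_prop) fun t => by positivity
    refine h1.trans ?_
    rw [intervalIntegral.integral_const_mul, integral_inv_one_add_sq]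
    have h2 := Real.arctan_lt_pi_div_two T
    have h3 := Real.neg_pi_div_two_lt_arctan (-T)
    have h4 : Real.arctan T - Real.arctan (-T) ≤ Real.pi := by linarith
    calc 1000 * C * Real.exp (-(u/4)) * (Real.arctan T - Real.arctan (-T))
        ≤ 1000 * C * Real.exp (-(u/4)) * Real.pi := by gcongr
      _ = _ := by ring
  have hhor : ∀ b : ℝ, |b| = T → ‖∫ x in a..1, HA ((x : ℂ) + b * Complex.I)‖ ≤ 5 * C * Real.exp u / T := by
    intro b hb
    have hbT : -T ≤ b ∧ b ≤ T := abs_le.1 hb.le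
    have h1 : ‖∫ x in a..1, HA ((x : ℂ) + b * Complex.I)‖ ≤ ∫ x in a..(1:ℝ), 4 * C * Real.exp u / T := by
      refine intervalIntegral.norm_integral_le_of_norm_le (by rw [ha]; norm_num) ?_ (by simp)
      filter_upwards [ae_horiz b F] with x hxF hx
      have hmem : (x : ℂ) + b * Complex.I ∈ (Icc a 1 ×ℂ Icc (-T) T) := by
        rw [Complex.mem_reProdIm]
        simp only [Complex.add_re, Complex.ofReal_re, Complex.mul_re, Complex.I_re, mul_zero, Complex.ofReal_im,
          Complex.I_im, mul_one, sub_self, add_zero, Complex.add_im, Complex.mul_im, zero_add]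
        exact ⟨⟨hx.1.le, hx.2⟩, hbT.1, hbT.2⟩
      obtain ⟨h2, h3, h4⟩ := hF _ hmem hxF
      rw [h2]
      have him : ((x : ℂ) + b * Complex.I).im = b := by simp
      have hre : ((x : ℂ) + b * Complex.I).re = x := by simp
      have h5 := hJ T u _ (by rw [hre]; exact hx.1.le) (by rw [hre]; exact hx.2) (by
        rw [him]; exact hb.le) h3 h4
      rw [him, hre] at h5
      refine h5.trans ?_
      have h6 : T ≤ ‖(x : ℂ) + b * Complex.I‖ := by
        have := Complex.abs_im_le_norm ((x : ℂ) + b * Complex.I)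
        rw [him, hb] at this
        exact this
      have h7 : ell b ≤ 4 * T := by
        have := ell_le b
        rw [hb] at this
        linarith
      have h8 : Real.exp (u * x) ≤ Real.exp u := by
        rw [Real.exp_le_exp]
        nlinarith [hx.2]
      calc C * ell b / ‖(x : ℂ) + b * Complex.I‖ ^ 3 * Real.exp (u * x)
          ≤ C * (4 * T) / T ^ 3 * Real.exp u := by gcongr
        _ = 4 * C * Real.exp u / T * (1 / T) := by field_simp
        _ ≤ 4 * C * Real.exp u / T * 1 := by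
            gcongr
            rw [div_le_one hT0]
            exact hT
        _ = _ := mul_one _
    refine h1.trans ?_
    rw [intervalIntegral.integral_const, smul_eq_mul, ha]
    have : 0 ≤ C * Real.exp u / T := by positivity
    have e : (1 - -(1/4)) * (4 * C * Real.exp u / T) = 5 * (C * Real.exp u / T) := by ring
    rw [e]
    have e2 : 5 * C * Real.exp u / T = 5 * (C * Real.exp u / T) := by ring
    rw [e2]
  have h1 := hhor T (abs_of_pos hT0)
  have h2 := hhor (-T) (by rw [abs_neg, abs_of_pos hT0])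
  rw [← hright]
  set I1 := ∫ x in a..1, HA ((x : ℂ) + ((-T : ℝ) : ℂ) * Complex.I) with hI1
  set I2 := ∫ x in a..1, HA ((x : ℂ) + (T : ℂ) * Complex.I) with hI2
  set I3 := ∫ t in (-T)..T, HA (((1:ℝ) : ℂ) + t * Complex.I) with hI3
  set I4 := ∫ t in (-T)..T, HA ((a : ℂ) + t * Complex.I) with hI4
  have h3 : I1 - I2 + Complex.I * I3 - Complex.I * I4 = 0 := hrect
  have h4 : Complex.I * I3 = Complex.I * I4 - I1 + I2 := by linear_combination h3
  have h5 : ‖I3‖ = ‖Complex.I * I4 - I1 + I2‖ := by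
    rw [← h4, norm_mul, Complex.norm_I, one_mul]
  rw [h5]
  refine (norm_add_le _ _).trans ?_
  refine (add_le_add (norm_sub_le _ _) h1).trans ?_
  rw [norm_mul, Complex.norm_I, one_mul]
  have h6 : 0 ≤ C * Real.exp u / T := by positivity
  have h7 : 0 ≤ Real.pi * C * Real.exp u / T := by positivity
  have h8 : 0 ≤ C * Real.exp (-(u/4)) := by positivity
  have e1 : (1000 * C * Real.pi + 10 * C) * Real.exp (-(u/4)) + (1000 * C * Real.pi + 10 * C) * Real.exp u / T =
      1000 * C * Real.pi * Real.exp (-(u/4)) + 10 * (C * Real.exp (-(u/4))) + 1000 * (Real.pi * C * Real.exp u / T) +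
      10 * (C * Real.exp u / T) := by ring
  rw [e1]
  have e2 : 5 * C * Real.exp u / T = 5 * (C * Real.exp u / T) := by ring
  rw [e2] at h2 ⊢
  linarith

end

end Pool.Agent.H437R2
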