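import Mathlib
set_option autoImplicit false

open MeasureTheory Filter Topology Set

namespace Pool.Agent.H437R2

noncomputable section

lemma pow_exp_integrable (k : ℕ) {r : ℂ} (hr : r.re = 1) :
    IntegrableOn (fun t : ℝ => (t : ℂ) ^ k * Complex.exp (-(r * t))) (Ioi 0) := by
  have h1 : IntegrableOn (fun t : ℝ => Real.exp (-t) * t ^ ((k + 1 : ℝ) - 1)) (Ioi 0) :=
    Real.GammaIntegral_convergent (by positivity)
  refine Integrable.mono' h1 ?_ ?_
  · refine Continuous.aestronglyMeasurable ?_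
    fun_prop
  · refine (ae_restrict_mem measurableSet_Ioi).mono fun t ht => ?_
    have ht0 : (0:ℝ) < t := ht
    rw [norm_mul, norm_pow, Complex.norm_real, Real.norm_of_nonneg ht0.le, Complex.norm_exp]
    have e : (-(r * (t:ℂ))).re = -t := by simp [hr]
    rw [e, add_sub_cancel_right, Real.rpow_natCast, mul_comm]

lemma pow_exp_tendsto (k : ℕ) {r : ℂ} (hr : r.re = 1) :
    Tendsto (fun t : ℝ => (t : ℂ) ^ k * Complex.exp (-(r * t))) atTop (𝓝 0) := by
  rw [tendsto_zero_iff_norm_tendsto_zero]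
  have h := Real.tendsto_pow_mul_exp_neg_atTop_nhds_zero k
  refine h.congr' ?_
  filter_upwards [eventually_ge_atTop 0] with t ht
  rw [norm_mul, norm_pow, Complex.norm_real, Real.norm_of_nonneg ht, Complex.norm_exp]
  have e : (-(r * (t:ℂ))).re = -t := by simp [hr]
  rw [e]

lemma pow_exp_integral (k : ℕ) {r : ℂ} (hr : r.re = 1) :
    ∫ t in Ioi (0:ℝ), (t : ℂ) ^ k * Complex.exp (-(r * t)) = (k.factorial : ℂ) / r ^ (k + 1) := by
  have hr0 : r ≠ 0 := by
    rintro rfl
    simp at hr
  induction k with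
  | zero =>
    have h1 := integral_exp_mul_complex_Ioi (a := -r) (by simp [hr]) 0
    simp only [pow_zero, one_mul, Nat.factorial_zero, zero_add, pow_one, Nat.cast_one]
    have e : ∀ t : ℝ, -(r * (t:ℂ)) = -r * t := fun t => by ring
    simp_rw [e]
    rw [h1]
    simp
  | succ k ih =>
    have hd : ∀ t ∈ Ici (0:ℝ), HasDerivAt (fun t : ℝ => (t : ℂ) ^ (k + 1) * Complex.exp (-(r * t)))
        ((k + 1 : ℂ) * ((t : ℂ) ^ k * Complex.exp (-(r * t))) - r * ((t : ℂ) ^ (k + 1) * Complex.exp (-(r * t)))) t := by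
      intro t _
      have h0 : HasDerivAt (fun t : ℝ => (t : ℂ)) 1 t := Complex.ofRealCLM.hasDerivAt
      have h1 := h0.fun_pow (k + 1)
      have h2 : HasDerivAt (fun t : ℝ => -(r * (t : ℂ))) (-(r * 1)) t := (h0.const_mul r).neg
      have h3 := h1.mul h2.cexp
      convert! h3 using 1
      simp
      ring
    have hi1 := pow_exp_integrable k hr
    have hi2 := pow_exp_integrable (k + 1) hr
    have h1 := integral_Ioi_of_hasDerivAt_of_tendsto' hd ((hi1.const_mul _).sub (hi2.const_mul r))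
      (pow_exp_tendsto (k + 1) hr)
    rw [integral_sub (hi1.const_mul _) (hi2.const_mul r), integral_const_mul, integral_const_mul, ih] at h1
    simp only [Complex.ofReal_zero, ne_eq, Nat.add_eq_zero_iff, one_ne_zero, and_false, not_false_eq_true,
      zero_pow, zero_mul, sub_zero] at h1
    have h2 : r * ∫ t in Ioi (0:ℝ), (t : ℂ) ^ (k + 1) * Complex.exp (-(r * t)) =
        (k + 1 : ℂ) * ((k.factorial : ℂ) / r ^ (k + 1)) := by linear_combination -h1
    have h3 : ∫ t in Ioi (0:ℝ), (t : ℂ) ^ (k + 1) * Complex.exp (-(r * t)) =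
        ((k + 1 : ℂ) * ((k.factorial : ℂ) / r ^ (k + 1))) / r := by
      rw [← h2]; field_simp
    rw [h3, Nat.factorial_succ]
    push_cast
    field_simp
    ring

/-- one sided power -/
def pp (k : ℕ) (v : ℝ) : ℝ := (max v 0) ^ k / k.factorial

lemma pp_cont (k : ℕ) : Continuous (pp k) := by
  unfold pp
  fun_prop

lemma one_add_ne (y : ℝ) : (1 + (y : ℂ) * Complex.I) ≠ 0 := by
  intro h
  have := congrArg Complex.re h
  simp at this

lemma inv_pow_integrable (k : ℕ) (hk : 1 ≤ k) : Integrable (fun y : ℝ => 1 / (1 + (y : ℂ) * Complex.I) ^ (k + 1)) := by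
  have h1 : Integrable (fun y : ℝ => (1 + y ^ 2)⁻¹) := integrable_inv_one_add_sq
  refine h1.mono' ?_ ?_
  · refine Continuous.aestronglyMeasurable ?_
    refine Continuous.div continuous_const (by fun_prop) fun y => pow_ne_zero _ (one_add_ne y)
  · refine Eventually.of_forall fun y => ?_
    rw [norm_div, norm_one, norm_pow, one_div]
    have h2 : ‖1 + (y : ℂ) * Complex.I‖ ^ 2 = 1 + y ^ 2 := by
      rw [← Complex.normSq_eq_norm_sq, Complex.normSq_apply]
      simp
      ring
    have h3 : 1 ≤ ‖1 + (y : ℂ) * Complex.I‖ := by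
      by_contra hc
      push Not at hc
      have : ‖1 + (y : ℂ) * Complex.I‖ ^ 2 < 1 := by
        have := norm_nonneg (1 + (y : ℂ) * Complex.I)
        nlinarith
      nlinarith [sq_nonneg y]
    rw [← h2]
    apply inv_anti₀
    · positivity
    · exact pow_le_pow_right₀ h3 (by omega)

/-- Perron kernel -/
theorem perron (k : ℕ) (hk : 1 ≤ k) (v : ℝ) :
    ∫ y : ℝ, Complex.exp ((1 + y * Complex.I) * v) / (1 + (y : ℂ) * Complex.I) ^ (k + 1) =
      2 * Real.pi * (pp k v : ℂ) := by
  set f : ℝ → ℂ := fun v => (pp k v : ℂ) * Complex.exp (-(v:ℂ)) with hf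
  have hfc : Continuous f := by
    rw [hf]
    have := pp_cont k
    fun_prop
  have hk0 : k ≠ 0 := by omega
  have hfind : ∀ v : ℝ, f v = (Ioi (0:ℝ)).indicator
      (fun t : ℝ => (1 / (k.factorial : ℂ)) * ((t : ℂ) ^ k * Complex.exp (-((1:ℂ) * t)))) v := by
    intro v
    rw [hf]
    simp only
    unfold pp
    by_cases hv : v ∈ Ioi (0:ℝ)
    · rw [indicator_of_mem hv, max_eq_left (le_of_lt hv)]
      push_cast
      rw [one_mul]
      ring
    · rw [indicator_of_notMem hv, max_eq_right (not_lt.1 hv)]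
      simp [hk0]
  have hfi : Integrable f := by
    rw [show f = _ from funext hfind]
    rw [integrable_indicator_iff measurableSet_Ioi]
    exact (pow_exp_integrable k (by simp)).const_mul _
  have hF : ∀ ξ : ℝ, FourierTransform.fourier f ξ = 1 / (1 + ((2 * Real.pi * ξ : ℝ) : ℂ) * Complex.I) ^ (k + 1) := by
    intro ξ
    rw [Real.fourier_real_eq_integral_exp_smul]
    have e : ∀ v : ℝ, Complex.exp (((-2 * Real.pi * v * ξ : ℝ) : ℂ) * Complex.I) • f v =
        (Ioi (0:ℝ)).indicator (fun t : ℝ => (1 / (k.factorial : ℂ)) *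
          ((t : ℂ) ^ k * Complex.exp (-((1 + ((2 * Real.pi * ξ : ℝ) : ℂ) * Complex.I) * t)))) v := by
      intro v
      rw [hfind v]
      by_cases hv : v ∈ Ioi (0:ℝ)
      · rw [indicator_of_mem hv, indicator_of_mem hv, smul_eq_mul]
        have : Complex.exp (-((1 + ((2 * Real.pi * ξ : ℝ) : ℂ) * Complex.I) * v)) =
            Complex.exp (((-2 * Real.pi * v * ξ : ℝ) : ℂ) * Complex.I) * Complex.exp (-((1:ℂ) * v)) := by
          rw [← Complex.exp_add]
          congr 1
          push_cast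
          ring
        rw [this]
        ring
      · rw [indicator_of_notMem hv, indicator_of_notMem hv, smul_zero]
    simp_rw [e]
    rw [integral_indicator measurableSet_Ioi, integral_const_mul, pow_exp_integral k (by simp)]
    have : (k.factorial : ℂ) ≠ 0 := by exact_mod_cast Nat.factorial_ne_zero k
    field_simp
  have hFi : Integrable (FourierTransform.fourier f) := by
    rw [show FourierTransform.fourier f = fun ξ : ℝ => 1 / (1 + ((2 * Real.pi * ξ : ℝ) : ℂ) * Complex.I) ^ (k + 1)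
      from funext hF]
    have := (inv_pow_integrable k hk).comp_mul_left' (show (2 * Real.pi : ℝ) ≠ 0 by positivity)
    exact this
  have hinv := hfi.fourierInv_fourier_eq hFi (v := v) hfc.continuousAt
  rw [Real.fourierInv_eq'] at hinv
  have e2 : ∀ ξ : ℝ, Complex.exp (((2 * Real.pi * inner ℝ ξ v : ℝ) : ℂ) * Complex.I) • FourierTransform.fourier f ξ =
      (fun y : ℝ => Complex.exp ((y : ℂ) * Complex.I * v) / (1 + (y : ℂ) * Complex.I) ^ (k + 1)) (2 * Real.pi * ξ) := by
    intro ξ
    rw [hF ξ, smul_eq_mul, mul_one_div]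
    simp only
    congr 2
    simp
    ring
  simp_rw [e2] at hinv
  rw [Measure.integral_comp_mul_left (fun y : ℝ => Complex.exp ((y : ℂ) * Complex.I * v) / (1 + (y : ℂ) * Complex.I) ^ (k + 1))
    (2 * Real.pi)] at hinv
  have hpi := Real.pi_pos
  rw [abs_of_pos (by positivity), Complex.real_smul] at hinv
  have e3 : ∫ y : ℝ, Complex.exp ((y : ℂ) * Complex.I * v) / (1 + (y : ℂ) * Complex.I) ^ (k + 1) =
      2 * Real.pi * f v := by
    rw [← hinv, ← mul_assoc]
    have h0 : (2 * (Real.pi : ℂ)) * (((2 * Real.pi)⁻¹ : ℝ) : ℂ) = 1 := by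
      have : (Real.pi : ℂ) ≠ 0 := by exact_mod_cast hpi.ne'
      push_cast
      field_simp
    rw [h0, one_mul]
  have e4 : ∀ y : ℝ, Complex.exp ((1 + y * Complex.I) * v) / (1 + (y : ℂ) * Complex.I) ^ (k + 1) =
      Complex.exp (v : ℂ) * (Complex.exp ((y : ℂ) * Complex.I * v) / (1 + (y : ℂ) * Complex.I) ^ (k + 1)) := by
    intro y
    rw [add_mul, one_mul, Complex.exp_add]
    ring
  simp_rw [e4]
  rw [integral_const_mul, e3, hf]
  simp only
  rw [Complex.exp_neg]
  have := Complex.exp_ne_zero (v : ℂ)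
  field_simp

end

end Pool.Agent.H437R2
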