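import Pool.Agent.H437R2.A5b
import Pool.Agent.H437R2.A6a
set_option autoImplicit false

open MeasureTheory Filter Topology Set

namespace Pool.Agent.H437R2

noncomputable section

/-- the von Mangoldt Dirichlet series -/
def LL (s : ℂ) : ℂ := LSeries (fun n => ((ArithmeticFunction.vonMangoldt n : ℝ) : ℂ)) s

lemma line_re (y : ℝ) : (1 + (1 + (y : ℂ) * Complex.I)).re = 2 := by
  simp; norm_num

lemma gg_line_ne (y : ℝ) : gg (1 + y * Complex.I) ≠ 0 := by
  intro h
  have := z1_zero_re h
  rw [line_re] at this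
  linarith

lemma qq_line (y : ℝ) : qq (1 + y * Complex.I) =
    (Real.eulerMascheroniConstant : ℂ) + LL (1 + (1 + y * Complex.I)) - 1 / (1 + y * Complex.I) := by
  set w : ℂ := 1 + y * Complex.I with hw
  have hw0 : w ≠ 0 := one_add_ne y
  have hs : (1:ℝ) < (1 + w).re := by rw [hw, line_re]; norm_num
  have hs1 : 1 + w ≠ 1 := by
    intro h
    apply hw0
    linear_combination h
  have hz : riemannZeta (1 + w) ≠ 0 := riemannZeta_ne_zero_of_one_lt_re hs
  have hL : LL (1 + w) = -deriv riemannZeta (1 + w) / riemannZeta (1 + w) :=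
    ArithmeticFunction.LSeries_vonMangoldt_eq_deriv_riemannZeta_div hs
  have hg : riemannZeta₁ (1 + w) ≠ 0 := gg_line_ne y
  rw [hL, deriv_riemannZeta_eq_neg_inv_sub_sq_mul_add hs1, riemannZeta_eq_inv_sub_mul hs1]
  unfold qq
  rw [gg_deriv]
  unfold gg
  have e : 1 + w - 1 = w := by ring
  rw [e]
  field_simp
  ring

lemma LL_summable {s : ℂ} (hs : s.re = 2) :
    LSeriesSummable (fun n => ((ArithmeticFunction.vonMangoldt n : ℝ) : ℂ)) s :=
  ArithmeticFunction.LSeriesSummable_vonMangoldt (by rw [hs]; norm_num)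

lemma vM_sq_summable : Summable (fun n : ℕ => ArithmeticFunction.vonMangoldt n / (n:ℝ) ^ 2) := by
  have h := (LL_summable (s := 2) (by simp)).norm
  refine h.congr fun n => ?_
  rw [LSeries.norm_term_eq]
  by_cases hn : n = 0
  · subst hn; simp
  · rw [if_neg hn, Complex.norm_real, Real.norm_of_nonneg ArithmeticFunction.vonMangoldt_nonneg]
    norm_num

def CL : ℝ := ∑' n : ℕ, ArithmeticFunction.vonMangoldt n / (n:ℝ) ^ 2

lemma CL_nonneg : 0 ≤ CL := tsum_nonneg fun n => by
  have := ArithmeticFunction.vonMangoldt_nonneg (n := n)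
  positivity

lemma LL_norm_le {s : ℂ} (hs : s.re = 2) : ‖LL s‖ ≤ CL := by
  unfold LL LSeries CL
  refine tsum_of_norm_bounded vM_sq_summable.hasSum fun n => ?_
  rw [LSeries.norm_term_eq]
  by_cases hn : n = 0
  · subst hn; simp
  · rw [if_neg hn, Complex.norm_real, Real.norm_of_nonneg ArithmeticFunction.vonMangoldt_nonneg, hs]
    norm_num

lemma one_le_norm_line (y : ℝ) : 1 ≤ ‖1 + (y : ℂ) * Complex.I‖ := by
  have := Complex.abs_re_le_norm (1 + (y : ℂ) * Complex.I)
  simpa using this

lemma norm_line_sq (y : ℝ) : ‖1 + (y : ℂ) * Complex.I‖ ^ 2 = 1 + y ^ 2 := by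
  rw [← Complex.normSq_eq_norm_sq, Complex.normSq_apply]
  simp
  ring

lemma qq_line_norm (y : ℝ) : ‖qq (1 + y * Complex.I)‖ ≤ CL + 2 := by
  rw [qq_line]
  have hγ : |Real.eulerMascheroniConstant| ≤ 1 := by
    rw [abs_le]
    constructor
    · linarith [Real.one_half_lt_eulerMascheroniConstant]
    · linarith [Real.eulerMascheroniConstant_lt_two_thirds]
  have h1 : ‖(Real.eulerMascheroniConstant : ℂ)‖ ≤ 1 := by
    rw [Complex.norm_real, Real.norm_eq_abs]; exact hγ
  have h2 := LL_norm_le (line_re y)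
  have h3 : ‖1 / (1 + (y : ℂ) * Complex.I)‖ ≤ 1 := by
    rw [norm_div, norm_one]
    exact (div_le_one (by linarith [one_le_norm_line y])).2 (one_le_norm_line y)
  refine (norm_sub_le _ _).trans ?_
  have := norm_add_le (Real.eulerMascheroniConstant : ℂ) (LL (1 + (1 + y * Complex.I)))
  linarith

lemma qq_line_cont : Continuous (fun y : ℝ => qq (1 + y * Complex.I)) := by
  unfold qq
  have h1 : Continuous (fun y : ℝ => gg (1 + y * Complex.I)) := gg_diff.continuous.comp (by fun_prop)
  have h2 : Continuous (deriv gg) :=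
    continuous_iff_continuousAt.2 fun z => (gg_diff.analyticAt z).deriv.continuousAt
  have h3 : Continuous (fun y : ℝ => deriv gg (1 + y * Complex.I)) := h2.comp (by fun_prop)
  exact continuous_const.sub (h3.div h1 gg_line_ne)

/-- twice integrated remainder -/
def S2 (v : ℝ) : ℝ := ∑' n : ℕ, ArithmeticFunction.vonMangoldt n / n * pp 2 (v - Real.log n) +
  Real.eulerMascheroniConstant * pp 2 v - pp 3 v

lemma exp_line_norm (y v : ℝ) : ‖Complex.exp ((1 + y * Complex.I) * v)‖ = Real.exp v := by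
  rw [Complex.norm_exp]
  congr 1
  simp

lemma inv_cube_le (y : ℝ) : 1 / ‖1 + (y : ℂ) * Complex.I‖ ^ 3 ≤ (1 + y ^ 2)⁻¹ := by
  rw [← norm_line_sq, one_div]
  have h := one_le_norm_line y
  apply inv_anti₀ (by positivity)
  exact pow_le_pow_right₀ h (by norm_num)

lemma S2_integrable (v : ℝ) : Integrable (fun y : ℝ => qq (1 + y * Complex.I) *
    (Complex.exp ((1 + y * Complex.I) * v) / (1 + (y : ℂ) * Complex.I) ^ 3)) := by
  have h1 : Integrable (fun y : ℝ => (CL + 2) * Real.exp v * (1 + y ^ 2)⁻¹) :=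
    integrable_inv_one_add_sq.const_mul _
  refine h1.mono' ?_ ?_
  · refine Continuous.aestronglyMeasurable ?_
    refine qq_line_cont.mul ?_
    refine Continuous.div (by fun_prop) (by fun_prop) fun y => pow_ne_zero _ (one_add_ne y)
  · refine Eventually.of_forall fun y => ?_
    rw [norm_mul, norm_div, norm_pow, exp_line_norm]
    have h2 := qq_line_norm y
    have h3 := inv_cube_le y
    have hCL := CL_nonneg
    calc ‖qq (1 + y * Complex.I)‖ * (Real.exp v / ‖1 + (y : ℂ) * Complex.I‖ ^ 3)
        = ‖qq (1 + y * Complex.I)‖ * Real.exp v * (1 / ‖1 + (y : ℂ) * Complex.I‖ ^ 3) := by ring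
      _ ≤ (CL + 2) * Real.exp v * (1 + y ^ 2)⁻¹ := by gcongr

lemma kernel_integrable (k : ℕ) (hk : 1 ≤ k) (v : ℝ) : Integrable (fun y : ℝ =>
    Complex.exp ((1 + y * Complex.I) * v) / (1 + (y : ℂ) * Complex.I) ^ (k + 1)) := by
  have h1 := (inv_pow_integrable k hk).norm.const_mul (Real.exp v)
  refine h1.mono' ?_ ?_
  · refine Continuous.aestronglyMeasurable ?_
    refine Continuous.div (by fun_prop) (by fun_prop) fun y => pow_ne_zero _ (one_add_ne y)
  · refine Eventually.of_forall fun y => ?_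
    rw [norm_div, norm_div, exp_line_norm, norm_one]
    exact le_of_eq (by ring)

theorem S2_formula (v : ℝ) : ∫ y : ℝ, qq (1 + y * Complex.I) *
    (Complex.exp ((1 + y * Complex.I) * v) / (1 + (y : ℂ) * Complex.I) ^ 3) = 2 * Real.pi * (S2 v : ℂ) := by
  have k2 := kernel_integrable 2 (by norm_num) v
  have k3 := kernel_integrable 3 (by norm_num) v
  have p2 := perron 2 (by norm_num) v
  have p3 := perron 3 (by norm_num) v
  norm_num at k2 k3 p2 p3
  -- the Dirichlet series part
  set F : ℕ → ℝ → ℂ := fun n y => ((ArithmeticFunction.vonMangoldt n / n : ℝ) : ℂ) *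
    (Complex.exp ((1 + y * Complex.I) * ((v - Real.log n : ℝ) : ℂ)) / (1 + (y : ℂ) * Complex.I) ^ 3) with hF
  have hFi : ∀ n, Integrable (F n) := fun n => by
    have := (kernel_integrable 2 (by norm_num) (v - Real.log n)).const_mul ((ArithmeticFunction.vonMangoldt n / n : ℝ) : ℂ)
    exact this
  have hFpt : ∀ n y, ‖F n y‖ = (ArithmeticFunction.vonMangoldt n / (n:ℝ) ^ 2) * (Real.exp v * (1 / ‖1 + (y : ℂ) * Complex.I‖ ^ 3)) := by
    intro n y
    rw [hF]
    simp only
    rw [norm_mul, norm_div, norm_pow, exp_line_norm, Complex.norm_real,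
      Real.norm_of_nonneg (div_nonneg ArithmeticFunction.vonMangoldt_nonneg (Nat.cast_nonneg _))]
    rcases Nat.eq_zero_or_pos n with hn | hn
    · subst hn; simp
    · have hnp : (0:ℝ) < n := by exact_mod_cast hn
      rw [Real.exp_sub, Real.exp_log hnp]
      field_simp
  have hFs : Summable (fun n => ∫ y, ‖F n y‖) := by
    simp_rw [hFpt, integral_const_mul]
    exact vM_sq_summable.mul_right _
  have hsum := hasSum_integral_of_summable_integral_norm hFi hFs
  have hFint : ∀ n, ∫ y, F n y = 2 * Real.pi * ((ArithmeticFunction.vonMangoldt n / n * pp 2 (v - Real.log n) : ℝ) : ℂ) := by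
    intro n
    rw [hF]
    simp only
    rw [integral_const_mul]
    have := perron 2 (by norm_num) (v - Real.log n)
    norm_num at this
    push_cast at this ⊢
    rw [this]
    ring
  have hFtsum : ∀ y : ℝ, ∑' n, F n y = LL (1 + (1 + y * Complex.I)) *
      (Complex.exp ((1 + y * Complex.I) * v) / (1 + (y : ℂ) * Complex.I) ^ 3) := by
    intro y
    unfold LL LSeries
    rw [← tsum_mul_right]
    refine tsum_congr fun n => ?_
    rw [hF]
    simp only
    rcases Nat.eq_zero_or_pos n with hn | hn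
    · subst hn; simp
    · have hnp : (0:ℝ) < n := by exact_mod_cast hn
      have hnc : (n:ℂ) ≠ 0 := by exact_mod_cast hnp.ne'
      rw [LSeries.term_of_ne_zero hn.ne', Complex.cpow_add _ _ hnc, Complex.cpow_one]
      have e : Complex.exp ((1 + y * Complex.I) * ((v - Real.log n : ℝ) : ℂ)) =
          Complex.exp ((1 + y * Complex.I) * v) / (n:ℂ) ^ (1 + (y:ℂ) * Complex.I) := by
        rw [Complex.cpow_def_of_ne_zero hnc, ← Complex.exp_sub, ← Complex.natCast_log]
        congr 1
        push_cast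
        ring
      rw [e]
      push_cast
      have h3 : (n:ℂ) ^ (1 + (y:ℂ) * Complex.I) ≠ 0 := by
        rw [Complex.cpow_def_of_ne_zero hnc]
        exact Complex.exp_ne_zero _
      have h4 := one_add_ne y
      field_simp
  have hLi : Integrable (fun y : ℝ => LL (1 + (1 + y * Complex.I)) *
      (Complex.exp ((1 + y * Complex.I) * v) / (1 + (y : ℂ) * Complex.I) ^ 3)) := by
    have h1 := S2_integrable v
    have h2 := (h1.sub (k2.const_mul (Real.eulerMascheroniConstant : ℂ))).add k3
    refine h2.congr (Eventually.of_forall fun y => ?_)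
    simp only [Pi.sub_apply, Pi.add_apply]
    rw [qq_line]
    have := one_add_ne y
    field_simp
    ring
  have hLint : ∫ y : ℝ, LL (1 + (1 + y * Complex.I)) *
      (Complex.exp ((1 + y * Complex.I) * v) / (1 + (y : ℂ) * Complex.I) ^ 3) =
      2 * Real.pi * ((∑' n : ℕ, ArithmeticFunction.vonMangoldt n / n * pp 2 (v - Real.log n) : ℝ) : ℂ) := by
    simp_rw [← hFtsum]
    rw [← hsum.tsum_eq]
    simp_rw [hFint]
    rw [tsum_mul_left, Complex.ofReal_tsum]
  have hdec : ∀ y : ℝ, qq (1 + y * Complex.I) *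
      (Complex.exp ((1 + y * Complex.I) * v) / (1 + (y : ℂ) * Complex.I) ^ 3) =
      (LL (1 + (1 + y * Complex.I)) * (Complex.exp ((1 + y * Complex.I) * v) / (1 + (y : ℂ) * Complex.I) ^ 3) +
      (Real.eulerMascheroniConstant : ℂ) * (Complex.exp ((1 + y * Complex.I) * v) / (1 + (y : ℂ) * Complex.I) ^ 3)) -
      Complex.exp ((1 + y * Complex.I) * v) / (1 + (y : ℂ) * Complex.I) ^ 4 := by
    intro y
    rw [qq_line]
    have := one_add_ne y
    field_simp
    ring
  simp_rw [hdec]
  have i1 : Integrable (fun y : ℝ =>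
      LL (1 + (1 + y * Complex.I)) * (Complex.exp ((1 + y * Complex.I) * v) / (1 + (y : ℂ) * Complex.I) ^ 3) +
      (Real.eulerMascheroniConstant : ℂ) * (Complex.exp ((1 + y * Complex.I) * v) / (1 + (y : ℂ) * Complex.I) ^ 3)) :=
    hLi.add (k2.const_mul _)
  rw [integral_sub i1 k3, integral_add hLi (k2.const_mul _), integral_const_mul, hLint, p2, p3]
  unfold S2
  push_cast
  ring

end

end Pool.Agent.H437R2
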