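import Pool.Agent.H437R2.A6b
set_option autoImplicit false

open MeasureTheory Filter Topology Set

namespace Pool.Agent.H437R2

noncomputable section

def WW (v : ℝ) : ℝ := S2 (v + 2) - 2 * S2 (v + 1) + S2 v

def VV (Z : Finset ℂ) (u : ℝ) : ℝ := ∑ A ∈ Z.powerset, cc Z A * WW (u + ∑ ρ ∈ A, hst ρ)

lemma JJ_line_eq (Z : Finset ℂ) (u y : ℝ) : JJ u Z (1 + y * Complex.I) =
    ∑ A ∈ Z.powerset, (cc Z A : ℂ) * (
      (qq (1 + y * Complex.I) * (Complex.exp ((1 + y * Complex.I) * ((u + ∑ ρ ∈ A, hst ρ + 2 : ℝ) : ℂ)) / (1 + (y : ℂ) * Complex.I) ^ 3)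
      - 2 * (qq (1 + y * Complex.I) * (Complex.exp ((1 + y * Complex.I) * ((u + ∑ ρ ∈ A, hst ρ + 1 : ℝ) : ℂ)) / (1 + (y : ℂ) * Complex.I) ^ 3)))
      + qq (1 + y * Complex.I) * (Complex.exp ((1 + y * Complex.I) * ((u + ∑ ρ ∈ A, hst ρ : ℝ) : ℂ)) / (1 + (y : ℂ) * Complex.I) ^ 3)) := by
  set w : ℂ := 1 + y * Complex.I with hw
  have hw0 : w ≠ 0 := one_add_ne y
  unfold JJ
  rw [phi_eq_sum, Finset.mul_sum, Finset.sum_mul]
  refine Finset.sum_congr rfl fun A _ => ?_
  set a : ℝ := ∑ ρ ∈ A, hst ρ with ha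
  have e1 : Complex.exp (w * ((u + a + 2 : ℝ) : ℂ)) = Complex.exp w ^ 2 * Complex.exp (w * a) * Complex.exp (w * u) := by
    rw [← Complex.exp_nat_mul, ← Complex.exp_add, ← Complex.exp_add]
    congr 1
    push_cast
    ring
  have e2 : Complex.exp (w * ((u + a + 1 : ℝ) : ℂ)) = Complex.exp w * Complex.exp (w * a) * Complex.exp (w * u) := by
    rw [← Complex.exp_add, ← Complex.exp_add]
    congr 1
    push_cast
    ring
  have e3 : Complex.exp (w * ((u + a : ℝ) : ℂ)) = Complex.exp (w * a) * Complex.exp (w * u) := by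
    rw [← Complex.exp_add]
    congr 1
    push_cast
    ring
  rw [e1, e2, e3]
  field_simp
  ring

lemma piece_integrable (v : ℝ) : Integrable (fun y : ℝ =>
      (qq (1 + y * Complex.I) * (Complex.exp ((1 + y * Complex.I) * ((v + 2 : ℝ) : ℂ)) / (1 + (y : ℂ) * Complex.I) ^ 3)
      - 2 * (qq (1 + y * Complex.I) * (Complex.exp ((1 + y * Complex.I) * ((v + 1 : ℝ) : ℂ)) / (1 + (y : ℂ) * Complex.I) ^ 3)))
      + qq (1 + y * Complex.I) * (Complex.exp ((1 + y * Complex.I) * ((v : ℝ) : ℂ)) / (1 + (y : ℂ) * Complex.I) ^ 3)) :=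
  ((S2_integrable (v + 2)).sub ((S2_integrable (v + 1)).const_mul 2)).add (S2_integrable v)

lemma piece_integral (v : ℝ) : ∫ y : ℝ,
      ((qq (1 + y * Complex.I) * (Complex.exp ((1 + y * Complex.I) * ((v + 2 : ℝ) : ℂ)) / (1 + (y : ℂ) * Complex.I) ^ 3)
      - 2 * (qq (1 + y * Complex.I) * (Complex.exp ((1 + y * Complex.I) * ((v + 1 : ℝ) : ℂ)) / (1 + (y : ℂ) * Complex.I) ^ 3)))
      + qq (1 + y * Complex.I) * (Complex.exp ((1 + y * Complex.I) * ((v : ℝ) : ℂ)) / (1 + (y : ℂ) * Complex.I) ^ 3))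
      = 2 * Real.pi * (WW v : ℂ) := by
  have i1 : Integrable (fun y : ℝ =>
      (qq (1 + y * Complex.I) * (Complex.exp ((1 + y * Complex.I) * ((v + 2 : ℝ) : ℂ)) / (1 + (y : ℂ) * Complex.I) ^ 3)
      - 2 * (qq (1 + y * Complex.I) * (Complex.exp ((1 + y * Complex.I) * ((v + 1 : ℝ) : ℂ)) / (1 + (y : ℂ) * Complex.I) ^ 3)))) :=
    (S2_integrable (v + 2)).sub ((S2_integrable (v + 1)).const_mul 2)
  rw [integral_add i1 (S2_integrable v), integral_sub (S2_integrable (v + 2)) ((S2_integrable (v + 1)).const_mul 2),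
    integral_const_mul, S2_formula, S2_formula, S2_formula]
  unfold WW
  push_cast
  ring

lemma JJ_line_integrable (Z : Finset ℂ) (u : ℝ) : Integrable (fun y : ℝ => JJ u Z (1 + y * Complex.I)) := by
  simp_rw [JJ_line_eq]
  exact integrable_finsetSum _ fun A _ => (piece_integrable _).const_mul _

theorem V_formula (Z : Finset ℂ) (u : ℝ) :
    ∫ y : ℝ, JJ u Z (1 + y * Complex.I) = 2 * Real.pi * (VV Z u : ℂ) := by
  simp_rw [JJ_line_eq]
  rw [integral_finsetSum _ fun A _ => (piece_integrable _).const_mul _]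
  simp_rw [integral_const_mul, piece_integral]
  unfold VV
  push_cast
  rw [Finset.mul_sum]
  refine Finset.sum_congr rfl fun A _ => ?_
  ring

theorem V_bound : ∃ C : ℝ, 0 < C ∧ ∀ (T u : ℝ), 1 ≤ T → 0 ≤ u →
    |VV (ZT T) u| ≤ C * Real.exp (-(u/4)) + C * Real.exp u / T := by
  obtain ⟨C, hC, hcont⟩ := contour_bound
  have hpi := Real.pi_pos
  have hCL := CL_nonneg
  set C3 : ℝ := (CL + 2) * 16 * Real.exp (Real.pi * SS) with hC3
  have hC3p : 0 < C3 := by positivity
  refine ⟨C + C3 * Real.pi, by positivity, fun T u hT hu => ?_⟩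
  have hT0 : 0 < T := by linarith
  have hV := V_formula (ZT T) u
  have hint := JJ_line_integrable (ZT T) u
  have hsplit := integral_add_compl (measurableSet_Ioc (a := -T) (b := T)) hint
  rw [← intervalIntegral.integral_of_le (by linarith)] at hsplit
  have htail : ‖∫ y in (Ioc (-T) T)ᶜ, JJ u (ZT T) (1 + y * Complex.I)‖ ≤ C3 * Real.pi * Real.exp u / T := by
    have h1 : ‖∫ y in (Ioc (-T) T)ᶜ, JJ u (ZT T) (1 + y * Complex.I)‖ ≤
        ∫ y in (Ioc (-T) T)ᶜ, C3 * Real.exp u / T * (1 + y ^ 2)⁻¹ := by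
      refine norm_integral_le_of_norm_le (integrable_inv_one_add_sq.const_mul _).integrableOn ?_
      refine (ae_restrict_mem measurableSet_Ioc.compl).mono fun y hy => ?_
      have hyT : T ≤ |y| := by
        by_contra hc
        push Not at hc
        have := abs_lt.1 hc
        exact hy ⟨this.1, this.2.le⟩
      set w : ℂ := 1 + y * Complex.I with hw
      have hw0 : w ≠ 0 := one_add_ne y
      have hwn : 0 < ‖w‖ := norm_pos_iff.2 hw0
      have e : JJ u (ZT T) w = qq w * (Complex.exp w - 1) ^ 2 * phi (ZT T) w * Complex.exp (w * u) * (1 / w ^ 3) := by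
        unfold JJ
        field_simp
      have hre : w.re = 1 := by rw [hw]; simp
      have he : ‖Complex.exp w - 1‖ ≤ 4 := by
        refine (norm_sub_le _ _).trans ?_
        rw [norm_one, Complex.norm_exp, hre]
        have := Real.exp_one_lt_d9
        linarith
      have hphi := phi_ZT_norm T (w := w) (by rw [hre])
      have hq : ‖qq w‖ ≤ CL + 2 := qq_line_norm y
      have hexp : ‖Complex.exp (w * u)‖ = Real.exp u := exp_line_norm y u
      have hTw : T ≤ ‖w‖ := by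
        have := Complex.abs_im_le_norm w
        have e2 : w.im = y := by rw [hw]; simp
        rw [e2] at this
        linarith
      have h3 : ‖1 / w ^ 3‖ ≤ 1 / T * (1 + y ^ 2)⁻¹ := by
        rw [norm_div, norm_one, norm_pow, ← norm_line_sq, ← hw]
        have : 1 / ‖w‖ ^ 3 = 1 / ‖w‖ * (‖w‖ ^ 2)⁻¹ := by field_simp
        rw [this]
        gcongr
      rw [e, norm_mul, norm_mul, norm_mul, norm_mul, norm_pow, hexp]
      calc ‖qq w‖ * ‖Complex.exp w - 1‖ ^ 2 * ‖phi (ZT T) w‖ * Real.exp u * ‖1 / w ^ 3‖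
          ≤ (CL + 2) * 4 ^ 2 * Real.exp (Real.pi * SS) * Real.exp u * (1 / T * (1 + y ^ 2)⁻¹) := by gcongr
        _ = _ := by rw [hC3]; ring
    refine h1.trans ?_
    rw [integral_const_mul]
    have h2 : ∫ y in (Ioc (-T) T)ᶜ, (1 + y ^ 2)⁻¹ ≤ Real.pi := by
      rw [← integral_univ_inv_one_add_sq]
      exact setIntegral_le_integral integrable_inv_one_add_sq (Eventually.of_forall fun y => by positivity)
    calc C3 * Real.exp u / T * ∫ y in (Ioc (-T) T)ᶜ, (1 + y ^ 2)⁻¹ ≤ C3 * Real.exp u / T * Real.pi := by gcongr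
      _ = _ := by ring
  have hmain := hcont T u hT hu
  have hnorm : ‖∫ y : ℝ, JJ u (ZT T) (1 + y * Complex.I)‖ ≤
      C * Real.exp (-(u/4)) + C * Real.exp u / T + C3 * Real.pi * Real.exp u / T := by
    rw [← hsplit]
    exact (norm_add_le _ _).trans (add_le_add hmain htail)
  rw [hV, norm_mul, norm_mul, Complex.norm_real, Complex.norm_real, Real.norm_of_nonneg hpi.le, Real.norm_eq_abs] at hnorm
  have h2 : ‖(2:ℂ)‖ = 2 := by simp
  rw [h2] at hnorm
  have h3 : 1 ≤ 2 * Real.pi := by linarith [Real.pi_gt_three]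
  have hV0 := abs_nonneg (VV (ZT T) u)
  have h4 : 0 ≤ C3 * Real.pi * Real.exp (-(u/4)) := by positivity
  calc |VV (ZT T) u| ≤ 2 * Real.pi * |VV (ZT T) u| := by nlinarith
    _ ≤ _ := hnorm
    _ ≤ (C + C3 * Real.pi) * Real.exp (-(u/4)) + (C + C3 * Real.pi) * Real.exp u / T := by
        have e : (C + C3 * Real.pi) * Real.exp (-(u/4)) + (C + C3 * Real.pi) * Real.exp u / T =
          C * Real.exp (-(u/4)) + C * Real.exp u / T + C3 * Real.pi * Real.exp u / T +
          C3 * Real.pi * Real.exp (-(u/4)) := by ring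
        rw [e]
        linarith

end

end Pool.Agent.H437R2
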