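import Pool.Agent.H437R2.A6c
set_option autoImplicit false

open MeasureTheory Filter Topology Set

namespace Pool.Agent.H437R2

noncomputable section

/-- the remainder in the variable `log x` -/
def rr (x : ℝ) : ℝ := ∑ n ∈ Finset.Iic ⌊Real.exp x⌋₊, ArithmeticFunction.vonMangoldt n / n - x +
  Real.eulerMascheroniConstant

def dd (k : ℕ) (v : ℝ) : ℝ := if 0 ≤ v then v ^ k / k.factorial else 0

lemma pp_eq_dd {k : ℕ} (hk : k ≠ 0) (v : ℝ) : pp k v = dd k v := by
  unfold pp dd
  split_ifs with h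
  · rw [max_eq_left h]
  · rw [max_eq_right (le_of_lt (not_le.1 h))]
    simp [hk]

lemma pp_right (k : ℕ) (s v : ℝ) :
    HasDerivWithinAt (fun x => pp (k + 1) (x + s)) (dd k (v + s)) (Ici v) v := by
  unfold dd
  split_ifs with h
  · have h1 : HasDerivAt (fun x : ℝ => (x + s) ^ (k + 1) / ((k + 1).factorial : ℝ)) ((v + s) ^ k / k.factorial) v := by
      have h2 := (((hasDerivAt_id v).add_const s).fun_pow (k + 1)).div_const ((k + 1).factorial : ℝ)
      convert! h2 using 1
      rw [Nat.factorial_succ]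
      push_cast
      have : (k.factorial : ℝ) ≠ 0 := by exact_mod_cast Nat.factorial_ne_zero k
      have h3 : ((k:ℝ) + 1) ≠ 0 := by positivity
      simp
      field_simp
    refine h1.hasDerivWithinAt.congr (fun x hx => ?_) ?_
    · have hx' : v ≤ x := hx
      unfold pp
      rw [max_eq_left (by linarith)]
    · unfold pp
      rw [max_eq_left h]
  · push Not at h
    have h1 : (fun x => pp (k + 1) (x + s)) =ᶠ[𝓝 v] fun _ => (0:ℝ) := by
      filter_upwards [Iio_mem_nhds (show v < -s by linarith)] with x hx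
      have hx' : x < -s := hx
      unfold pp
      rw [max_eq_right (by linarith)]
      simp
    exact ((hasDerivAt_const v (0:ℝ)).congr_of_eventuallyEq h1).hasDerivWithinAt

def SN (k N : ℕ) (v : ℝ) : ℝ := ∑ n ∈ Finset.range N, ArithmeticFunction.vonMangoldt n / n * pp k (v - Real.log n) +
  Real.eulerMascheroniConstant * pp k v - pp (k + 1) v

def DN (k N : ℕ) (v : ℝ) : ℝ := ∑ n ∈ Finset.range N, ArithmeticFunction.vonMangoldt n / n * dd k (v - Real.log n) +
  Real.eulerMascheroniConstant * dd k v - dd (k + 1) v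

lemma SN_eq_DN {k : ℕ} (hk : k ≠ 0) (N : ℕ) (v : ℝ) : SN k N v = DN k N v := by
  unfold SN DN
  rw [pp_eq_dd hk, pp_eq_dd (Nat.succ_ne_zero k)]
  simp_rw [pp_eq_dd hk]

lemma SN_right (k N : ℕ) (s v : ℝ) :
    HasDerivWithinAt (fun x => SN (k + 1) N (x + s)) (DN k N (v + s)) (Ici v) v := by
  unfold SN DN
  refine HasDerivWithinAt.sub (HasDerivWithinAt.add ?_ ((pp_right k s v).const_mul _)) (pp_right (k + 1) s v)
  have : ∀ n ∈ Finset.range N, HasDerivWithinAt (fun x => ArithmeticFunction.vonMangoldt n / n *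
      pp (k + 1) (x + s - Real.log n)) (ArithmeticFunction.vonMangoldt n / n * dd k (v + s - Real.log n)) (Ici v) v := by
    intro n _
    refine HasDerivWithinAt.const_mul _ ?_
    have h1 := pp_right k (s - Real.log n) v
    have e1 : ∀ x : ℝ, x + (s - Real.log n) = x + s - Real.log n := fun x => by ring
    simp_rw [e1] at h1
    exact h1
  have h2 := HasDerivWithinAt.fun_sum this
  exact h2

lemma SN_cont (k N : ℕ) : Continuous (SN k N) := by
  unfold SN
  have h1 := pp_cont k
  have h2 := pp_cont (k + 1)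
  fun_prop

lemma S2_eq_SN {N : ℕ} {v : ℝ} (hN : 1 ≤ N) (hv : v ≤ Real.log N) : S2 v = SN 2 N v := by
  unfold S2 SN
  congr 2
  refine tsum_eq_sum fun n hn => ?_
  rw [Finset.mem_range, not_lt] at hn
  have h1 : Real.log N ≤ Real.log n := Real.log_le_log (by exact_mod_cast hN) (by exact_mod_cast hn)
  unfold pp
  rw [max_eq_right (by linarith)]
  simp

lemma DN_zero_eq {N : ℕ} {x : ℝ} (hN : 1 ≤ N) (hx0 : 0 ≤ x) (hx : x < Real.log N) : DN 0 N x = rr x := by
  have hN0 : (0:ℝ) < N := by exact_mod_cast hN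
  unfold DN rr dd
  have hM : ⌊Real.exp x⌋₊ < N := by
    rw [Nat.floor_lt (Real.exp_pos x).le]
    calc Real.exp x < Real.exp (Real.log N) := Real.exp_lt_exp.2 hx
      _ = N := Real.exp_log hN0
  have h1 : ∑ n ∈ Finset.range N, ArithmeticFunction.vonMangoldt n / n *
      (if 0 ≤ x - Real.log n then (x - Real.log n) ^ 0 / ((Nat.factorial 0 : ℕ) : ℝ) else 0) =
      ∑ n ∈ Finset.Iic ⌊Real.exp x⌋₊, ArithmeticFunction.vonMangoldt n / n := by
    have h2 : (Finset.range N).filter (fun n => n ≤ ⌊Real.exp x⌋₊) = Finset.Iic ⌊Real.exp x⌋₊ := by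
      ext n
      rw [Finset.mem_filter, Finset.mem_range, Finset.mem_Iic]
      constructor
      · exact fun h => h.2
      · exact fun h => ⟨lt_of_le_of_lt h hM, h⟩
    rw [← h2, Finset.sum_filter]
    refine Finset.sum_congr rfl fun n _ => ?_
    rcases Nat.eq_zero_or_pos n with hn | hn
    · subst hn
      simp
    · have hnp : (0:ℝ) < n := by exact_mod_cast hn
      have h3 : 0 ≤ x - Real.log n ↔ n ≤ ⌊Real.exp x⌋₊ := by
        rw [sub_nonneg, Real.log_le_iff_le_exp hnp, Nat.le_floor_iff (Real.exp_pos x).le]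
      by_cases h4 : 0 ≤ x - Real.log n
      · rw [if_pos h4, if_pos (h3.1 h4)]
        simp
      · rw [if_neg h4, if_neg (fun h => h4 (h3.2 h)), mul_zero]
  rw [h1, if_pos hx0, if_pos hx0]
  simp
  ring

lemma WW_close {u a b : ℝ} (hu : 0 ≤ u) (h : ∀ x ∈ Icc u (u + 2), |rr x - a| ≤ b) : |WW u - a| ≤ b := by
  set N : ℕ := ⌈Real.exp (u + 3)⌉₊ + 1 with hN
  have hN1 : 1 ≤ N := by omega
  have hN0 : (0:ℝ) < N := by exact_mod_cast hN1
  have hlog : u + 3 < Real.log N := by
    rw [Real.lt_log_iff_exp_lt hN0, hN]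
    push_cast
    have := Nat.le_ceil (Real.exp (u + 3))
    linarith
  have step1 : ∀ x ∈ Icc u (u + 1), |SN 1 N (x + 1) - SN 1 N x - a| ≤ b := by
    intro x hx
    have h1 := norm_image_sub_le_of_norm_deriv_right_le_segment (a := x) (b := x + 1)
      (f := fun t => SN 1 N (t + 0) - a * t) (f' := fun t => DN 0 N (t + 0) - a) (C := b) (by
        refine Continuous.continuousOn ?_
        have := SN_cont 1 N
        fun_prop) (by
        intro t _
        refine HasDerivWithinAt.sub (SN_right 0 N 0 t) ?_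
        have := (hasDerivAt_id t).const_mul a
        rw [mul_one] at this
        exact this.hasDerivWithinAt) (by
        intro t ht
        simp only [add_zero]
        rw [DN_zero_eq hN1 (by linarith [hx.1, ht.1]) (by linarith [hx.2, ht.2]), Real.norm_eq_abs]
        exact h t ⟨by linarith [hx.1, ht.1], by linarith [hx.2, ht.2]⟩) (x + 1) ⟨by linarith, le_refl _⟩
    simp only [add_zero, add_sub_cancel_left, mul_one, Real.norm_eq_abs] at h1
    have e : SN 1 N (x + 1) - a * (x + 1) - (SN 1 N x - a * x) = SN 1 N (x + 1) - SN 1 N x - a := by ring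
    rwa [e] at h1
  have h2 := norm_image_sub_le_of_norm_deriv_right_le_segment (a := u) (b := u + 1)
      (f := fun t => SN 2 N (t + 1) - SN 2 N (t + 0) - a * t) (f' := fun t => DN 1 N (t + 1) - DN 1 N (t + 0) - a) (C := b) (by
        refine Continuous.continuousOn ?_
        have := SN_cont 2 N
        fun_prop) (by
        intro t _
        refine HasDerivWithinAt.sub (HasDerivWithinAt.sub (SN_right 1 N 1 t) (SN_right 1 N 0 t)) ?_
        have := (hasDerivAt_id t).const_mul a
        rw [mul_one] at this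
        exact this.hasDerivWithinAt) (by
        intro t ht
        rw [← SN_eq_DN one_ne_zero, ← SN_eq_DN one_ne_zero, add_zero, Real.norm_eq_abs]
        exact step1 t ⟨ht.1, ht.2.le⟩) (u + 1) ⟨by linarith, le_refl _⟩
  simp only [add_zero, add_sub_cancel_left, mul_one, Real.norm_eq_abs] at h2
  have e : WW u - a = SN 2 N (u + 1 + 1) - SN 2 N (u + 1) - a * (u + 1) - (SN 2 N (u + 1) - SN 2 N u - a * u) := by
    unfold WW
    rw [S2_eq_SN hN1 (by linarith : u + 2 ≤ Real.log N), S2_eq_SN hN1 (by linarith : u + 1 ≤ Real.log N),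
      S2_eq_SN hN1 (by linarith : u ≤ Real.log N)]
    have : u + 1 + 1 = u + 2 := by ring
    rw [this]
    ring
  rw [e]
  exact h2

/-- the averaged remainder is close to `a` if the remainder is -/
lemma VV_close {T u a b : ℝ} (hu : 0 ≤ u) (h : ∀ x ∈ Icc u (u + Real.pi * SS + 2), |rr x - a| ≤ b) :
    |VV (ZT T) u - a| ≤ b := by
  have hsum := cc_sum (ZT T)
  have e : VV (ZT T) u - a = ∑ A ∈ (ZT T).powerset, cc (ZT T) A * (WW (u + ∑ ρ ∈ A, hst ρ) - a) := by
    simp_rw [mul_sub]
    rw [Finset.sum_sub_distrib, ← Finset.sum_mul, hsum, one_mul]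
    rfl
  rw [e]
  refine (Finset.abs_sum_le_sum_abs _ _).trans ?_
  have h1 : ∀ A ∈ (ZT T).powerset, |cc (ZT T) A * (WW (u + ∑ ρ ∈ A, hst ρ) - a)| ≤ cc (ZT T) A * b := by
    intro A hA
    rw [Finset.mem_powerset] at hA
    rw [abs_mul, abs_of_nonneg (cc_nonneg _ _)]
    refine mul_le_mul_of_nonneg_left ?_ (cc_nonneg _ _)
    have h2 : 0 ≤ ∑ ρ ∈ A, hst ρ := Finset.sum_nonneg fun ρ _ => hst_nonneg ρ
    have h3 : ∑ ρ ∈ A, hst ρ ≤ Real.pi * SS := by
      refine sum_hst ?_
      exact SS_spec A fun ρ hρ => ZT_IsZ (hA hρ)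
    exact WW_close (by linarith) fun x hx => h x ⟨by linarith [hx.1], by linarith [hx.2]⟩
  refine (Finset.sum_le_sum h1).trans ?_
  rw [← Finset.sum_mul, hsum, one_mul]

/-- key inequality -/
theorem rr_bound : ∃ C : ℝ, 0 < C ∧ ∀ u b : ℝ, 0 ≤ u →
    (∀ x ∈ Icc u (u + Real.pi * SS + 2), |rr x - rr u| ≤ b) → |rr u| ≤ b + C * Real.exp (-(u/4)) := by
  obtain ⟨C, hC, hV⟩ := V_bound
  refine ⟨C, hC, fun u b hu h => ?_⟩
  have h1 : ∀ T : ℝ, 1 ≤ T → |rr u| ≤ b + C * Real.exp (-(u/4)) + C * Real.exp u * T⁻¹ := by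
    intro T hT
    have h2 := hV T u hT hu
    have h3 := VV_close (T := T) hu h
    have h4 : |rr u| ≤ |VV (ZT T) u| + |VV (ZT T) u - rr u| := by
      have := abs_sub_abs_le_abs_sub (rr u) (VV (ZT T) u)
      rw [abs_sub_comm] at this
      linarith
    have e := div_eq_mul_inv (C * Real.exp u) T
    linarith
  have h5 : Tendsto (fun T : ℝ => b + C * Real.exp (-(u/4)) + C * Real.exp u * T⁻¹) atTop
      (𝓝 (b + C * Real.exp (-(u/4)) + C * Real.exp u * 0)) :=
    (tendsto_inv_atTop_zero.const_mul _).const_add _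
  rw [mul_zero, add_zero] at h5
  exact ge_of_tendsto h5 ((eventually_ge_atTop 1).mono h1)

end

end Pool.Agent.H437R2
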