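import Pool.Agent.H437R2.A7
set_option autoImplicit false

open MeasureTheory Filter Topology Set

namespace Pool.Agent.H437R2

noncomputable section

def PsI (t : ℝ) : ℝ := ∑ n ∈ Finset.Iic ⌊t⌋₊, ArithmeticFunction.vonMangoldt n

def RI (t : ℝ) : ℝ := ∑ n ∈ Finset.Iic ⌊t⌋₊, ArithmeticFunction.vonMangoldt n / n

lemma Iic_eq_Icc (n : ℕ) : Finset.Iic n = Finset.Icc 0 n := by
  ext k; simp

lemma PsI_measurable : Measurable PsI := by
  unfold PsI
  have h1 : Measurable (fun n : ℕ => ∑ k ∈ Finset.Iic n, ArithmeticFunction.vonMangoldt k) := measurable_from_nat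
  exact h1.comp Nat.measurable_floor

lemma partial_sum {x y M : ℝ} (hx : 1 ≤ x) (hxy : x ≤ y) (hM0 : 0 ≤ M) (hM : ∀ t ∈ Icc x y, |PsI t - t| ≤ M * t) :
    |(RI y - Real.log y) - (RI x - Real.log x)| ≤ (2 + Real.log (y / x)) * M := by
  have hx0 : 0 < x := by linarith
  have hy0 : 0 < y := by linarith
  have hd : ∀ t : ℝ, deriv (fun t : ℝ => t⁻¹) t = -(t ^ 2)⁻¹ := fun t => by simp
  have hcont : ContinuousOn (fun t : ℝ => -(t ^ 2)⁻¹) (Icc x y) := by
    intro t ht
    have : t ≠ 0 := by linarith [ht.1]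
    refine ContinuousAt.continuousWithinAt ?_
    fun_prop (disch := positivity)
  have hab := sum_mul_eq_sub_sub_integral_mul (fun n => ArithmeticFunction.vonMangoldt n)
    (f := fun t : ℝ => t⁻¹) hx0.le hxy (fun t ht => by
      have : t ≠ 0 := by linarith [ht.1]
      fun_prop (disch := assumption)) (by
      refine (hcont.integrableOn_Icc).congr_fun (fun t _ => (hd t).symm) measurableSet_Icc)
  have hR : RI y - RI x = ∑ k ∈ Finset.Ioc ⌊x⌋₊ ⌊y⌋₊, (k:ℝ)⁻¹ * ArithmeticFunction.vonMangoldt k := by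
    unfold RI
    have hfl : ⌊x⌋₊ ≤ ⌊y⌋₊ := Nat.floor_le_floor hxy
    have h1 : Finset.Iic ⌊y⌋₊ = Finset.Iic ⌊x⌋₊ ∪ Finset.Ioc ⌊x⌋₊ ⌊y⌋₊ := by
      ext k
      simp only [Finset.mem_union, Finset.mem_Iic, Finset.mem_Ioc]
      omega
    have h2 : Disjoint (Finset.Iic ⌊x⌋₊) (Finset.Ioc ⌊x⌋₊ ⌊y⌋₊) := by
      rw [Finset.disjoint_left]
      intro k hk hk2
      rw [Finset.mem_Iic] at hk
      rw [Finset.mem_Ioc] at hk2
      omega
    rw [h1, Finset.sum_union h2, add_sub_cancel_left]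
    refine Finset.sum_congr rfl fun k _ => ?_
    rw [div_eq_inv_mul]
  have hint2 : IntegrableOn (fun t : ℝ => (t ^ 2)⁻¹ * PsI t) (Ioc x y) := by
    have hb : ∀ t ∈ Ioc x y, ‖(t ^ 2)⁻¹ * PsI t‖ ≤ (1 + M) * y := by
      intro t ht
      have ht1 : 1 ≤ t := by linarith [ht.1]
      have h3 := hM t ⟨ht.1.le, ht.2⟩
      have h4 : |PsI t| ≤ (1 + M) * t := by
        have := abs_sub_abs_le_abs_sub (PsI t) t
        rw [abs_of_pos (show 0 < t by linarith)] at this
        nlinarith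
      rw [norm_mul, Real.norm_eq_abs, Real.norm_eq_abs, abs_of_nonneg (by positivity)]
      have h5 : (t ^ 2)⁻¹ ≤ 1 := inv_le_one_of_one_le₀ (one_le_pow₀ ht1)
      calc (t ^ 2)⁻¹ * |PsI t| ≤ 1 * ((1 + M) * t) := by gcongr
        _ ≤ (1 + M) * y := by rw [one_mul]; gcongr; exact ht.2
    refine Integrable.mono' (g := fun _ => (1 + M) * y) ?_ ?_ ?_
    · exact integrableOn_const (by rw [Real.volume_Ioc]; exact ENNReal.ofReal_ne_top)
    · refine Measurable.aestronglyMeasurable ?_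
      exact ((measurable_id.pow_const 2).inv).mul PsI_measurable
    · exact (ae_restrict_mem measurableSet_Ioc).mono fun t ht => hb t ht
  have hinv : IntegrableOn (fun t : ℝ => t⁻¹) (Ioc x y) := by
    have : ContinuousOn (fun t : ℝ => t⁻¹) (Icc x y) := by
      intro t ht
      have : t ≠ 0 := by linarith [ht.1]
      refine ContinuousAt.continuousWithinAt ?_
      fun_prop (disch := assumption)
    exact this.integrableOn_Icc.mono_set Ioc_subset_Icc_self
  have hlog : ∫ t in Ioc x y, t⁻¹ = Real.log (y / x) := by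
    rw [← intervalIntegral.integral_of_le hxy, integral_inv_of_pos hx0 hy0]
  have hI : ∫ t in Ioc x y, deriv (fun t : ℝ => t⁻¹) t * ∑ k ∈ Finset.Icc 0 ⌊t⌋₊, ArithmeticFunction.vonMangoldt k =
      -∫ t in Ioc x y, (t ^ 2)⁻¹ * PsI t := by
    rw [← integral_neg]
    refine setIntegral_congr_fun measurableSet_Ioc fun t _ => ?_
    show deriv (fun t : ℝ => t⁻¹) t * ∑ k ∈ Finset.Icc 0 ⌊t⌋₊, ArithmeticFunction.vonMangoldt k = -((t ^ 2)⁻¹ * PsI t)
    rw [hd, ← Iic_eq_Icc]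
    unfold PsI
    ring
  rw [hI, ← Iic_eq_Icc, ← Iic_eq_Icc] at hab
  have hmain : (RI y - Real.log y) - (RI x - Real.log x) =
      (PsI y - y) * y⁻¹ - (PsI x - x) * x⁻¹ + ∫ t in Ioc x y, ((t ^ 2)⁻¹ * PsI t - t⁻¹) := by
    rw [integral_sub hint2 hinv, hlog, Real.log_div hy0.ne' hx0.ne']
    have e : (RI y - Real.log y) - (RI x - Real.log x) = (RI y - RI x) - (Real.log y - Real.log x) := by ring
    rw [e, hR, hab]
    unfold PsI
    field_simp
    ring
  have hb3 : |∫ t in Ioc x y, ((t ^ 2)⁻¹ * PsI t - t⁻¹)| ≤ M * Real.log (y / x) := by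
    rw [← Real.norm_eq_abs, ← hlog, ← integral_const_mul]
    refine norm_integral_le_of_norm_le (hinv.const_mul M) ?_
    refine (ae_restrict_mem measurableSet_Ioc).mono fun t ht => ?_
    have ht0 : 0 < t := by linarith [ht.1]
    have h3 := hM t ⟨ht.1.le, ht.2⟩
    have e : (t ^ 2)⁻¹ * PsI t - t⁻¹ = (t ^ 2)⁻¹ * (PsI t - t) := by field_simp
    rw [e, norm_mul, Real.norm_eq_abs, Real.norm_eq_abs, abs_of_nonneg (by positivity)]
    calc (t ^ 2)⁻¹ * |PsI t - t| ≤ (t ^ 2)⁻¹ * (M * t) := by gcongr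
      _ = M * t⁻¹ := by field_simp
  have hb1 : |(PsI y - y) * y⁻¹| ≤ M := by
    rw [abs_mul, abs_of_pos (inv_pos.2 hy0), ← div_eq_mul_inv, div_le_iff₀ hy0]
    exact hM y ⟨hxy, le_refl _⟩
  have hb2 : |(PsI x - x) * x⁻¹| ≤ M := by
    rw [abs_mul, abs_of_pos (inv_pos.2 hx0), ← div_eq_mul_inv, div_le_iff₀ hx0]
    exact hM x ⟨le_refl _, hxy⟩
  rw [hmain]
  refine (abs_add_le _ _).trans ?_
  refine (add_le_add (abs_sub _ _) hb3).trans ?_
  linarith

theorem main_bound : ∃ A : ℝ, 1 < A ∧ ∃ C : ℝ, ∀ x : ℝ, 1 ≤ x → ∀ M : ℝ,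
      (∀ y : ℝ, x ≤ y → y ≤ A * x → |PsI y - y| / y ≤ M) →
      |RI x - Real.log x + Real.eulerMascheroniConstant| ≤ C * (M + x ^ (-(1 / 4 : ℝ))) := by
  obtain ⟨C, hC, hr⟩ := rr_bound
  have hpi := Real.pi_pos
  have hSS := SS_pos
  set S : ℝ := Real.pi * SS + 2 with hS
  have hS0 : 0 < S := by positivity
  refine ⟨Real.exp S, Real.one_lt_exp_iff.2 hS0, (2 + S) + C, fun x hx M hM => ?_⟩
  have hx0 : 0 < x := by linarith
  have hA : 1 ≤ Real.exp S := Real.one_le_exp hS0.le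
  have hM0 : 0 ≤ M := by
    have := hM x (le_refl _) (by nlinarith)
    exact le_trans (by positivity) this
  set u := Real.log x with hu
  have hu0 : 0 ≤ u := Real.log_nonneg hx
  have hexpu : Real.exp u = x := Real.exp_log hx0
  have hrr : ∀ v : ℝ, rr v = RI (Real.exp v) - Real.log (Real.exp v) + Real.eulerMascheroniConstant := by
    intro v
    unfold rr RI
    rw [Real.log_exp]
  have hclose : ∀ v ∈ Icc u (u + Real.pi * SS + 2), |rr v - rr u| ≤ (2 + S) * M := by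
    intro v hv
    have hvx : x ≤ Real.exp v := by
      rw [← hexpu]; exact Real.exp_le_exp.2 hv.1
    have hvy : Real.exp v ≤ Real.exp S * x := by
      rw [← hexpu, ← Real.exp_add]
      refine Real.exp_le_exp.2 ?_
      rw [hS]; linarith [hv.2]
    have h1 := partial_sum hx hvx hM0 (fun t ht => by
      have ht0 : 0 < t := by linarith [ht.1]
      have := hM t ht.1 (ht.2.trans hvy)
      rwa [div_le_iff₀ ht0] at this)
    have e : rr v - rr u = (RI (Real.exp v) - Real.log (Real.exp v)) - (RI x - Real.log x) := by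
      rw [hrr, hrr, hexpu]; ring
    rw [e]
    refine h1.trans ?_
    have h2 : Real.log (Real.exp v / x) ≤ S := by
      rw [Real.log_div (Real.exp_pos v).ne' hx0.ne', Real.log_exp, ← hu, hS]
      linarith [hv.2]
    gcongr
  have h1 := hr u _ hu0 hclose
  have e1 : rr u = RI x - Real.log x + Real.eulerMascheroniConstant := by
    rw [hrr, hexpu]
  have e2 : Real.exp (-(u/4)) = x ^ (-(1 / 4 : ℝ)) := by
    rw [Real.rpow_def_of_pos hx0, ← hu]
    congr 1
    ring
  rw [e1, e2] at h1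
  refine h1.trans ?_
  have h3 : 0 ≤ x ^ (-(1 / 4 : ℝ)) := Real.rpow_nonneg hx0.le _
  nlinarith [mul_nonneg hC.le hM0, mul_nonneg (show 0 ≤ 2 + S by positivity) h3]

end

end Pool.Agent.H437R2
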